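import Pool.Agent.H261R3.LN.LStmts

set_option autoImplicit false

open scoped NNReal ENNReal unitInterval

namespace Pool.Agent.H948R3.LM

open Pool.Agent.H261R3.LN
open Pool.Agent.H261R3.LH (Lip1 IsLNR clip clip_nonneg)
open Pool.Agent.H261R3.LD (LipCurve distLip diamLip)

theorem plip_symm {S : Type} [MetricSpace S] {x y : S} {C : ℝ} {γ : Path x y} (h : PLip C γ) :
    PLip C γ.symm := by
  intro s t
  show dist (γ (σ s)) (γ (σ t)) ≤ _
  refine (h _ _).trans (le_of_eq ?_)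
  rw [unitInterval.coe_symm_eq, unitInterval.coe_symm_eq, abs_sub_comm]
  congr 2
  ring

theorem square (hSq : TaskLBSquare) {S X : Type} [MetricSpace S] [MetricSpace X] {c : ℝ≥0}
    {f : X → S} {q : S} (H : LipCurve X S c f (fun _ => q)) {R : ℝ} (hR : 0 < R) {ρ : I → X}
    (hρ : ∀ s t, dist (ρ s) (ρ t) ≤ R * |(s : ℝ) - t|) {x0 x1 : S} (h0 : f (ρ 0) = x0)
    (h1 : f (ρ 1) = x1) (α : Path x0 x1) (hα : ∀ s, α s = f (ρ s)) :
    ∃ (a : Path x0 q) (b : Path x1 q), (∀ t, a t = H.F t (ρ 0)) ∧ (∀ t, b t = H.F t (ρ 1)) ∧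
      α.Homotopic (a.trans b.symm) := by
  subst h0 h1
  exact hSq S X c f q H R hR ρ hρ α hα

theorem taskLBFinal : TaskLBFinal := by
  intro hFin hVar' hRep hConcat hSplit hSq S _ _ hS p hInf
  obtain ⟨K, hK, hVar⟩ := hVar' S hS
  refine ⟨1 / (2 * K), 1 / (2 * K) + 1, by positivity, ?_⟩
  intro X _ o R hR ρ hX hρ hρ0 hρd c hc
  -- a class without `R`-Lipschitz representative
  obtain ⟨c0, hc0⟩ : ∃ c0 : Path.Homotopic.Quotient p p,
      ¬ ∃ γ : Path p p, PLip R γ ∧ Path.Homotopic.Quotient.mk γ = c0 := by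
    by_contra hcon
    push Not at hcon
    have : (Set.univ : Set (Path.Homotopic.Quotient p p)).Finite :=
      (hFin S hS p R).subset (fun c0 _ => hcon c0)
    exact Set.infinite_univ this
  let Ls : Set ℝ := {L | ∃ γ : Path p p, PLip L γ ∧ Path.Homotopic.Quotient.mk γ = c0}
  have hne : Ls.Nonempty := by
    obtain ⟨γ, hγ⟩ := Path.Homotopic.Quotient.mk_surjective c0
    obtain ⟨C, γ', h1, h2⟩ := hRep S hS p p γ
    exact ⟨C, γ', h2, by rw [← hγ]; exact Path.Homotopic.Quotient.eq.2 h1.symm⟩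
  have hlow : ∀ L ∈ Ls, R < L := by
    rintro L ⟨γ, h1, h2⟩
    by_contra hle
    push Not at hle
    exact hc0 ⟨γ, fun s t => (h1 s t).trans (mul_le_mul_of_nonneg_right hle (abs_nonneg _)), h2⟩
  have hbdd : BddBelow Ls := ⟨R, fun L hL => (hlow L hL).le⟩
  obtain ⟨L', hL', hL'1⟩ := exists_lt_of_csInf_lt hne (lt_add_one (sInf Ls))
  obtain ⟨g0, hg0, hg0c⟩ := hL'
  have hRL : R < L' := hlow L' ⟨g0, hg0, hg0c⟩
  have hL'pos : 0 < L' := hR.trans hRL
  let r : I := ⟨R / L', by positivity, (div_le_one hL'pos).2 hRL.le⟩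
  have hr0 : 0 < (r : ℝ) := div_pos hR hL'pos
  have hr1 : (r : ℝ) < 1 := (div_lt_one hL'pos).2 hRL
  obtain ⟨α, β, hαβ, hα, hβ⟩ := hSplit S p p g0 L' hg0 r hr0 hr1
  let f : X → S := fun x => g0 ⟨dist x o / L', by positivity,
    (div_le_one hL'pos).2 ((hX x).trans hRL.le)⟩
  have hf : LipschitzWith 1 f := by
    apply LipschitzWith.of_dist_le_mul
    intro x y
    refine (hg0 _ _).trans ?_
    show L' * |dist x o / L' - dist y o / L'| ≤ ((1 : ℝ≥0) : ℝ) * dist x y
    rw [← sub_div, abs_div, abs_of_pos hL'pos, mul_div_cancel₀ _ hL'pos.ne', NNReal.coe_one,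
      one_mul]
    exact abs_dist_sub_le x y o
  have hfρ : ∀ s, f (ρ s) = g0 (r * s) := by
    intro s
    apply congrArg g0
    apply Subtype.ext
    show dist (ρ s) o / L' = R / L' * s
    rw [hρd]; ring
  have hf0 : f (ρ 0) = p := by rw [hfρ, mul_zero, g0.source]
  have hf1 : f (ρ 1) = g0 r := by rw [hfρ, mul_one]
  have hα' : ∀ s, α s = f (ρ s) := fun s => by rw [hfρ, hα]
  have key : ∀ H : LipCurve X S c f (fun _ => p),
      ENNReal.ofReal (1 / (2 * K) * R - (1 / (2 * K) + 1)) ≤ H.length := by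
    intro H
    by_cases htop : H.length = ⊤
    · rw [htop]; exact le_top
    obtain ⟨a, b, ha, hb, hab⟩ := square hSq H hR hρ hf0 hf1 α hα'
    obtain ⟨L, hL⟩ : ∃ L : ℝ≥0, (L : ℝ≥0∞) = H.length := ⟨H.length.toNNReal, ENNReal.coe_toNNReal htop⟩
    have hva : eVariationOn (fun t : I => a t) Set.univ ≤ L := by
      rw [hL, show (fun t : I => a t) = fun t => H.F t (ρ 0) from funext ha]
      exact le_iSup (fun x => eVariationOn (fun t => H.F t x) Set.univ) (ρ 0)
    have hvb : eVariationOn (fun t : I => b t) Set.univ ≤ L := by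
      rw [hL, show (fun t : I => b t) = fun t => H.F t (ρ 1) from funext hb]
      exact le_iSup (fun x => eVariationOn (fun t => H.F t x) Set.univ) (ρ 1)
    obtain ⟨a', haa', ha'⟩ := hVar _ _ a L hva
    obtain ⟨b', hbb', hb'⟩ := hVar _ _ b L hvb
    have hpos : 0 < K * ((L : ℝ) + 1) := by positivity
    obtain ⟨w, hw, hwL⟩ := hConcat S _ _ _ a' b'.symm _ _ hpos hpos ha' (plip_symm hb')
    have hβpos : 0 < L' * (1 - (r : ℝ)) := mul_pos hL'pos (by linarith)
    obtain ⟨u, hu, huL⟩ := hConcat S _ _ _ w β _ _ (add_pos hpos hpos) hβpos hwL hβ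
    have hug : u.Homotopic g0 := by
      refine hu.trans (Path.Homotopic.trans ?_ hαβ.symm)
      refine Path.Homotopic.hcomp ?_ (Path.Homotopic.refl β)
      exact hw.trans ((Path.Homotopic.hcomp haa'.symm (hbb'.symm.symm₂)).trans hab.symm)
    have hmem : (K * ((L : ℝ) + 1) + K * ((L : ℝ) + 1) + L' * (1 - (r : ℝ))) ∈ Ls :=
      ⟨u, huL, by rw [← hg0c]; exact Path.Homotopic.Quotient.eq.2 hug⟩
    have hΛ := csInf_le hbdd hmem
    have hr : L' * (1 - (r : ℝ)) = L' - R := by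
      show L' * (1 - R / L') = L' - R
      field_simp
    rw [hr] at hΛ
    rw [← hL]
    apply ENNReal.ofReal_le_of_le_toReal
    rw [ENNReal.coe_toReal]
    have h1 : R - 1 ≤ 2 * K * ((L : ℝ) + 1) := by linarith
    have h2 : 1 / (2 * K) * (R - 1) ≤ 1 / (2 * K) * (2 * K * ((L : ℝ) + 1)) :=
      mul_le_mul_of_nonneg_left h1 (by positivity)
    have h3 : 1 / (2 * K) * (2 * K * ((L : ℝ) + 1)) = (L : ℝ) + 1 := by field_simp
    rw [h3] at h2
    linarith
  have h1 : ENNReal.ofReal (1 / (2 * K) * R - (1 / (2 * K) + 1)) ≤ distLip X S c f (fun _ => p) :=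
    le_iInf key
  refine h1.trans ?_
  have hconst : LipschitzWith 1 (fun _ : X => p) := (LipschitzWith.const p).weaken zero_le
  exact le_iSup₂_of_le f hf (le_iSup₂_of_le (fun _ => p) hconst le_rfl)

end Pool.Agent.H948R3.LM
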