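import Pool.Agent.H43R3.DG.Stmts

set_option autoImplicit false

namespace Pool.Agent.H948R3.DG

open Pool.Agent.H43R3.DG
open scoped IsMulCommutative

theorem taskRANK : TaskRANK := by
  intro hMAX hABEL hAUT
  obtain ⟨g, hg⟩ := hAUT
  refine ⟨fun s => s + g s, ?_⟩
  intro s p _ P _ _ hP
  classical
  obtain ⟨A, hAn, hAc, hAz⟩ := hMAX p P hP
  haveI := hAn
  haveI : IsMulCommutative A := ⟨⟨fun a b => Subtype.ext (hAc a a.2 b b.2)⟩⟩
  have hAp : IsPGroup p A := hP.to_subgroup A
  by_cases hcard : Nat.card {a : A // a ^ p = 1} ≤ p ^ s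
  · left
    obtain ⟨S, hS, hSt⟩ := hABEL p A hAp s hcard
    let c : P →* MulAut A := MulAut.conjNormal
    have hcp : IsPGroup p c.range := hP.of_surjective c.rangeRestrict c.rangeRestrict_surjective
    obtain ⟨T, hT, hTt⟩ := hg p A hAp s hcard c.range c.range.subtype
      (Subgroup.subtype_injective _) hcp
    choose l hl using c.rangeRestrict_surjective
    refine ⟨S.image Subtype.val ∪ T.image l, ?_, ?_⟩
    · exact (Finset.card_union_le _ _).trans (Nat.add_le_add
        (Finset.card_image_le.trans hS) (Finset.card_image_le.trans hT))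
    · set H := Subgroup.closure ((S.image Subtype.val ∪ T.image l : Finset P) : Set P) with hH
      have hAH : A ≤ H := by
        intro x hx
        have h1 : (⟨x, hx⟩ : A) ∈ Subgroup.closure (S : Set A) := by rw [hSt]; trivial
        have h2 : x ∈ (Subgroup.closure (S : Set A)).map A.subtype := ⟨⟨x, hx⟩, h1, rfl⟩
        rw [MonoidHom.map_closure] at h2
        refine Subgroup.closure_mono ?_ h2
        rintro _ ⟨y, hy, rfl⟩
        simp only [Finset.coe_union, Finset.coe_image]
        exact Or.inl ⟨y, hy, rfl⟩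
      have hHc : ∀ x : P, ∃ y ∈ H, c y = c x := by
        intro x
        have h1 : c.rangeRestrict x ∈ Subgroup.closure (T : Set c.range) := by rw [hTt]; trivial
        have h2 : Subgroup.closure (T : Set c.range) ≤ H.map c.rangeRestrict := by
          rw [Subgroup.closure_le]
          intro q hq
          refine ⟨l q, Subgroup.subset_closure ?_, hl q⟩
          simp only [Finset.coe_union, Finset.coe_image]
          exact Or.inr ⟨q, hq, rfl⟩
        obtain ⟨y, hy, hyx⟩ := h2 h1
        exact ⟨y, hy, congrArg Subtype.val hyx⟩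
      rw [eq_top_iff]
      intro x _
      obtain ⟨y, hy, hyx⟩ := hHc x
      have hz : x * y⁻¹ ∈ Subgroup.centralizer (A : Set P) := by
        have h1 : c (x * y⁻¹) = 1 := by rw [map_mul, map_inv, hyx, mul_inv_cancel]
        rw [Subgroup.mem_centralizer_iff]
        intro a ha
        have h2 : c (x * y⁻¹) ⟨a, ha⟩ = ⟨a, ha⟩ := by rw [h1]; rfl
        have h3 : (x * y⁻¹) * a * (x * y⁻¹)⁻¹ = a := congrArg Subtype.val h2
        rw [mul_inv_eq_iff_eq_mul] at h3
        exact h3.symm
      have h4 : x = (x * y⁻¹) * y := by group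
      rw [h4]
      exact H.mul_mem (hAH (hAz hz)) hy
  · right
    push Not at hcard
    let Om : Subgroup A :=
      { carrier := {a | a ^ p = 1}
        one_mem' := one_pow p
        mul_mem' := by
          intro a b ha hb
          show (a * b) ^ p = 1
          rw [mul_pow, show a ^ p = 1 from ha, show b ^ p = 1 from hb, one_mul]
        inv_mem' := by
          intro a ha
          show a⁻¹ ^ p = 1
          rw [inv_pow, show a ^ p = 1 from ha, inv_one] }
    have hOm : p ^ s < Nat.card Om := hcard
    obtain ⟨t, ht⟩ := IsPGroup.iff_card.1 (hAp.to_subgroup Om)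
    have hp1 : 1 < p := (Fact.out : p.Prime).one_lt
    rw [ht] at hOm
    have hst : s ≤ t := ((Nat.pow_lt_pow_iff_right hp1).1 hOm).le
    obtain ⟨K, hK⟩ := Sylow.exists_subgroup_card_pow_prime (G := Om) p
      (n := s) (by rw [ht]; exact pow_dvd_pow p hst)
    refine ⟨(K.map Om.subtype).map A.subtype, ?_, ?_, ?_⟩
    · rintro _ ⟨a, -, rfl⟩ _ ⟨b, -, rfl⟩
      exact hAc a a.2 b b.2
    · rintro _ ⟨_, ⟨a, -, rfl⟩, rfl⟩
      have h1 : (a : A) ^ p = 1 := a.2
      show ((a : A) : P) ^ p = 1
      rw [← Subgroup.coe_pow, h1, Subgroup.coe_one]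
    · rw [Subgroup.card_map_of_injective A.subtype_injective,
        Subgroup.card_map_of_injective Om.subtype_injective, hK]

end Pool.Agent.H948R3.DG
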