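import Mathlib
import Pool.Agent.H862R3.Prim.Stmts

set_option autoImplicit false
set_option linter.style.haveILetI false

namespace Pool.Agent.H948R3.PV

open Pool.Agent.H862R3.Prim
open scoped IsMulCommutative

/-- A commutative subgroup retract, general form. -/
theorem exists_retract_aux {A B : Type} [CommGroup A] [CommGroup B] (q : ℕ) [Fact q.Prime]
    (hA : ∀ x : A, x ^ q = 1) (hB : ∀ x : B, x ^ q = 1) (i : A →* B)
    (hi : Function.Injective i) : ∃ π : B →* A, ∀ n : A, π (i n) = n := by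
  letI mA : Module (ZMod q) (Additive A) := AddCommGroup.zmodModule (n := q) (fun x => hA x.toMul)
  letI mB : Module (ZMod q) (Additive B) := AddCommGroup.zmodModule (n := q) (fun x => hB x.toMul)
  let il : Additive A →ₗ[ZMod q] Additive B := AddMonoidHom.toZModLinearMap q (MonoidHom.toAdditive i)
  have hinj : LinearMap.ker il = ⊥ := by
    rw [LinearMap.ker_eq_bot]
    intro a b hab
    exact hi hab
  obtain ⟨g, hg⟩ := LinearMap.exists_leftInverse_of_injective il hinj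
  refine ⟨AddMonoidHom.toMultiplicative g.toAddMonoidHom, ?_⟩
  intro n
  exact LinearMap.congr_fun hg (Additive.ofMul n)

/-- A subgroup of a commutative subgroup of prime exponent is a retract. -/
theorem exists_retract {G : Type} [Group G] (N Q : Subgroup G) (q : ℕ) (hq : q.Prime)
    (hNQ : N ≤ Q) (hQ : Comm Q) (hexp : ∀ x ∈ Q, x ^ q = 1) :
    ∃ π : Q →* N, ∀ n : N, π ⟨n, hNQ n.2⟩ = n := by
  haveI : Fact q.Prime := ⟨hq⟩
  haveI : IsMulCommutative Q := ⟨⟨fun a b => Subtype.ext (hQ a a.2 b b.2)⟩⟩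
  haveI : IsMulCommutative N := ⟨⟨fun a b => Subtype.ext (hQ a (hNQ a.2) b (hNQ b.2))⟩⟩
  exact exists_retract_aux (A := N) (B := Q) q
    (fun x => Subtype.ext (hexp _ (hNQ x.2)))
    (fun x => Subtype.ext (hexp _ x.2))
    (Subgroup.inclusion hNQ) (Subgroup.inclusion_injective hNQ)

/-- The `N`-component function of a transversal. -/
theorem exists_comp {G : Type} [Group G] (N Q : Subgroup G) (π : Q →* N) :
    ∃ F : G → N, ∀ (u : Q) (g : G), F (u * g) = π u * F g := by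
  have key : ∀ g : G, g * ((g⁻¹ : G) : G ⧸ Q).out ∈ Q := by
    intro g
    obtain ⟨h, hh⟩ := QuotientGroup.mk_out_eq_mul Q g⁻¹
    rw [hh]
    simp
  refine ⟨fun g => π ⟨g * ((g⁻¹ : G) : G ⧸ Q).out, key g⟩, ?_⟩
  intro u g
  show π _ = π u * π _
  rw [← map_mul]
  congr 1
  apply Subtype.ext
  show (u : G) * g * (((u * g)⁻¹ : G) : G ⧸ Q).out = u * (g * ((g⁻¹ : G) : G ⧸ Q).out)
  have : (((u * g)⁻¹ : G) : G ⧸ Q) = ((g⁻¹ : G) : G ⧸ Q) := by
    rw [QuotientGroup.eq]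
    simp
  rw [this, mul_assoc]

open Classical in
/-- Gaschütz's theorem for elementary abelian (Sylow) subgroups. -/
theorem taskG : TaskG := by
  intro G _ _ N Q q hq hN hNQ hQ hexp hcop
  haveI := hN
  haveI : IsMulCommutative N := ⟨⟨fun a b => Subtype.ext (hQ a (hNQ a.2) b (hNQ b.2))⟩⟩
  obtain ⟨π, hπ⟩ := exists_retract N Q q hq hNQ hQ hexp
  obtain ⟨F, hF⟩ := exists_comp N Q π
  have hconjQ : ∀ v ∈ Q, ∀ n : N, MulAut.conjNormal v n = n := by
    intro v hv n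
    apply Subtype.ext
    rw [MulAut.conjNormal_apply, hQ v hv n (hNQ n.2)]
    simp
  -- the cocycle pieces
  let δ : G → G → N := fun w g => MulAut.conjNormal w (F (w⁻¹ * g) * (F w⁻¹)⁻¹)
  have hδQ : ∀ (w g : G) (v : Q), δ (w * v) g = δ w g := by
    intro w g v
    show MulAut.conjNormal (w * (v : G)) (F ((w * v)⁻¹ * g) * (F (w * v)⁻¹)⁻¹) =
      MulAut.conjNormal w (F (w⁻¹ * g) * (F w⁻¹)⁻¹)
    have e1 : F ((w * (v : G))⁻¹ * g) = π v⁻¹ * F (w⁻¹ * g) := by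
      rw [← hF]; congr 1; simp [mul_assoc]
    have e2 : F ((w * (v : G))⁻¹) = π v⁻¹ * F (w⁻¹) := by
      rw [← hF]; congr 1; simp
    rw [e1, e2, map_mul (MulAut.conjNormal) w (v : G), MulAut.mul_apply, hconjQ v v.2]
    congr 1
    rw [mul_inv_rev, mul_comm (F w⁻¹)⁻¹ _, mul_comm (π v⁻¹), ← mul_assoc]
    simp
  have hδout : ∀ (w g : G), δ ((w : G ⧸ Q).out) g = δ w g := by
    intro w g
    obtain ⟨h, hh⟩ := QuotientGroup.mk_out_eq_mul Q w
    rw [hh, hδQ]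
  have hδN : ∀ (w : G) (n : N), δ w n = n := by
    intro w n
    have e : F (w⁻¹ * n) = MulAut.conjNormal w⁻¹ n * F w⁻¹ := by
      have h1 := hF ⟨MulAut.conjNormal w⁻¹ n, hNQ (MulAut.conjNormal w⁻¹ n).2⟩ w⁻¹
      rw [hπ] at h1
      rw [← h1]
      congr 1
      simp [mul_assoc]
    show MulAut.conjNormal w (F (w⁻¹ * n) * (F w⁻¹)⁻¹) = n
    rw [e, mul_inv_cancel_right, ← MulAut.mul_apply, ← map_mul]
    simp
  have hδmul : ∀ (w g₁ g₂ : G), δ w (g₁ * g₂) =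
      δ w g₁ * MulAut.conjNormal g₁ (δ (g₁⁻¹ * w) g₂) := by
    intro w g₁ g₂
    show MulAut.conjNormal w (F (w⁻¹ * (g₁ * g₂)) * (F w⁻¹)⁻¹) =
      MulAut.conjNormal w (F (w⁻¹ * g₁) * (F w⁻¹)⁻¹) * MulAut.conjNormal g₁
        (MulAut.conjNormal (g₁⁻¹ * w) (F ((g₁⁻¹ * w)⁻¹ * g₂) * (F (g₁⁻¹ * w)⁻¹)⁻¹))
    rw [← MulAut.mul_apply, ← map_mul, mul_inv_cancel_left, ← map_mul]
    congr 1
    have e1 : (g₁⁻¹ * w)⁻¹ * g₂ = w⁻¹ * (g₁ * g₂) := by group
    have e2 : (g₁⁻¹ * w)⁻¹ = w⁻¹ * g₁ := by group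
    rw [e1, e2, mul_comm (F (w⁻¹ * g₁) * (F w⁻¹)⁻¹)]
    group
  haveI : Fintype (G ⧸ Q) := Fintype.ofFinite _
  let Δ : G → N := fun g => ∏ c : G ⧸ Q, δ c.out g
  have hΔmul : ∀ g₁ g₂ : G, Δ (g₁ * g₂) = Δ g₁ * MulAut.conjNormal g₁ (Δ g₂) := by
    intro g₁ g₂
    show ∏ c : G ⧸ Q, δ c.out (g₁ * g₂) = (∏ c : G ⧸ Q, δ c.out g₁) *
      MulAut.conjNormal g₁ (∏ c : G ⧸ Q, δ c.out g₂)
    rw [map_prod, ← Equiv.prod_comp (MulAction.toPerm (g₁⁻¹ : G) : Equiv.Perm (G ⧸ Q))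
      (fun c => MulAut.conjNormal g₁ (δ c.out g₂)), ← Finset.prod_mul_distrib]
    apply Finset.prod_congr rfl
    intro c _
    rw [hδmul]
    congr 2
    show δ (g₁⁻¹ * c.out) g₂ = δ ((g₁⁻¹ • c).out) g₂
    rw [← hδout]
    congr 2
    conv_rhs => rw [← QuotientGroup.out_eq' c]
    rfl
  have hΔN : ∀ n : N, Δ n = n ^ Q.index := by
    intro n
    show ∏ c : G ⧸ Q, δ c.out n = n ^ Q.index
    rw [Finset.prod_congr rfl (fun c _ => hδN c.out n), Finset.prod_const, Finset.card_univ,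
      Subgroup.index, Nat.card_eq_fintype_card]
  -- normalise
  obtain ⟨k, -, hk⟩ := Nat.exists_mul_mod_eq_one_of_coprime hcop.symm hq.one_lt
  let D : G → N := fun g => Δ g ^ k
  have hDmul : ∀ g₁ g₂ : G, D (g₁ * g₂) = D g₁ * MulAut.conjNormal g₁ (D g₂) := by
    intro g₁ g₂
    show Δ (g₁ * g₂) ^ k = Δ g₁ ^ k * MulAut.conjNormal g₁ (Δ g₂ ^ k)
    rw [hΔmul, mul_pow, map_pow]
  have hDN : ∀ n : N, D n = n := by
    intro n
    show Δ n ^ k = n
    have hn : n ^ q = 1 := Subtype.ext (hexp _ (hNQ n.2))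
    rw [hΔN, ← pow_mul, ← Nat.div_add_mod (Q.index * k) q, hk, pow_add, pow_mul, hn, one_pow,
      one_mul, pow_one]
  have hD1 : D 1 = 1 := by
    have := hDN 1
    simpa using this
  let K : Subgroup G :=
    { carrier := {g | D g = 1}
      one_mem' := hD1
      mul_mem' := by
        intro a b ha hb
        show D (a * b) = 1
        rw [hDmul, show D a = 1 from ha, show D b = 1 from hb, map_one, one_mul]
      inv_mem' := by
        intro a ha
        have h1 : D (a * a⁻¹) = 1 := by rw [mul_inv_cancel, hD1]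
        rw [hDmul, show D a = 1 from ha, one_mul] at h1
        exact (MulEquiv.map_eq_one_iff _).1 h1 }
  refine ⟨K, Subgroup.isComplement'_of_disjoint_and_mul_eq_univ ?_ ?_⟩
  · rw [Subgroup.disjoint_def]
    intro x hx hxK
    have h1 := hDN ⟨x, hx⟩
    have h2 : D x = 1 := hxK
    have h3 : (⟨x, hx⟩ : N) = 1 := by rw [← h1]; exact h2
    exact congrArg Subtype.val h3
  · rw [Set.eq_univ_iff_forall]
    intro g
    refine Set.mem_mul.2 ⟨(D g : G), (D g).2, (D g : G)⁻¹ * g, ?_, by simp⟩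
    show D ((D g : G)⁻¹ * g) = 1
    rw [hDmul, hconjQ _ (hNQ (N.inv_mem (D g).2))]
    have := hDN (D g)⁻¹
    have e : (((D g)⁻¹ : N) : G) = (D g : G)⁻¹ := rfl
    rw [e] at this
    rw [this, inv_mul_cancel]

end Pool.Agent.H948R3.PV
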