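import Pool.Agent.H301X.BG.Stmts

set_option autoImplicit false

open MeasureTheory Topology Filter Set Metric
open scoped ENNReal NNReal ContDiff

namespace Pool.Agent.H948R3.BG

open Pool.Agent.H301X.BG

theorem taskNeg : TaskNeg := by
  intro hAvg hInj n Ω Ω₂ U r p v ν a b κ hκ hv ht hΩ hU hpU hΩU hΩ₂ hsub
  obtain ⟨ε₁, hε₁, hdisc⟩ := ht.disc (-κ / 2) (by linarith)
  obtain ⟨ε₂, hε₂, hcont, T', hT'⟩ := hInj n p v ν a b ht.a_smooth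
  obtain ⟨K, t, htn, hK⟩ := ht.a_smooth.exists_lipschitzOnWith
  obtain ⟨ε₄, hε₄, hbt⟩ := Metric.mem_nhds_iff.1 htn
  have hcU : ∀ᶠ x : ℂ × (Fin n → ℂ) in 𝓝 (0, p), D v ν a b x.1 x.2 ∈ U := by
    have hc : ContinuousAt (fun x : ℂ × (Fin n → ℂ) => D v ν a b x.1 x.2) (0, p) :=
      hcont.continuousAt (prod_mem_nhds (ball_mem_nhds _ hε₂) (ball_mem_nhds _ hε₂))
    have h0 : D v ν a b 0 p = p := by simp [D]
    exact hc.eventually_mem (by simpa [h0] using hU.mem_nhds hpU)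
  obtain ⟨ε₃, hε₃, hb3⟩ := Metric.eventually_nhds_iff.1 hcU
  obtain ⟨ε₅, hε₅, hb5⟩ := Metric.isOpen_iff.1 hU p hpU
  have hvn : 0 < ‖v‖ := norm_pos_iff.2 hv
  obtain ⟨R, hR, hR1, hR2, hR3, hR4⟩ : ∃ R : ℝ, 0 < R ∧ R ≤ ε₁ ∧ R ≤ ε₂ ∧ R ≤ ε₃ ∧
      R * (4 * ‖b‖ * ‖ν‖ + 1) ≤ ‖v‖ := by
    have hpos : 0 < 4 * ‖b‖ * ‖ν‖ + 1 := by positivity
    refine ⟨min (min ε₁ ε₂) (min ε₃ (‖v‖ / (4 * ‖b‖ * ‖ν‖ + 1))), ?_, ?_, ?_, ?_, ?_⟩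
    · have : 0 < ‖v‖ / (4 * ‖b‖ * ‖ν‖ + 1) := div_pos hvn hpos
      exact lt_min (lt_min hε₁ hε₂) (lt_min hε₃ this)
    · exact (min_le_left _ _).trans (min_le_left _ _)
    · exact (min_le_left _ _).trans (min_le_right _ _)
    · exact (min_le_right _ _).trans (min_le_left _ _)
    · rw [← le_div_iff₀ hpos]
      exact (min_le_right _ _).trans (min_le_right _ _)
  -- closeness of the parameters
  have hclose : ∀ ε : ℝ, 0 < ε → ε ≤ ε₄ → ∀ q₁ ∈ ball p ε, ∀ q₂ ∈ ball p ε,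
      ∀ ζ₁ ∈ ball (0 : ℂ) R, ∀ ζ₂ ∈ ball (0 : ℂ) R, D v ν a b ζ₁ q₁ = D v ν a b ζ₂ q₂ →
      ‖ζ₁ - ζ₂‖ ≤ (4 + 4 * R * K * ‖ν‖) / ‖v‖ * ε := by
    intro ε hε hε4 q₁ hq₁ q₂ hq₂ ζ₁ hζ₁ ζ₂ hζ₂ heq
    have ha : ∀ q ∈ ball p ε, ‖a q‖ ≤ K * ε := by
      intro q hq
      have h1 := hK.norm_sub_le (hbt (ball_subset_ball hε4 hq)) (hbt (mem_ball_self hε₄))
      rw [ht.a_zero, sub_zero] at h1
      refine h1.trans (mul_le_mul_of_nonneg_left ?_ K.coe_nonneg)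
      exact (mem_ball_iff_norm.1 hq).le
    rw [mem_ball_zero_iff] at hζ₁ hζ₂
    have e1 : (ζ₁ - ζ₂) • v = (q₂ - q₁) + (ζ₂ * a q₂ - ζ₁ * a q₁) • ν +
        (b * (ζ₂ - ζ₁) * (ζ₁ + ζ₂)) • ν := by
      have h2 : D v ν a b ζ₁ q₁ - D v ν a b ζ₂ q₂ = 0 := sub_eq_zero.2 heq
      unfold D at h2
      have h3 : (ζ₁ - ζ₂) • v - ((q₂ - q₁) + (ζ₂ * a q₂ - ζ₁ * a q₁) • ν +
        (b * (ζ₂ - ζ₁) * (ζ₁ + ζ₂)) • ν) = 0 := by
        rw [← h2]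
        module
      exact sub_eq_zero.1 h3
    have e2 : ‖ζ₁ - ζ₂‖ * ‖v‖ ≤ ‖q₂ - q₁‖ + ‖ζ₂ * a q₂ - ζ₁ * a q₁‖ * ‖ν‖ +
        ‖b * (ζ₂ - ζ₁) * (ζ₁ + ζ₂)‖ * ‖ν‖ := by
      rw [← norm_smul, e1, ← norm_smul, ← norm_smul]
      exact (norm_add_le _ _).trans (add_le_add_left (norm_add_le _ _) _)
    have e3 : ‖q₂ - q₁‖ ≤ 2 * ε := by
      have h1 := mem_ball_iff_norm.1 hq₁
      have h2 := mem_ball_iff_norm.1 hq₂
      have : q₂ - q₁ = (q₂ - p) - (q₁ - p) := by abel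
      rw [this]
      exact (norm_sub_le _ _).trans (by linarith)
    have e4 : ‖ζ₂ * a q₂ - ζ₁ * a q₁‖ ≤ 2 * (R * (K * ε)) := by
      refine (norm_sub_le _ _).trans ?_
      rw [norm_mul, norm_mul]
      have f1 := mul_le_mul hζ₂.le (ha q₂ hq₂) (norm_nonneg _) hR.le
      have f2 := mul_le_mul hζ₁.le (ha q₁ hq₁) (norm_nonneg _) hR.le
      linarith
    have e5 : ‖b * (ζ₂ - ζ₁) * (ζ₁ + ζ₂)‖ ≤ ‖b‖ * ‖ζ₁ - ζ₂‖ * (2 * R) := by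
      rw [norm_mul, norm_mul, norm_sub_rev ζ₂ ζ₁]
      apply mul_le_mul_of_nonneg_left _ (by positivity)
      exact (norm_add_le _ _).trans (by linarith)
    have e6 : ‖ζ₁ - ζ₂‖ * (R * (4 * ‖b‖ * ‖ν‖ + 1)) ≤ ‖ζ₁ - ζ₂‖ * ‖v‖ :=
      mul_le_mul_of_nonneg_left hR4 (norm_nonneg _)
    have e7 := mul_le_mul_of_nonneg_right e4 (norm_nonneg ν)
    have e8 := mul_le_mul_of_nonneg_right e5 (norm_nonneg ν)
    have e9 : 0 ≤ ‖ζ₁ - ζ₂‖ * R := by positivity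
    rw [div_mul_eq_mul_div, le_div_iff₀ hvn]
    nlinarith
  -- choose the radius
  intro η hη
  set C : ℝ := (4 + 4 * R * K * ‖ν‖) / ‖v‖ with hC
  have hCpos : 0 < C := by positivity
  obtain ⟨ε, hε, hεa, hεb, hεc, hεd, hεe, hεf, hεg⟩ : ∃ ε : ℝ, 0 < ε ∧ ε ≤ ε₁ ∧ ε ≤ ε₂ ∧
      ε ≤ ε₃ ∧ ε ≤ ε₄ ∧ ε ≤ ε₅ ∧ ε ≤ 1 ∧ ε ≤ η * R ^ 2 / (2 * C ^ 2) := by
    have h1 : 0 < η * R ^ 2 / (2 * C ^ 2) := by positivity
    refine ⟨min (min (min ε₁ ε₂) (min ε₃ ε₄)) (min ε₅ (min 1 (η * R ^ 2 / (2 * C ^ 2)))), ?_,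
      ?_, ?_, ?_, ?_, ?_, ?_, ?_⟩
    · exact lt_min (lt_min (lt_min hε₁ hε₂) (lt_min hε₃ hε₄)) (lt_min hε₅ (lt_min one_pos h1))
    all_goals simp
  refine ⟨ε, hε, ?_⟩
  intro f hf
  have hmem : ∀ q ∈ Ω₂ ∩ ball p ε, ∀ ζ ∈ ball (0 : ℂ) R, D v ν a b ζ q ∈ Ω := by
    intro q hq ζ hζ
    have hqU : q ∈ U := hb5 (ball_subset_ball hεe hq.2)
    have hrq : r q < 0 := by
      have : q ∈ Ω ∩ U := ⟨hsub hq.1, hqU⟩
      rw [hΩU] at this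
      exact this.2
    have hd := hdisc q (ball_subset_ball hεa hq.2) ζ (ball_subset_ball hR1 hζ)
    have hd' := (abs_le.1 hd).2
    have hU' : D v ν a b ζ q ∈ U := by
      apply hb3 (y := (ζ, q))
      rw [Prod.dist_eq, max_lt_iff]
      exact ⟨lt_of_lt_of_le hζ hR3, lt_of_lt_of_le hq.2 hεc⟩
    have : D v ν a b ζ q ∈ Ω ∩ U := by
      rw [hΩU]
      refine ⟨hU', ?_⟩
      have : 0 ≤ ‖ζ‖ ^ 2 := by positivity
      nlinarith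
    exact this.1
  have hmain := hAvg n (Ω₂ ∩ ball p ε) Ω Ω (D v ν a b) R
    (ENNReal.ofReal (C * ε) ^ 2 * NNReal.pi) f T' hΩ subset_rfl hf
    (hΩ₂.inter isOpen_ball).measurableSet hΩ.measurableSet hR
    (fun q _ => by simp [D])
    (fun q _ => by unfold D; fun_prop)
    hmem
    (fun ζ hζ => (hT' ζ (ball_subset_ball hR2 hζ)).1.mono
      (inter_subset_right.trans (ball_subset_ball hεb)))
    (fun ζ hζ q hq => by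
      have := (hT' ζ (ball_subset_ball hR2 hζ)).2 q (ball_subset_ball hεb hq.2)
      exact ⟨this.1.hasFDerivWithinAt, this.2⟩)
    (hcont.mono (prod_mono (ball_subset_ball hR2)
      (inter_subset_right.trans (ball_subset_ball hεb))))
    (fun z _ => by
      rcases ({ζ : ℂ | ζ ∈ ball (0 : ℂ) R ∧ ∃ q ∈ Ω₂ ∩ ball p ε, D v ν a b ζ q = z}).eq_empty_or_nonempty
        with he | ⟨ζ₀, hζ₀, q₀, hq₀, hz₀⟩
      · rw [he, measure_empty]; exact zero_le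
      · rw [← Complex.volume_closedBall ζ₀]
        apply measure_mono
        rintro ζ ⟨hζ, q, hq, hz⟩
        rw [mem_closedBall_iff_norm]
        exact hclose ε hε hεd q hq.2 q₀ hq₀.2 ζ hζ ζ₀ hζ₀ (hz.trans hz₀.symm))
  refine hmain.trans ?_
  gcongr
  have hpi : ((NNReal.pi : ℝ≥0) : ℝ≥0∞) = ENNReal.ofReal Real.pi := by
    rw [← NNReal.coe_real_pi, ENNReal.ofReal_coe_nnreal]
  rw [hpi, ← ENNReal.ofReal_pow (by positivity), ← ENNReal.ofReal_mul (by positivity),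
    ← ENNReal.ofReal_mul (by positivity)]
  apply ENNReal.ofReal_le_ofReal
  have hεε : ε ^ 2 ≤ ε := by nlinarith
  rw [le_div_iff₀ (by positivity)] at hεg
  have : 2 / (Real.pi * R ^ 2) * ((C * ε) ^ 2 * Real.pi) = 2 * C ^ 2 * ε ^ 2 / R ^ 2 := by
    field_simp
  rw [this, div_le_iff₀ (by positivity)]
  nlinarith [sq_nonneg C]

end Pool.Agent.H948R3.BG
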