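import Pool.Agent.H418R3.FB.Stmts

set_option autoImplicit false
open Set Topology Filter

namespace Pool.Agent.H948R3.FB

open Pool.Agent.H418R3.FB

/-- the bump of index `m` in the interval `[k, k+1]`, centred at `k + 1/(m+2)` -/
noncomputable def bump (k m : ℕ) (t : ℝ) : ℝ :=
  2 * (m + 2) * max 0 ((t - k) / 2 - |1 - (m + 2) * (t - k)|)

theorem bump_cont (k m : ℕ) : Continuous (bump k m) := by
  unfold bump; fun_prop

theorem bump_pos_iff {k m : ℕ} {t : ℝ} (h : bump k m t ≠ 0) :
    |1 - (m + 2) * (t - k)| < (t - k) / 2 := by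
  by_contra hc
  apply h
  unfold bump
  rw [max_eq_left (by linarith), mul_zero]

theorem bump_range {k m : ℕ} {t : ℝ} (h : bump k m t ≠ 0) : (k : ℝ) < t ∧ t < k + 1 := by
  have h1 := bump_pos_iff h
  have h0 : 0 < t - k := by
    have := abs_nonneg (1 - (m + 2) * (t - k)); linarith
  refine ⟨by linarith, ?_⟩
  have h2 := (abs_lt.1 h1).1
  have hm : (0 : ℝ) ≤ m := Nat.cast_nonneg m
  nlinarith [mul_nonneg hm h0.le]

theorem bump_unique {k m k' m' : ℕ} {t : ℝ} (h : bump k m t ≠ 0) (h' : bump k' m' t ≠ 0) :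
    k' = k ∧ m' = m := by
  obtain ⟨a1, a2⟩ := bump_range h
  obtain ⟨b1, b2⟩ := bump_range h'
  have hk : k' = k := by
    have e1 : (k : ℝ) < k' + 1 := by linarith
    have e2 : (k' : ℝ) < k + 1 := by linarith
    have e1' : k < k' + 1 := by exact_mod_cast e1
    have e2' : k' < k + 1 := by exact_mod_cast e2
    omega
  subst hk
  refine ⟨rfl, ?_⟩
  have h1 := abs_lt.1 (bump_pos_iff h)
  have h2 := abs_lt.1 (bump_pos_iff h')
  have hs : 0 < t - k' := by linarith
  have e1 : ((m : ℝ) - m') * (t - k') < 1 * (t - k') := by nlinarith [h1.1, h1.2, h2.1, h2.2]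
  have e2 : ((m' : ℝ) - m) * (t - k') < 1 * (t - k') := by nlinarith [h1.1, h1.2, h2.1, h2.2]
  have f1 := lt_of_mul_lt_mul_right e1 hs.le
  have f2 := lt_of_mul_lt_mul_right e2 hs.le
  have g1 : (m : ℝ) < m' + 1 := by linarith
  have g2 : (m' : ℝ) < m + 1 := by linarith
  have g1' : m < m' + 1 := by exact_mod_cast g1
  have g2' : m' < m + 1 := by exact_mod_cast g2
  omega

theorem bump_le (k m : ℕ) (t : ℝ) : |bump k m t| ≤ 1 := by
  have hm : (0 : ℝ) ≤ m := Nat.cast_nonneg m
  have h0 : 0 ≤ bump k m t := by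
    unfold bump; positivity
  rw [abs_of_nonneg h0]
  unfold bump
  have key : (t - k) / 2 - |1 - (m + 2) * (t - k)| ≤ 1 / (2 * (m + 2)) := by
    rw [le_div_iff₀ (by positivity)]
    rcases le_total ((m + 2) * (t - k)) 1 with h | h
    · have h1 := le_abs_self (1 - (m + 2) * (t - k))
      nlinarith
    · have h1 := neg_le_abs (1 - (m + 2) * (t - k))
      have h2 : 0 ≤ (m + 2) * (t - k) - 1 := by linarith
      have h3 : 0 ≤ (m + 1 : ℝ) * ((m + 2) * (t - k) - 1) := by positivity
      nlinarith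
  calc 2 * ((m : ℝ) + 2) * max 0 ((t - k) / 2 - |1 - (m + 2) * (t - k)|)
      ≤ 2 * (m + 2) * (1 / (2 * (m + 2))) := by
        apply mul_le_mul_of_nonneg_left _ (by positivity)
        exact max_le (by positivity) key
    _ = 1 := by field_simp

/-- the points -/
noncomputable def pt (k m : ℕ) : ℝ := k + 1 / (m + 2)

theorem bump_pt (k m : ℕ) : bump k m (pt k m) = 1 := by
  unfold bump pt
  have hm : (0 : ℝ) ≤ m := Nat.cast_nonneg m
  have e : (k : ℝ) + 1 / (m + 2) - k = 1 / (m + 2) := by ring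
  rw [e]
  have e2 : 1 - ((m : ℝ) + 2) * (1 / (m + 2)) = 0 := by field_simp; ring
  rw [e2, abs_zero, sub_zero, max_eq_right (by positivity)]
  field_simp

theorem locFin (m : ℕ) (W : ℕ → ℝ) :
    LocallyFinite fun k : ℕ => Function.support fun t => W k * bump k m t := by
  intro x
  refine ⟨Metric.ball x 1, Metric.ball_mem_nhds x one_pos, ?_⟩
  apply (Set.finite_Iic ⌈|x| + 1⌉₊).subset
  rintro k ⟨t, ht, htb⟩
  have hb : bump k m t ≠ 0 := right_ne_zero_of_mul ht
  have h1 := (bump_range hb).1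
  rw [Metric.mem_ball, Real.dist_eq] at htb
  have h2 := (abs_lt.1 htb).2
  have h3 := le_abs_self x
  have h4 : (k : ℝ) ≤ |x| + 1 := by linarith
  exact_mod_cast h4.trans (Nat.le_ceil _)

/-- the functions -/
noncomputable def FF (m : ℕ) (W : ℕ → ℝ) : CR :=
  ⟨fun t => ∑ᶠ k : ℕ, W k * bump k m t,
    continuous_finsum (fun k => continuous_const.mul (bump_cont k m)) (locFin m W)⟩

theorem FF_apply (m : ℕ) (W : ℕ → ℝ) (t : ℝ) : FF m W t = ∑ᶠ k : ℕ, W k * bump k m t := rfl

theorem FF_eval {k m : ℕ} {t : ℝ} (h : bump k m t ≠ 0) (m' : ℕ) (W : ℕ → ℝ) :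
    FF m' W t = bump k m t * (if m = m' then W k else 0) := by
  rw [FF_apply]
  split_ifs with hm
  · subst hm
    rw [finsum_eq_single _ k, mul_comm]
    intro k' hk'
    have : bump k' m t = 0 := by
      by_contra hc
      exact hk' (bump_unique h hc).1
    rw [this, mul_zero]
  · rw [mul_zero]
    apply finsum_eq_zero_of_forall_eq_zero
    intro k'
    have : bump k' m' t = 0 := by
      by_contra hc
      exact hm (bump_unique h hc).2.symm
    rw [this, mul_zero]

theorem taskEmb : TaskEmb := by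
  refine ⟨pt, FF, ?_, ?_, ?_⟩
  · intro k m
    unfold pt
    have hm : (0 : ℝ) ≤ m := Nat.cast_nonneg m
    refine ⟨by positivity, ?_⟩
    have : 1 / ((m : ℝ) + 2) ≤ 1 := by
      rw [div_le_one (by positivity)]; linarith
    linarith
  · intro m W _ k m'
    have h : bump k m' (pt k m') ≠ 0 := by rw [bump_pt]; exact one_ne_zero
    rw [FF_eval h, bump_pt, one_mul]
  · intro t
    by_cases hex : ∃ k m, bump k m t ≠ 0
    · obtain ⟨k, m, h⟩ := hex
      refine ⟨k, m, bump k m t, bump_le k m t, (bump_range h).1.le.trans (le_abs_self t), ?_⟩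
      intro m' W _
      have h' : bump k m (pt k m) ≠ 0 := by rw [bump_pt]; exact one_ne_zero
      rw [FF_eval h, FF_eval h', bump_pt, one_mul]
    · push Not at hex
      refine ⟨0, 0, 0, by simp, by simp, ?_⟩
      intro m' W _
      rw [zero_mul, FF_apply]
      apply finsum_eq_zero_of_forall_eq_zero
      intro k
      rw [hex, mul_zero]

end Pool.Agent.H948R3.FB
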