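import Pool.Agent.H958R6.Stmts

set_option autoImplicit false

namespace Pool.Agent.H948R3.KN

open Polynomial Finset H958R6

theorem sum_pairs {M : Type*} [AddCommMonoid M] (f : ℕ → M) (n : ℕ) :
    ∑ k ∈ range (2 * n), f k = ∑ j ∈ range n, (f (2 * j) + f (2 * j + 1)) := by
  induction n with
  | zero => simp
  | succ n ih =>
    rw [show 2 * (n + 1) = 2 * n + 1 + 1 by ring, sum_range_succ, sum_range_succ, ih,
      sum_range_succ, add_assoc]

theorem taskGo : TaskGo := by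
  intro m
  have hX : (X : ℚ[X]) ^ m = C ((1 / 4 : ℚ) ^ m) *
      ((1 + X : ℚ[X]) ^ 2 + (-((1 - X) ^ 2))) ^ m := by
    have h4 : ((1 + X : ℚ[X]) ^ 2 + (-((1 - X) ^ 2))) = C 4 * X := by
      have : (C 4 : ℚ[X]) = 4 := rfl
      rw [this]; ring
    rw [h4, C_pow, mul_pow, ← mul_assoc, ← mul_pow, ← C_mul]
    norm_num
  rw [hX, show 2 * m + 1 + 1 = 2 * (m + 1) by ring, sum_pairs, add_pow, mul_sum]
  apply sum_congr rfl
  intro j hj
  have hjm : j ≤ m := Nat.lt_succ_iff.1 (mem_range.1 hj)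
  obtain ⟨r, rfl⟩ := Nat.exists_eq_add_of_le hjm
  have e1 : go (j + r) (2 * j) = (-1) ^ r * ((j + r).choose j : ℚ) / (2 * 4 ^ (j + r)) := by
    unfold go
    have h1 : (2 * j) / 2 = j := by omega
    have h2 : ((-1 : ℚ)) ^ (j + r + j) = (-1) ^ r := by
      rw [show j + r + j = 2 * j + r by ring, pow_add, pow_mul]; simp
    rw [h1, h2]
  have e2 : go (j + r) (2 * j + 1) = (-1) ^ r * ((j + r).choose j : ℚ) / (2 * 4 ^ (j + r)) := by
    unfold go
    have h1 : (2 * j + 1) / 2 = j := by omega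
    have h2 : ((-1 : ℚ)) ^ (j + r + j) = (-1) ^ r := by
      rw [show j + r + j = 2 * j + r by ring, pow_add, pow_mul]; simp
    rw [h1, h2]
  rw [e1, e2]
  have h3 : 2 * (j + r) + 1 - 2 * j = 2 * r + 1 := by omega
  have h4 : 2 * (j + r) + 1 - (2 * j + 1) = 2 * r := by omega
  have h5 : j + r - j = r := by omega
  rw [h3, h4, h5]
  have h6 : (C ((-1) ^ r * ((j + r).choose j : ℚ) / (2 * 4 ^ (j + r))) : ℚ[X]) * 2 =
      C ((1 / 4 : ℚ) ^ (j + r)) * ((-1) ^ r * ((j + r).choose j : ℚ[X])) := by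
    have h2 : (2 : ℚ[X]) = C 2 := rfl
    have hm1 : ((-1 : ℚ[X])) ^ r = C ((-1) ^ r) := by simp
    have hc : ((j + r).choose j : ℚ[X]) = C (((j + r).choose j : ℕ) : ℚ) := by simp
    rw [h2, hm1, hc, ← C_mul, ← C_mul, ← C_mul]
    congr 1
    rw [one_div, inv_pow]
    field_simp
  have h7 : (-((1 - X : ℚ[X]) ^ 2)) ^ r = (-1) ^ r * (1 - X) ^ (2 * r) := by
    rw [neg_pow, ← pow_mul]
  have h8 : ((1 + X : ℚ[X]) ^ 2) ^ j = (1 + X) ^ (2 * j) := (pow_mul _ _ _).symm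
  rw [h7, h8]
  calc _ = (C ((-1) ^ r * ((j + r).choose j : ℚ) / (2 * 4 ^ (j + r))) : ℚ[X]) * 2 *
      ((1 + X) ^ (2 * j) * (1 - X) ^ (2 * r)) := by ring
    _ = _ := by rw [h6, mul_assoc, mul_assoc]; congr 1; ring

end Pool.Agent.H948R3.KN
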