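import Pool.Agent.H972ST.Stmts

set_option autoImplicit false

namespace Pool.Agent.H948R3.ST

open Pool.Agent.H972ST

theorem mx (a b : ℝ) : ∃ m, a ≤ m ∧ b ≤ m ∧ (m = a ∨ m = b) := by
  rcases le_total a b with h | h
  · exact ⟨b, h, le_rfl, Or.inr rfl⟩
  · exact ⟨a, le_rfl, h, Or.inl rfl⟩

theorem mx3 (a b c : ℝ) : ∃ m, a ≤ m ∧ b ≤ m ∧ c ≤ m ∧ (m = a ∨ m = b ∨ m = c) := by
  obtain ⟨m, h1, h2, h3⟩ := mx a b
  obtain ⟨m', h4, h5, h6⟩ := mx m c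
  refine ⟨m', h1.trans h4, h2.trans h4, h5, ?_⟩
  rcases h6 with rfl | rfl
  · tauto
  · tauto

/-- a fractional vertex cover of the triangle with lower bounds -/
theorem tri3 (T c1 c2 c3 w12 w13 w23 : ℝ) (hs : c1 + c2 + c3 ≤ T) (h3 : w12 + c3 ≤ T)
    (h2 : w13 + c2 ≤ T) (h1 : w23 + c1 ≤ T) (h : w12 + w13 + w23 ≤ 2 * T) :
    ∃ l1 l2 l3, c1 ≤ l1 ∧ c2 ≤ l2 ∧ c3 ≤ l3 ∧ l1 + l2 + l3 ≤ T ∧ w12 ≤ l1 + l2 ∧
      w13 ≤ l1 + l3 ∧ w23 ≤ l2 + l3 := by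
  obtain ⟨y, y1, y2, y3⟩ := mx c3 (w13 + w23 - T)
  obtain ⟨l1, a1, a2, a3⟩ := mx c1 (w13 - y)
  obtain ⟨l2, b1, b2, b3, b4⟩ := mx3 c2 (w23 - y) (w12 - l1)
  refine ⟨l1, l2, y, a1, b1, y1, ?_, by linarith, by linarith, by linarith⟩
  rcases y3 with y3 | y3 <;> rcases a3 with a3 | a3 <;> rcases b4 with b4 | b4 | b4 <;> linarith

theorem tCover : TCover := by
  intro N w12 w13 w14 w23 w24 w34 p12 p13 p14 p23 p24 p34 q1 q2 q3 t4 t3 t2 t1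
  obtain ⟨x1, x1a, x1b, x1c, hx1⟩ := mx3 (w14 + w24 - N) (w14 + w34 - N) (w24 + w34 - N)
  obtain ⟨x, xa, xb, xc, hx⟩ := mx3 0 ((w14 + w24 + w34 - N) / 2) x1
  obtain ⟨c1, c1a, c1b, hc1⟩ := mx 0 (w14 - x)
  obtain ⟨c2, c2a, c2b, hc2⟩ := mx 0 (w24 - x)
  obtain ⟨c3, c3a, c3b, hc3⟩ := mx 0 (w34 - x)
  have e0 : x ≤ N - w12 ∧ x ≤ N - w13 ∧ x ≤ N - w23 ∧ x ≤ N - (w12 + w13 + w23) / 2 ∧
      x ≤ N - w14 + x ∧ x ≤ N := by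
    rcases hx with hx | hx | hx
    · refine ⟨?_, ?_, ?_, ?_, ?_, ?_⟩ <;> linarith
    · refine ⟨?_, ?_, ?_, ?_, ?_, ?_⟩ <;> linarith
    · rcases hx1 with hx1 | hx1 | hx1 <;> refine ⟨?_, ?_, ?_, ?_, ?_, ?_⟩ <;> linarith
  obtain ⟨e1, e2, e3, e4, -, e5⟩ := e0
  have s : c1 + c2 + c3 ≤ N - x := by
    rcases hc1 with hc1 | hc1 <;> rcases hc2 with hc2 | hc2 <;> rcases hc3 with hc3 | hc3 <;>
      linarith
  have s3 : w12 + c3 ≤ N - x := by rcases hc3 with hc3 | hc3 <;> linarith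
  have s2 : w13 + c2 ≤ N - x := by rcases hc2 with hc2 | hc2 <;> linarith
  have s1 : w23 + c1 ≤ N - x := by rcases hc1 with hc1 | hc1 <;> linarith
  obtain ⟨l1, l2, l3, a1, a2, a3, a4, a5, a6, a7⟩ :=
    tri3 (N - x) c1 c2 c3 w12 w13 w23 s s3 s2 s1 (by linarith)
  exact ⟨l1, l2, l3, x, by linarith, by linarith, by linarith, xa, by linarith, a5, a6,
    by linarith, a7, by linarith, by linarith⟩

end Pool.Agent.H948R3.ST
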