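import Pool.Agent.H948R3.TPCore

set_option autoImplicit false

namespace Pool.Agent.H948R3.TP

open Sum

theorem tree_of_conn {V : Type} {r : ℕ} (G : SimpleGraph V) (c : Sym2 V → Fin r)
    (H : SimpleGraph V) (i : Fin r) (hH : ∀ u v, H.Adj u v → G.Adj u v ∧ c s(u, v) = i)
    (S : Set V) (hconn : (H.induce S).Connected) :
    ∃ T : G.Subgraph, T.verts = S ∧ IsMonoTree G c T := by
  obtain ⟨F, hF, hFt⟩ := hconn.exists_isTree_le
  let T : G.Subgraph :=
    { verts := S
      Adj := fun u v => ∃ (hu : u ∈ S) (hv : v ∈ S), F.Adj ⟨u, hu⟩ ⟨v, hv⟩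
      adj_sub := by
        rintro u v ⟨hu, hv, h⟩
        exact (hH u v (hF h)).1
      edge_vert := by
        rintro u v ⟨hu, hv, h⟩
        exact hu
      symm := ⟨by
        rintro u v ⟨hu, hv, h⟩
        exact ⟨hv, hu, h.symm⟩⟩ }
  refine ⟨T, rfl, ?_, i, ?_⟩
  · have hTF : T.coe = F := by
      ext ⟨u, hu⟩ ⟨v, hv⟩
      rw [SimpleGraph.Subgraph.coe_adj]
      constructor
      · rintro ⟨_, _, h⟩
        exact h
      · intro h
        exact ⟨hu, hv, h⟩
    rw [hTF]
    exact hFt
  · rintro u v ⟨hu, hv, h⟩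
    exact (hH u v (hF h)).2

section

variable {n m r : ℕ}

/-- the colouring of pairs coming from an edge colouring -/
def chi (c : Sym2 (Fin n ⊕ Fin m) → Fin r) : Fin n → Fin m → Fin r :=
  fun x y => c s(inl x, inr y)

theorem colG_sub (c : Sym2 (Fin n ⊕ Fin m) → Fin r) (i : Fin r) (u v : Fin n ⊕ Fin m)
    (h : (colG (chi c) i).Adj u v) :
    (completeBipartiteGraph (Fin n) (Fin m)).Adj u v ∧ c s(u, v) = i := by
  rcases h with ⟨x, y, rfl, rfl, h⟩ | ⟨x, y, rfl, rfl, h⟩
  · exact ⟨by simp, h⟩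
  · refine ⟨by simp, ?_⟩
    rw [Sym2.eq_swap]
    exact h

theorem trees_of_part (c : Sym2 (Fin n ⊕ Fin m) → Fin r) (k : ℕ) (h : Part (chi c) k) :
    ∃ j : ℕ, j ≤ k ∧ ∃ T : Fin j → (completeBipartiteGraph (Fin n) (Fin m)).Subgraph,
    (∀ a, IsMonoTree _ c (T a)) ∧ ∀ v, ∃! a, v ∈ (T a).verts := by
  classical
  obtain ⟨ι, hι, f, hk, hf⟩ := h
  let A := {a : ι // ∃ v, f v = a}
  have hA : Fintype.card A ≤ k := (Fintype.card_subtype_le _).trans hk
  let e : A ≃ Fin (Fintype.card A) := Fintype.equivFin A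
  have hT : ∀ a : A, ∃ T : (completeBipartiteGraph (Fin n) (Fin m)).Subgraph,
      T.verts = {v | f v = a.1} ∧ IsMonoTree _ c T := by
    intro a
    obtain ⟨i, hi⟩ := hf a.1 a.2
    exact tree_of_conn _ c (colG (chi c) i) i (colG_sub c i) _ hi
  choose T hT1 hT2 using hT
  refine ⟨Fintype.card A, hA, fun b => T (e.symm b), fun b => hT2 _, ?_⟩
  intro v
  refine ⟨e ⟨f v, v, rfl⟩, ?_, ?_⟩
  · show v ∈ (T (e.symm (e ⟨f v, v, rfl⟩))).verts
    rw [hT1, Equiv.symm_apply_apply]
    rfl
  · intro b hb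
    change v ∈ (T (e.symm b)).verts at hb
    rw [hT1] at hb
    change f v = (e.symm b).1 at hb
    have : e.symm b = ⟨f v, v, rfl⟩ := Subtype.ext hb.symm
    rw [← this, Equiv.apply_symm_apply]

theorem lower_core (c : Sym2 (Fin n ⊕ Fin m) → Fin r) (j : ℕ)
    (T : Fin j → (completeBipartiteGraph (Fin n) (Fin m)).Subgraph)
    (hT : ∀ a, IsMonoTree _ c (T a)) (hcov : ∀ v, ∃! a, v ∈ (T a).verts) :
    ∃ c' : Fin n → Fin r,
      (Finset.univ.filter (fun y => ∀ x, chi c x y ≠ c' x)).card +
        (Finset.univ.image c').card ≤ j := by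
  classical
  choose idx hidx huniq using hcov
  choose hTt col hcol using hT
  refine ⟨fun x => col (idx (inl x)), ?_⟩
  set Bad : Finset (Fin m) :=
    Finset.univ.filter (fun y => ∀ x, chi c x y ≠ col (idx (inl x))) with hBad
  have hsing : ∀ y ∈ Bad, ∀ v, v ∈ (T (idx (inr y))).verts → v = inr y := by
    intro y hy v hv
    by_contra hne
    rw [hBad, Finset.mem_filter] at hy
    have hconn := (hTt (idx (inr y))).connected
    obtain ⟨p⟩ := hconn.preconnected ⟨inr y, hidx (inr y)⟩ ⟨v, hv⟩
    cases p with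
    | nil => exact hne rfl
    | @cons _ w _ h q =>
      rw [SimpleGraph.Subgraph.coe_adj] at h
      obtain ⟨w, hw⟩ := w
      change (T (idx (inr y))).Adj (inr y) w at h
      have hadj := (T (idx (inr y))).adj_sub h
      rcases w with x | y'
      · have h1 := hcol _ _ _ h
        have h2 : idx (inr y) = idx (inl x) := (huniq (inl x) _ hw)
        apply hy.2 x
        show c s(inl x, inr y) = col (idx (inl x))
        rw [Sym2.eq_swap, h1, h2]
      · simp at hadj
  have hinj : Set.InjOn (fun y => idx (inr y)) (Bad : Set (Fin m)) := by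
    intro y hy y' hy' h
    have h1 : (inr y' : Fin n ⊕ Fin m) ∈ (T (idx (inr y))).verts := by
      have := hidx (inr y')
      simp only at h
      rw [h]
      exact this
    have := hsing y hy _ h1
    simpa using this.symm
  have hdisj : Disjoint (Bad.image (fun y => idx (inr y)))
      (Finset.univ.image (fun x : Fin n => idx (inl x))) := by
    rw [Finset.disjoint_left]
    intro a ha ha'
    rw [Finset.mem_image] at ha ha'
    obtain ⟨y, hy, rfl⟩ := ha
    obtain ⟨x, _, hx⟩ := ha'
    have h1 : (inl x : Fin n ⊕ Fin m) ∈ (T (idx (inr y))).verts := by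
      rw [← hx]
      exact hidx (inl x)
    have := hsing y hy _ h1
    cases this
  have h1 : (Bad.image (fun y => idx (inr y))).card = Bad.card := Finset.card_image_of_injOn hinj
  have h2 : (Finset.univ.image (fun x => col (idx (inl x)))).card ≤
      (Finset.univ.image (fun x : Fin n => idx (inl x))).card := by
    have : Finset.univ.image (fun x : Fin n => col (idx (inl x))) =
        (Finset.univ.image (fun x : Fin n => idx (inl x))).image col := by
      rw [Finset.image_image]
      rfl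
    rw [this]
    exact Finset.card_image_le
  calc _ ≤ (Bad.image (fun y => idx (inr y))).card +
        (Finset.univ.image (fun x : Fin n => idx (inl x))).card := by
        rw [h1]; exact Nat.add_le_add_left h2 _
    _ = (Bad.image (fun y => idx (inr y)) ∪
        (Finset.univ.image (fun x : Fin n => idx (inl x)))).card :=
        (Finset.card_union_of_disjoint hdisj).symm
    _ ≤ Fintype.card (Fin j) := Finset.card_le_univ _
    _ = j := Fintype.card_fin j

/-- every pattern comes from an edge colouring -/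
theorem exists_colouring (hr : 0 < r) (χ : Fin n → Fin m → Fin r) :
    ∃ c : Sym2 (Fin n ⊕ Fin m) → Fin r, chi c = χ := by
  let g : Fin n ⊕ Fin m → Fin n ⊕ Fin m → Fin r := fun u v => match u, v with
    | inl x, inr y => χ x y
    | inr y, inl x => χ x y
    | _, _ => ⟨0, hr⟩
  refine ⟨Sym2.lift ⟨g, ?_⟩, ?_⟩
  · rintro (u | u) (v | v) <;> rfl
  · funext x y
    simp [chi, g]

theorem tp_le {k : ℕ} (h : ∀ χ : Fin n → Fin m → Fin r, Part χ k) : tp r n m ≤ k := by
  apply Nat.sInf_le
  intro c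
  exact trees_of_part c k (h _)

theorem le_tp {k K : ℕ} (hr : 0 < r) (hK : ∀ χ : Fin n → Fin m → Fin r, Part χ K)
    (χ : Fin n → Fin m → Fin r)
    (h : ∀ c' : Fin n → Fin r, k ≤ (Finset.univ.filter (fun y => ∀ x, χ x y ≠ c' x)).card +
        (Finset.univ.image c').card) : k ≤ tp r n m := by
  refine le_csInf ⟨K, fun c => trees_of_part c K (hK _)⟩ ?_
  intro l hl
  obtain ⟨c, hc⟩ := exists_colouring hr χ
  obtain ⟨j, hj, T, hT, hcov⟩ := hl c
  obtain ⟨c', hc'⟩ := lower_core c j T hT hcov
  rw [hc] at hc'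
  exact (h c').trans (hc'.trans hj)

end

end Pool.Agent.H948R3.TP
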