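import Pool.Agent.H948R3.TPCodeDefs

set_option autoImplicit false

namespace Pool.Agent.H948R3.TP

open Finset Polynomial

section

variable {n k : ℕ}

theorem hasCode_equiv {A B : Type} (e : A ≃ B) (h : HasCode n k A) : HasCode n k B := by
  obtain ⟨C, hC⟩ := h
  refine ⟨{t | (fun x => e.symm (t x)) ∈ C}, ?_⟩
  intro T hT c
  obtain ⟨t, ⟨ht1, ht2⟩, ht3⟩ := hC T hT (fun x => e.symm (c x))
  refine ⟨fun x => e (t x), ⟨?_, ?_⟩, ?_⟩
  · show (fun x => e.symm (e (t x))) ∈ C
    simpa using ht1
  · intro x hx
    show e (t x) = c x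
    rw [ht2 x hx]
    simp
  · rintro z ⟨hz1, hz2⟩
    have := ht3 (fun x => e.symm (z x)) ⟨hz1, fun x hx => by
      show e.symm (z x) = e.symm (c x)
      rw [hz2 x hx]⟩
    funext x
    rw [← this]
    simp

theorem hasCode_prod {A B : Type} (hA : HasCode n k A) (hB : HasCode n k B) :
    HasCode n k (A × B) := by
  obtain ⟨C, hC⟩ := hA
  obtain ⟨D, hD⟩ := hB
  refine ⟨{t | (fun x => (t x).1) ∈ C ∧ (fun x => (t x).2) ∈ D}, ?_⟩
  intro T hT c
  obtain ⟨t, ⟨ht1, ht2⟩, ht3⟩ := hC T hT (fun x => (c x).1)
  obtain ⟨u, ⟨hu1, hu2⟩, hu3⟩ := hD T hT (fun x => (c x).2)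
  refine ⟨fun x => (t x, u x), ⟨⟨ht1, hu1⟩, ?_⟩, ?_⟩
  · intro x hx
    exact Prod.ext (ht2 x hx) (hu2 x hx)
  · rintro z ⟨⟨hz1, hz2⟩, hz3⟩
    have h1 := ht3 (fun x => (z x).1) ⟨hz1, fun x hx => congrArg Prod.fst (hz3 x hx)⟩
    have h2 := hu3 (fun x => (z x).2) ⟨hz2, fun x hx => congrArg Prod.snd (hz3 x hx)⟩
    funext x
    exact Prod.ext (congrFun h1 x) (congrFun h2 x)

theorem hasCode_unique {A : Type} [Unique A] : HasCode n k A :=
  ⟨Set.univ, fun _ _ c => ⟨c, ⟨trivial, fun _ _ => rfl⟩, fun _ _ => Subsingleton.elim _ _⟩⟩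

/-- evaluation, at infinity the top coefficient -/
noncomputable def evl (F : Type) [Field F] (k : ℕ) : Option F → F[X] →ₗ[F] F
  | some a => Polynomial.leval a
  | none => Polynomial.lcoeff F (k - 1)

theorem hasCode_field (F : Type) [Field F] [Fintype F] (hn : n ≤ Fintype.card F + 1) :
    HasCode n k F := by
  classical
  obtain ⟨α⟩ : Nonempty (Fin n ↪ Option F) := by
    apply Function.Embedding.nonempty_of_card_le
    rw [Fintype.card_fin, Fintype.card_option]
    exact hn
  refine ⟨{t | ∃ p ∈ degreeLT F k, ∀ x, t x = evl F k (α x) p}, ?_⟩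
  intro T hT c
  let φ : degreeLT F k →ₗ[F] (T → F) :=
    LinearMap.pi (fun x : T => (evl F k (α x)).comp (degreeLT F k).subtype)
  have hinj : Function.Injective φ := by
    rw [injective_iff_map_eq_zero]
    rintro ⟨p, hp⟩ h
    have hx : ∀ x ∈ T, evl F k (α x) p = 0 := fun x hx => congrFun h ⟨x, hx⟩
    rw [Submodule.mk_eq_zero]
    rw [mem_degreeLT] at hp
    set R := (T.map α).eraseNone with hR
    have hTc : (T.map α).card = k := by rw [card_map, hT]
    have hroot : ∀ a ∈ R, p.eval a = 0 := by
      intro a ha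
      rw [hR, mem_eraseNone, mem_map] at ha
      obtain ⟨x, hxT, hxa⟩ := ha
      have := hx x hxT
      rw [hxa] at this
      exact this
    by_cases hnone : none ∈ T.map α
    · have hRc : R.card = k - 1 := by
        rw [hR, card_eraseNone_of_mem hnone, hTc]
      have hk : 1 ≤ k := by
        rw [← hTc]
        exact card_pos.2 ⟨_, hnone⟩
      have hcoeff : p.coeff (k - 1) = 0 := by
        rw [mem_map] at hnone
        obtain ⟨x, hxT, hxa⟩ := hnone
        have := hx x hxT
        rw [hxa] at this
        exact this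
      apply Polynomial.eq_zero_of_degree_lt_of_eval_finset_eq_zero R _ hroot
      rw [hRc, degree_lt_iff_coeff_zero]
      intro j hj
      rw [degree_lt_iff_coeff_zero] at hp
      by_cases hj2 : j = k - 1
      · rw [hj2]; exact hcoeff
      · exact hp j (by omega)
    · have hRc : R.card = k := by
        rw [hR, card_eraseNone_of_not_mem hnone, hTc]
      apply Polynomial.eq_zero_of_degree_lt_of_eval_finset_eq_zero R _ hroot
      rw [hRc]
      exact hp
  have : FiniteDimensional F (degreeLT F k) :=
    LinearEquiv.finiteDimensional (degreeLTEquiv F k).symm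
  have hdim : Module.finrank F (degreeLT F k) = Module.finrank F (T → F) := by
    rw [(degreeLTEquiv F k).finrank_eq, Module.finrank_fin_fun, Module.finrank_fintype_fun_eq_card,
      Fintype.card_coe, hT]
  have hsurj : Function.Surjective φ :=
    (LinearMap.injective_iff_surjective_of_finrank_eq_finrank hdim).1 hinj
  obtain ⟨⟨p, hp⟩, hpc⟩ := hsurj (fun x => c x)
  refine ⟨fun x => evl F k (α x) p, ⟨⟨p, hp, fun x => rfl⟩, ?_⟩, ?_⟩
  · intro x hx
    exact congrFun hpc ⟨x, hx⟩
  · rintro z ⟨⟨q, hq, hz⟩, hz2⟩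
    have h1 : φ ⟨q, hq⟩ = φ ⟨p, hp⟩ := by
      rw [hpc]
      funext x
      show evl F k (α x) q = c x
      rw [← hz, hz2 x x.2]
    have h2 := congrArg Subtype.val (hinj h1)
    simp only at h2
    funext x
    rw [hz, h2]

theorem hasCode_fin (r : ℕ) : 0 < r → (∀ p ∈ r.primeFactors, n ≤ p ^ r.factorization p + 1) →
    HasCode n k (Fin r) := by
  induction r using Nat.recOnPosPrimePosCoprime with
  | zero => intro h; exact absurd h (lt_irrefl _)
  | one => intro _ _; exact hasCode_unique
  | prime_pow p e hp he =>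
    intro _ h
    have : Fact p.Prime := ⟨hp⟩
    have h1 := h p (by
      rw [Nat.primeFactors_prime_pow he.ne' hp]
      exact mem_singleton_self p)
    rw [hp.factorization_pow, Finsupp.single_eq_same] at h1
    let _ : Fintype (GaloisField p e) := Fintype.ofFinite _
    have hcard : Fintype.card (GaloisField p e) = p ^ e := by
      rw [← Nat.card_eq_fintype_card, GaloisField.card p e he.ne']
    exact hasCode_equiv (Fintype.equivFinOfCardEq hcard)
      (hasCode_field (GaloisField p e) (by rw [hcard]; exact h1))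
  | coprime a b ha hb hab iha ihb =>
    intro _ h
    have h1 : HasCode n k (Fin a) := by
      apply iha (by omega)
      intro p hp
      have h2 := h p (by
        rw [Nat.primeFactors_mul (by omega) (by omega)]
        exact mem_union_left _ hp)
      rw [Nat.factorization_eq_of_coprime_left hab (by simpa using hp)] at h2
      exact h2
    have h2 : HasCode n k (Fin b) := by
      apply ihb (by omega)
      intro p hp
      have h2 := h p (by
        rw [Nat.primeFactors_mul (by omega) (by omega)]
        exact mem_union_right _ hp)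
      rw [Nat.factorization_eq_of_coprime_right hab (by simpa using hp)] at h2
      exact h2
    exact hasCode_equiv finProdFinEquiv (hasCode_prod h1 h2)

end

end Pool.Agent.H948R3.TP
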