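import Pool.Agent.H948R3.TPDefs

set_option autoImplicit false

namespace Pool.Agent.H948R3.TP

/-- There is a set `C` of words of length `n` over the alphabet `A` such that for any `k`
coordinates and any values prescribed on them there is exactly one word of `C` with these
values. (An orthogonal array of strength `k` and index one.) -/
def HasCode (n k : ℕ) (A : Type) : Prop :=
  ∃ C : Set (Fin n → A), ∀ T : Finset (Fin n), T.card = k → ∀ c : Fin n → A,
    ∃! t, t ∈ C ∧ ∀ x ∈ T, t x = c x

end Pool.Agent.H948R3.TP
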