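import Pool.Agent.H948R3.TPDefs

set_option autoImplicit false

namespace Pool.Agent.H948R3.TP

open Sum

section General

variable {X Y : Type} {r : ℕ}

/-- the graph of the edges of colour `i` -/
def colG (χ : X → Y → Fin r) (i : Fin r) : SimpleGraph (X ⊕ Y) where
  Adj u v := (∃ x y, u = inl x ∧ v = inr y ∧ χ x y = i) ∨
    (∃ x y, v = inl x ∧ u = inr y ∧ χ x y = i)
  symm := ⟨by
    intro u v h
    rcases h with ⟨x, y, h1, h2, h3⟩ | ⟨x, y, h1, h2, h3⟩
    · exact Or.inr ⟨x, y, h1, h2, h3⟩
    · exact Or.inl ⟨x, y, h1, h2, h3⟩⟩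
  loopless := ⟨by
    intro u h
    rcases h with ⟨x, y, h1, h2, h3⟩ | ⟨x, y, h1, h2, h3⟩ <;> subst h1 <;> cases h2⟩

theorem adj_lr {χ : X → Y → Fin r} {i : Fin r} {x : X} {y : Y} :
    (colG χ i).Adj (inl x) (inr y) ↔ χ x y = i := by
  constructor
  · rintro (⟨x', y', h1, h2, h3⟩ | ⟨x', y', h1, h2, h3⟩)
    · cases h1; cases h2; exact h3
    · cases h1
  · intro h
    exact Or.inl ⟨x, y, rfl, rfl, h⟩

theorem adj_rl {χ : X → Y → Fin r} {i : Fin r} {x : X} {y : Y} :
    (colG χ i).Adj (inr y) (inl x) ↔ χ x y = i := by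
  rw [SimpleGraph.adj_comm]; exact adj_lr

/-- partition of the vertices in at most `k` classes, each nonempty class connected in one
colour -/
def Part (χ : X → Y → Fin r) (k : ℕ) : Prop :=
  ∃ (ι : Type) (_ : Fintype ι) (f : X ⊕ Y → ι), Fintype.card ι ≤ k ∧
    ∀ a, (∃ v, f v = a) → ∃ i, ((colG χ i).induce {v | f v = a}).Connected

theorem Part.mono {χ : X → Y → Fin r} {k l : ℕ} (h : Part χ k) (hkl : k ≤ l) : Part χ l := by
  obtain ⟨ι, hι, f, h1, h2⟩ := h
  exact ⟨ι, hι, f, h1.trans hkl, h2⟩

/-- connectivity of a set with a vertex `y0` of the right side joined to all of the left side -/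
theorem conn_y (χ : X → Y → Fin r) (i : Fin r) (S : Set (X ⊕ Y)) (y0 : Y) (h0 : inr y0 ∈ S)
    (hx : ∀ x, (inl x : X ⊕ Y) ∈ S → χ x y0 = i)
    (hy : ∀ y, (inr y : X ⊕ Y) ∈ S → y = y0 ∨ ∃ x, (inl x : X ⊕ Y) ∈ S ∧ χ x y = i) :
    ((colG χ i).induce S).Connected := by
  rw [SimpleGraph.connected_iff_exists_forall_reachable]
  refine ⟨⟨inr y0, h0⟩, ?_⟩
  have hX : ∀ x (hxS : (inl x : X ⊕ Y) ∈ S),
      ((colG χ i).induce S).Reachable ⟨inr y0, h0⟩ ⟨inl x, hxS⟩ := by
    intro x hxS
    apply SimpleGraph.Adj.reachable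
    show (colG χ i).Adj (inr y0) (inl x)
    exact adj_rl.2 (hx x hxS)
  rintro ⟨v | v, hv⟩
  · exact hX v hv
  · rcases hy v hv with rfl | ⟨x, hxS, hc⟩
    · exact SimpleGraph.Reachable.refl _
    · refine (hX x hxS).trans ?_
      apply SimpleGraph.Adj.reachable
      show (colG χ i).Adj (inl x) (inr v)
      exact adj_lr.2 hc

/-- connectivity of a set with a vertex `x0` of the left side joined to all of the right side -/
theorem conn_x (χ : X → Y → Fin r) (i : Fin r) (S : Set (X ⊕ Y)) (x0 : X) (h0 : inl x0 ∈ S)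
    (hy : ∀ y, (inr y : X ⊕ Y) ∈ S → χ x0 y = i)
    (hx : ∀ x, (inl x : X ⊕ Y) ∈ S → x = x0 ∨ ∃ y, (inr y : X ⊕ Y) ∈ S ∧ χ x y = i) :
    ((colG χ i).induce S).Connected := by
  rw [SimpleGraph.connected_iff_exists_forall_reachable]
  refine ⟨⟨inl x0, h0⟩, ?_⟩
  have hY : ∀ y (hyS : (inr y : X ⊕ Y) ∈ S),
      ((colG χ i).induce S).Reachable ⟨inl x0, h0⟩ ⟨inr y, hyS⟩ := by
    intro y hyS
    apply SimpleGraph.Adj.reachable
    show (colG χ i).Adj (inl x0) (inr y)
    exact adj_lr.2 (hy y hyS)
  rintro ⟨v | v, hv⟩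
  · rcases hx v hv with rfl | ⟨y, hyS, hc⟩
    · exact SimpleGraph.Reachable.refl _
    · refine (hY y hyS).trans ?_
      apply SimpleGraph.Adj.reachable
      show (colG χ i).Adj (inr y) (inl v)
      exact adj_rl.2 hc
  · exact hY v hv

/-- exchanging the two sides -/
theorem part_flip {χ : X → Y → Fin r} {k : ℕ} (h : Part (fun y x => χ x y) k) : Part χ k := by
  obtain ⟨ι, hι, f, h1, h2⟩ := h
  refine ⟨ι, hι, fun v => f v.swap, h1, ?_⟩
  rintro a ⟨v, hv⟩
  obtain ⟨i, hi⟩ := h2 a ⟨v.swap, hv⟩
  refine ⟨i, ?_⟩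
  let e : ((colG (fun y x => χ x y) i).induce {v | f v = a}) →g
      ((colG χ i).induce {v | f v.swap = a}) :=
    { toFun := fun v => ⟨v.1.swap, by
        show f (v.1.swap.swap) = a
        rw [Sum.swap_swap]
        exact v.2⟩
      map_rel' := by
        rintro ⟨u, hu⟩ ⟨w, hw⟩ huw
        change (colG (fun y x => χ x y) i).Adj u w at huw
        show (colG χ i).Adj u.swap w.swap
        rcases huw with ⟨x, y, h1, h2, h3⟩ | ⟨x, y, h1, h2, h3⟩
        · subst h1; subst h2; exact adj_rl.2 h3
        · subst h1; subst h2; exact adj_lr.2 h3 }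
  refine SimpleGraph.Connected.map e ?_ hi
  rintro ⟨w, hw⟩
  exact ⟨⟨w.swap, hw⟩, by simp [e]⟩

variable [Fintype X] [Fintype Y]

/-- the star construction: `card X` stars and the bad vertices as single vertices -/
theorem part_stars (χ : X → Y → Fin r) (hr : 0 < r) (c : X → Fin r)
    [DecidablePred fun y => ∀ x, χ x y ≠ c x] :
    Part χ (Fintype.card X + (Finset.univ.filter (fun y => ∀ x, χ x y ≠ c x)).card) := by
  classical
  refine ⟨X ⊕ {y : Y // ∀ x, χ x y ≠ c x}, inferInstance, fun v => match v with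
    | inl x => inl x
    | inr y => if h : ∀ x, χ x y ≠ c x then inr ⟨y, h⟩
        else inl (Classical.choose (not_forall.1 h)), ?_, ?_⟩
  · rw [Fintype.card_sum, Fintype.card_subtype]
  · rintro (x | ⟨y, hy⟩) _
    · refine ⟨c x, conn_x χ (c x) _ x ?_ ?_ ?_⟩
      · simp
      · intro y hyS
        simp only [Set.mem_ofPred_eq] at hyS
        split_ifs at hyS with h
        have h2 := Classical.choose_spec (not_forall.1 h)
        rw [Sum.inl.injEq] at hyS
        rw [hyS] at h2
        exact not_not.1 h2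
      · intro x' hx'
        left
        simpa using hx'
    · refine ⟨⟨0, hr⟩, conn_y χ _ _ y ?_ ?_ ?_⟩
      · simp [hy]
      · intro x hx
        simp at hx
      · intro y' hy'
        left
        simp only [Set.mem_ofPred_eq] at hy'
        split_ifs at hy' with h
        simpa using hy'

/-- one big tree and the bad vertices as single vertices -/
theorem part_one [Nonempty X] (χ : X → Y → Fin r) (i : Fin r) (y0 : Y) (h0 : ∀ x, χ x y0 = i)
    [DecidablePred fun y => ∀ x, χ x y ≠ i] :
    Part χ (1 + (Finset.univ.filter (fun y => ∀ x, χ x y ≠ i)).card) := by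
  classical
  refine ⟨Unit ⊕ {y : Y // ∀ x, χ x y ≠ i}, inferInstance, fun v => match v with
    | inl _ => inl ()
    | inr y => if h : ∀ x, χ x y ≠ i then inr ⟨y, h⟩ else inl (), ?_, ?_⟩
  · rw [Fintype.card_sum, Fintype.card_subtype, Fintype.card_unit]
  · have hb : ¬ ∀ x, χ x y0 ≠ i := by
      intro h
      obtain ⟨x⟩ := (inferInstance : Nonempty X)
      exact h x (h0 x)
    rintro (_ | ⟨y, hy⟩) _
    · refine ⟨i, conn_y χ i _ y0 ?_ ?_ ?_⟩
      · simp only [Set.mem_ofPred_eq]
        rw [dif_neg hb]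
      · intro x _
        exact h0 x
      · intro y hyS
        right
        simp only [Set.mem_ofPred_eq] at hyS
        split_ifs at hyS with h
        obtain ⟨x, hx⟩ := not_forall.1 h
        exact ⟨x, by simp, not_not.1 hx⟩
    · refine ⟨i, conn_y χ _ _ y ?_ ?_ ?_⟩
      · simp [hy]
      · intro x hx
        simp at hx
      · intro y' hy'
        left
        simp only [Set.mem_ofPred_eq] at hy'
        split_ifs at hy' with h
        simpa using hy'

end General

section Two

variable {X Y : Type} [Fintype X] [Fintype Y]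

theorem fin2_cases (i : Fin 2) : i = 0 ∨ i = 1 := by omega

theorem part_two (χ : X → Y → Fin 2) (y0 y1 : Y) (h0 : ∀ x, χ x y0 = 0) (h1 : ∀ x, χ x y1 = 1)
    (c : X → Fin 2) (hc0 : ∃ x, c x = 0) (hc1 : ∃ x, c x = 1)
    [DecidablePred fun y => ∀ x, χ x y ≠ c x] :
    Part χ (2 + (Finset.univ.filter (fun y => ∀ x, χ x y ≠ c x)).card) := by
  classical
  obtain ⟨x0, hx0⟩ := hc0
  obtain ⟨x1, hx1⟩ := hc1
  refine ⟨Fin 2 ⊕ {y : Y // ∀ x, χ x y ≠ c x}, inferInstance, fun v => match v with
    | inl x => inl (c x)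
    | inr y => if h : ∀ x, χ x y ≠ c x then inr ⟨y, h⟩ else
        (if ∃ x, c x = 0 ∧ χ x y = 0 then inl 0 else inl 1), ?_, ?_⟩
  · rw [Fintype.card_sum, Fintype.card_subtype, Fintype.card_fin]
  · have hb0 : ¬ ∀ x, χ x y0 ≠ c x := fun h => h x0 (by rw [h0, hx0])
    have hb1 : ¬ ∀ x, χ x y1 ≠ c x := fun h => h x1 (by rw [h1, hx1])
    have he0 : ∃ x, c x = 0 ∧ χ x y0 = 0 := ⟨x0, hx0, h0 x0⟩
    have he1 : ¬ ∃ x, c x = 0 ∧ χ x y1 = 0 := by
      rintro ⟨x, _, hx⟩
      rw [h1 x] at hx
      exact absurd hx (by decide)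
    rintro (i | ⟨y, hy⟩) _
    · rcases fin2_cases i with rfl | rfl
      · refine ⟨0, conn_y χ 0 _ y0 ?_ ?_ ?_⟩
        · simp only [Set.mem_ofPred_eq]
          rw [dif_neg hb0, if_pos he0]
        · intro x _
          exact h0 x
        · intro y hyS
          right
          simp only [Set.mem_ofPred_eq] at hyS
          split_ifs at hyS with h h'
          · obtain ⟨x, hx, hx'⟩ := h'
            exact ⟨x, by simp [hx], hx'⟩
          · simp at hyS
      · refine ⟨1, conn_y χ 1 _ y1 ?_ ?_ ?_⟩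
        · simp only [Set.mem_ofPred_eq]
          rw [dif_neg hb1, if_neg he1]
        · intro x _
          exact h1 x
        · intro y hyS
          right
          simp only [Set.mem_ofPred_eq] at hyS
          split_ifs at hyS with h h'
          · simp at hyS
          · obtain ⟨x, hx⟩ := not_forall.1 h
            have hx := not_not.1 hx
            rcases fin2_cases (c x) with hcx | hcx
            · exact absurd ⟨x, hcx, by rw [hx, hcx]⟩ h'
            · exact ⟨x, by simp [hcx], by rw [hx, hcx]⟩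
    · refine ⟨0, conn_y χ _ _ y ?_ ?_ ?_⟩
      · simp [hy]
      · intro x hx
        simp at hx
      · intro y' hy'
        left
        simp only [Set.mem_ofPred_eq] at hy'
        split_ifs at hy' with h h'
        simpa using hy'

/-- if a colour class has no isolated vertex then one or two trees suffice -/
theorem part_noiso [Nonempty X] (χ : X → Y → Fin 2) (i j : Fin 2) (hij : i ≠ j)
    (hy : ∀ y, ∃ x, χ x y = i) (hx : ∀ x, ∃ y, χ x y = i) : Part χ 2 := by
  classical
  obtain ⟨x0⟩ := (inferInstance : Nonempty X)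
  have hother : ∀ k : Fin 2, k ≠ i → k = j := by
    intro k hk
    omega
  by_cases hS : ∀ v, (colG χ i).Reachable (inl x0) v
  · refine ⟨Unit, inferInstance, fun _ => (), by simp, ?_⟩
    rintro a _
    refine ⟨i, ?_⟩
    rw [SimpleGraph.connected_iff_exists_forall_reachable]
    refine ⟨⟨inl x0, by simp⟩, ?_⟩
    rintro ⟨v, hv⟩
    let e : (colG χ i) →g ((colG χ i).induce {v | (fun _ : X ⊕ Y => ()) v = a}) :=
      { toFun := fun v => ⟨v, by simp⟩
        map_rel' := by
          intro u w huw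
          exact huw }
    exact (hS v).map e
  · push Not at hS
    -- the reachable set and its complement
    have hstep : ∀ x y, χ x y = i → ((colG χ i).Reachable (inl x0) (inl x) ↔
        (colG χ i).Reachable (inl x0) (inr y)) := by
      intro x y hxy
      constructor
      · intro h
        exact h.trans (SimpleGraph.Adj.reachable (adj_lr.2 hxy))
      · intro h
        exact h.trans (SimpleGraph.Adj.reachable (adj_rl.2 hxy))
    obtain ⟨y1, hy1⟩ := hx x0
    have hy1r : (colG χ i).Reachable (inl x0) (inr y1) :=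
      (hstep x0 y1 hy1).1 (SimpleGraph.Reachable.refl _)
    obtain ⟨x2, y2, hx2, hy2⟩ : ∃ x2 y2, ¬ (colG χ i).Reachable (inl x0) (inl x2) ∧
        ¬ (colG χ i).Reachable (inl x0) (inr y2) := by
      obtain ⟨v, hv⟩ := hS
      rcases v with x | y
      · obtain ⟨y, hxy⟩ := hx x
        exact ⟨x, y, hv, fun h => hv ((hstep x y hxy).2 h)⟩
      · obtain ⟨x, hxy⟩ := hy y
        exact ⟨x, y, fun h => hv ((hstep x y hxy).1 h), hv⟩
    refine ⟨Bool, inferInstance, fun v => match v with
      | inl x => decide ((colG χ i).Reachable (inl x0) (inl x))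
      | inr y => decide (¬ (colG χ i).Reachable (inl x0) (inr y)), by simp, ?_⟩
    rintro a _
    refine ⟨j, ?_⟩
    cases a
    · -- class of the unreachable left vertices and the reachable right vertices
      refine conn_y χ j _ y1 ?_ ?_ ?_
      · simp [hy1r]
      · intro x hxS
        simp only [Set.mem_ofPred_eq, decide_eq_false_iff_not] at hxS
        exact hother _ (fun h => hxS ((hstep x y1 h).2 hy1r))
      · intro y hyS
        simp only [Set.mem_ofPred_eq, decide_eq_false_iff_not, not_not] at hyS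
        right
        refine ⟨x2, by simp [hx2], hother _ (fun h => hx2 ((hstep x2 y h).2 hyS))⟩
    · refine conn_y χ j _ y2 ?_ ?_ ?_
      · simp [hy2]
      · intro x hxS
        simp only [Set.mem_ofPred_eq, decide_eq_true_eq] at hxS
        exact hother _ (fun h => hy2 ((hstep x y2 h).1 hxS))
      · intro y hyS
        simp only [Set.mem_ofPred_eq, decide_eq_true_eq] at hyS
        right
        refine ⟨x0, by simp, hother _ (fun h => hyS ((hstep x0 y h).1
          (SimpleGraph.Reachable.refl _)))⟩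

end Two

end Pool.Agent.H948R3.TP
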