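import Mathlib

set_option autoImplicit false

namespace Pool.Agent.H948R3.TP

/-- `T` is a monochromatic tree of the graph `G` with respect to the edge colouring `c`: the
subgraph `T` is a tree (a single vertex is allowed) and all its edges have one colour. -/
def IsMonoTree {V : Type} {r : ℕ} (G : SimpleGraph V) (c : Sym2 V → Fin r)
    (T : G.Subgraph) : Prop :=
  T.coe.IsTree ∧ ∃ i : Fin r, ∀ u v : V, T.Adj u v → c s(u, v) = i

/-- For every `r`-colouring of the edges of `G` the vertex set of `G` is partitioned by the vertex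
sets of at most `k` monochromatic trees. -/
def TreePartitionable {V : Type} (G : SimpleGraph V) (r k : ℕ) : Prop :=
  ∀ c : Sym2 V → Fin r, ∃ j : ℕ, j ≤ k ∧ ∃ T : Fin j → G.Subgraph,
    (∀ a, IsMonoTree G c (T a)) ∧ ∀ v : V, ∃! a, v ∈ (T a).verts

/-- For every `r`-colouring of the edges of `G` the vertex set of `G` is covered by the vertex
sets of at most `k` monochromatic trees. -/
def TreeCoverable {V : Type} (G : SimpleGraph V) (r k : ℕ) : Prop :=
  ∀ c : Sym2 V → Fin r, ∃ j : ℕ, j ≤ k ∧ ∃ T : Fin j → G.Subgraph,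
    (∀ a, IsMonoTree G c (T a)) ∧ ∀ v : V, ∃ a, v ∈ (T a).verts

/-- The tree partition number `tp_r(K_{n,m})`. -/
noncomputable def tp (r n m : ℕ) : ℕ :=
  sInf {k : ℕ | TreePartitionable (completeBipartiteGraph (Fin n) (Fin m)) r k}

/-- The tree cover number `tc_r(K_{n,m})`. -/
noncomputable def tc (r n m : ℕ) : ℕ :=
  sInf {k : ℕ | TreeCoverable (completeBipartiteGraph (Fin n) (Fin m)) r k}

end Pool.Agent.H948R3.TP
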