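import Pool.Agent.H948R3.TPBridge

set_option autoImplicit false

namespace Pool.Agent.H948R3.TP

open Sum

section

variable {n m r : ℕ}

/-- from trees to connected classes -/
theorem part_of_trees (c : Sym2 (Fin n ⊕ Fin m) → Fin r) (j : ℕ)
    (T : Fin j → (completeBipartiteGraph (Fin n) (Fin m)).Subgraph)
    (hT : ∀ a, IsMonoTree _ c (T a)) (hcov : ∀ v, ∃! a, v ∈ (T a).verts) : Part (chi c) j := by
  classical
  choose idx hidx huniq using hcov
  refine ⟨Fin j, inferInstance, idx, by simp, ?_⟩
  rintro a ⟨v0, hv0⟩
  obtain ⟨hTt, i, hi⟩ := hT a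
  refine ⟨i, ?_⟩
  have hmem : ∀ v, v ∈ (T a).verts → idx v = a := fun v hv => (huniq v a hv).symm
  let e : (T a).coe →g ((colG (chi c) i).induce {v | idx v = a}) :=
    { toFun := fun v => ⟨v.1, hmem v.1 v.2⟩
      map_rel' := by
        rintro ⟨u, hu⟩ ⟨w, hw⟩ huw
        rw [SimpleGraph.Subgraph.coe_adj] at huw
        change (T a).Adj u w at huw
        have h1 := (T a).adj_sub huw
        have h2 := hi _ _ huw
        show (colG (chi c) i).Adj u w
        rcases u with x | y <;> rcases w with x' | y'
        · simp at h1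
        · exact adj_lr.2 h2
        · apply adj_rl.2
          show c s(inl x', inr y) = i
          rw [Sym2.eq_swap]; exact h2
        · simp at h1 }
  refine SimpleGraph.Connected.map e ?_ hTt.connected
  rintro ⟨w, hw⟩
  have : w ∈ (T a).verts := by
    have := hidx w
    rw [show idx w = a from hw] at this
    exact this
  exact ⟨⟨w, this⟩, rfl⟩

theorem tpart_iff (hr : 0 < r) {k : ℕ} :
    TreePartitionable (completeBipartiteGraph (Fin n) (Fin m)) r k ↔
      ∀ χ : Fin n → Fin m → Fin r, Part χ k := by
  constructor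
  · intro h χ
    obtain ⟨c, hc⟩ := exists_colouring hr χ
    obtain ⟨j, hj, T, hT, hcov⟩ := h c
    have := part_of_trees c j T hT hcov
    rw [hc] at this
    exact this.mono hj
  · intro h c
    exact trees_of_part c k (h _)

theorem tp_symm (hr : 0 < r) : tp r n m = tp r m n := by
  unfold tp
  congr 1
  ext k
  show TreePartitionable _ r k ↔ TreePartitionable _ r k
  rw [tpart_iff hr, tpart_iff hr]
  constructor
  · intro h χ
    exact part_flip (h _)
  · intro h χ
    exact part_flip (h _)

/-- one step of the recursion -/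
def hstep (r M : ℕ) : ℕ := 1 + (r - 1) * M / r

theorem hstep_mono (r : ℕ) : Monotone (hstep r) := by
  intro a b hab
  unfold hstep
  exact Nat.add_le_add_left (Nat.div_le_div_right (Nat.mul_le_mul_left _ hab)) _

theorem greedy {Y : Type} [Fintype Y] (hr : 0 < r) : ∀ (n : ℕ) (χ : Fin n → Y → Fin r),
    ∃ c : Fin n → Fin r, (Finset.univ.filter (fun y => ∀ x, χ x y ≠ c x)).card +
      (Finset.univ.image c).card ≤ (hstep r)^[n] (Fintype.card Y) := by
  classical
  intro n
  induction n with
  | zero =>
    intro χ
    refine ⟨fun x => x.elim0, ?_⟩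
    simp
  | succ n ih =>
    intro χ
    obtain ⟨c, hc⟩ := ih (fun x => χ x.castSucc)
    set U := Finset.univ.filter (fun y => ∀ x : Fin n, χ x.castSucc y ≠ c x) with hU
    set D := Finset.univ.image c with hD
    have hsum : ∑ i : Fin r, ((U.filter (fun y => χ (Fin.last n) y = i)).card +
        (if i ∈ D then 1 else 0)) = U.card + D.card := by
      rw [Finset.sum_add_distrib]
      congr 1
      · rw [← Finset.card_eq_sum_card_fiberwise (fun y _ => Finset.mem_univ _)]
      · simp
    have hex : ∃ i : Fin r, U.card + D.card ≤ r * ((U.filter (fun y => χ (Fin.last n) y = i)).card +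
        (if i ∈ D then 1 else 0)) := by
      by_contra hcon
      push Not at hcon
      have hne : (Finset.univ : Finset (Fin r)).Nonempty := ⟨⟨0, hr⟩, Finset.mem_univ _⟩
      have := Finset.sum_lt_sum_of_nonempty hne (fun i _ => hcon i)
      rw [← Finset.mul_sum, hsum] at this
      simp at this
    obtain ⟨i, hi⟩ := hex
    refine ⟨Fin.snoc c i, ?_⟩
    have hbad : Finset.univ.filter (fun y => ∀ x : Fin (n + 1),
        χ x y ≠ (Fin.snoc c i : Fin (n + 1) → Fin r) x) =
        U.filter (fun y => ¬ χ (Fin.last n) y = i) := by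
      ext y
      simp only [Finset.mem_filter, Finset.mem_univ, true_and, hU]
      constructor
      · intro h
        refine ⟨fun x => ?_, ?_⟩
        · have := h x.castSucc
          rwa [Fin.snoc_castSucc] at this
        · have := h (Fin.last n)
          rwa [Fin.snoc_last] at this
      · rintro ⟨h1, h2⟩ x
        refine Fin.lastCases ?_ (fun x => ?_) x
        · rw [Fin.snoc_last]; exact h2
        · rw [Fin.snoc_castSucc]; exact h1 x
    have himg : Finset.univ.image (Fin.snoc c i : Fin (n + 1) → Fin r) = insert i D := by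
      ext a
      simp only [Finset.mem_image, Finset.mem_univ, true_and, Finset.mem_insert, hD]
      constructor
      · rintro ⟨x, hx⟩
        revert hx
        refine Fin.lastCases ?_ (fun x => ?_) x
        · rw [Fin.snoc_last]; intro h; exact Or.inl h.symm
        · rw [Fin.snoc_castSucc]; intro h; exact Or.inr ⟨x, h⟩
      · rintro (h | ⟨x, h⟩)
        · exact ⟨Fin.last n, by rw [Fin.snoc_last, h]⟩
        · exact ⟨x.castSucc, by rw [Fin.snoc_castSucc, h]⟩
    rw [hbad, himg, Function.iterate_succ_apply']
    refine le_trans ?_ (hstep_mono r hc)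
    have h1 := Finset.card_filter_add_card_filter_not (s := U) (fun y => χ (Fin.last n) y = i)
    have h2 : (insert i D).card + (if i ∈ D then 1 else 0) = D.card + 1 := by
      by_cases h : i ∈ D
      · rw [if_pos h, Finset.insert_eq_of_mem h]
      · rw [if_neg h, Finset.card_insert_of_notMem h]
    set A := (U.filter (fun y => χ (Fin.last n) y = i)).card with hA
    set B := (U.filter (fun y => ¬ χ (Fin.last n) y = i)).card with hB
    set δ := (if i ∈ D then 1 else 0) with hδ
    have h3 : B + (insert i D).card + (A + δ) = (U.card + D.card) + 1 := by omega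
    unfold hstep
    have h4 : B + (insert i D).card ≤ 1 + ((U.card + D.card) - (A + δ)) := by omega
    refine h4.trans (Nat.add_le_add_left ?_ _)
    rw [Nat.le_div_iff_mul_le hr]
    obtain ⟨s, rfl⟩ : ∃ s, r = s + 1 := ⟨r - 1, by omega⟩
    have h5 : ((U.card + D.card) - (A + δ)) * (s + 1) =
        (U.card + D.card) * (s + 1) - (s + 1) * (A + δ) := by
      rw [Nat.sub_mul, Nat.mul_comm (A + δ)]
    rw [h5]
    have h6 : (s + 1 - 1) * (U.card + D.card) = (U.card + D.card) * (s + 1) -
        (U.card + D.card) := by
      rw [Nat.add_sub_cancel, Nat.mul_comm, Nat.mul_succ, Nat.add_sub_cancel]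
    rw [h6]
    omega

/-- a colouring with prescribed numbers of types -/
theorem exists_types (hr : 0 < r) (w : (Fin n → Fin r) → ℕ) (hw : ∑ t, w t ≤ m) :
    ∃ χ : Fin n → Fin m → Fin r, ∀ c : Fin n → Fin r,
      ∑ t ∈ Finset.univ.filter (fun t : Fin n → Fin r => ∀ x, t x ≠ c x), w t ≤
        (Finset.univ.filter (fun y => ∀ x, χ x y ≠ c x)).card := by
  classical
  have hcard : Fintype.card (Σ t : Fin n → Fin r, Fin (w t)) ≤ Fintype.card (Fin m) := by
    rw [Fintype.card_sigma]
    simpa using hw
  obtain ⟨g⟩ := Function.Embedding.nonempty_of_card_le hcard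
  refine ⟨fun x y => if h : ∃ p, g p = y then (Classical.choose h).1 x else ⟨0, hr⟩, ?_⟩
  intro c
  have h1 : ∑ t ∈ Finset.univ.filter (fun t : Fin n → Fin r => ∀ x, t x ≠ c x), w t =
      ((Finset.univ.filter (fun t : Fin n → Fin r => ∀ x, t x ≠ c x)).sigma
        (fun t => (Finset.univ : Finset (Fin (w t))))).card := by
    rw [Finset.card_sigma]
    simp
  rw [h1, ← Finset.card_map g]
  apply Finset.card_le_card
  intro y hy
  rw [Finset.mem_map] at hy
  obtain ⟨p, hp, rfl⟩ := hy
  rw [Finset.mem_sigma, Finset.mem_filter] at hp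
  rw [Finset.mem_filter]
  refine ⟨Finset.mem_univ _, fun x => ?_⟩
  have hex : ∃ q, g q = g p := ⟨p, rfl⟩
  show (if h : ∃ q, g q = g p then (Classical.choose h).fst x else ⟨0, hr⟩) ≠ c x
  rw [dif_pos hex]
  have := Classical.choose_spec hex
  rw [g.injective this]
  exact hp.1.2 x

/-- lower bound by weights -/
theorem le_tp_w {k K : ℕ} (hr : 0 < r) (hK : ∀ χ : Fin n → Fin m → Fin r, Part χ K)
    (w : (Fin n → Fin r) → ℕ) (hw : ∑ t, w t ≤ m)
    (h : ∀ c : Fin n → Fin r, k ≤
      ∑ t ∈ Finset.univ.filter (fun t : Fin n → Fin r => ∀ x, t x ≠ c x), w t +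
        (Finset.univ.image c).card) : k ≤ tp r n m := by
  obtain ⟨χ, hχ⟩ := exists_types hr w hw
  refine le_tp hr hK χ ?_
  intro c
  exact (h c).trans (Nat.add_le_add_right (hχ c) _)

theorem part_total (hr : 0 < r) (χ : Fin n → Fin m → Fin r) : Part χ (n + m) := by
  classical
  refine (part_stars χ hr (fun _ => ⟨0, hr⟩)).mono ?_
  rw [Fintype.card_fin]
  apply Nat.add_le_add_left
  refine (Finset.card_le_univ _).trans ?_
  simp

/-- stars -/
theorem tp_one (hr : 0 < r) : tp r 1 m = hstep r m := by
  classical
  apply le_antisymm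
  · apply tp_le
    intro χ
    obtain ⟨c, hc⟩ := greedy hr 1 χ
    have h1 := part_stars χ hr c
    refine h1.mono ?_
    rw [Function.iterate_one, Fintype.card_fin] at hc
    have h2 : 1 ≤ (Finset.univ.image c).card := by
      apply Finset.card_pos.2
      exact ⟨c 0, Finset.mem_image_of_mem _ (Finset.mem_univ _)⟩
    rw [Fintype.card_fin]
    omega
  · refine le_tp hr (K := 1 + m) (fun χ => part_total hr χ)
      (fun _ y => ⟨y.1 % r, Nat.mod_lt _ hr⟩) ?_
    intro c
    have h2 : 1 ≤ (Finset.univ.image c).card := by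
      apply Finset.card_pos.2
      exact ⟨c 0, Finset.mem_image_of_mem _ (Finset.mem_univ _)⟩
    have h3 : (Finset.univ.filter (fun y : Fin m =>
        ∀ x : Fin 1, (⟨y.1 % r, Nat.mod_lt _ hr⟩ : Fin r) ≠ c x)) =
        Finset.univ.filter (fun y : Fin m => ¬ y.1 % r = (c 0).1) := by
      ext y
      simp only [Finset.mem_filter, Finset.mem_univ, true_and]
      constructor
      · intro h h'
        exact h 0 (Fin.ext h')
      · intro h x h'
        apply h
        have : x = 0 := Subsingleton.elim _ _
        rw [this] at h'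
        exact congrArg Fin.val h'
    rw [h3]
    have h4 := Finset.card_filter_add_card_filter_not (s := (Finset.univ : Finset (Fin m)))
      (fun y => y.1 % r = (c 0).1)
    rw [Finset.card_univ, Fintype.card_fin] at h4
    -- the number of y with y % r = a is at most (m + r - 1) / r
    have h5 : r * (Finset.univ.filter (fun y : Fin m => y.1 % r = (c 0).1)).card ≤ m + r - 1 := by
      have hinj : (Finset.univ.filter (fun y : Fin m => y.1 % r = (c 0).1)).card ≤
          (Finset.range ((m + r - 1) / r)).card := by
        apply Finset.card_le_card_of_injOn (fun y => y.1 / r)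
        · intro y hy
          rw [Finset.mem_coe, Finset.mem_range]
          show y.1 / r < (m + r - 1) / r
          rw [Nat.lt_iff_add_one_le, Nat.le_div_iff_mul_le hr, Nat.add_mul, Nat.one_mul]
          have := Nat.div_mul_le_self y.1 r
          have := y.2
          omega
        · intro y hy y' hy' h
          rw [Finset.mem_coe, Finset.mem_filter] at hy hy'
          apply Fin.ext
          rw [← Nat.div_add_mod y.1 r, ← Nat.div_add_mod y'.1 r, hy.2, hy'.2]
          simp only at h
          rw [h]
      rw [Finset.card_range] at hinj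
      calc _ ≤ r * ((m + r - 1) / r) := Nat.mul_le_mul_left _ hinj
        _ ≤ _ := Nat.mul_div_le _ _
    set A := (Finset.univ.filter (fun y : Fin m => y.1 % r = (c 0).1)).card
    set B := (Finset.univ.filter (fun y : Fin m => ¬ y.1 % r = (c 0).1)).card
    have h6 : (r - 1) * m / r ≤ B := by
      obtain ⟨s, rfl⟩ : ∃ s, r = s + 1 := ⟨r - 1, by omega⟩
      rw [Nat.add_sub_cancel]
      apply Nat.le_of_lt_succ
      rw [Nat.div_lt_iff_lt_mul hr, Nat.succ_mul]
      have h7 : B * (s + 1) + (s + 1) * A = s * m + m := by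
        rw [← h4]; ring
      omega
    unfold hstep
    omega

end

end Pool.Agent.H948R3.TP
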