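import Pool.Agent.H948R3.TPGen

set_option autoImplicit false

namespace Pool.Agent.H948R3.TP

open Finset

section

variable {n r : ℕ}

/-- summation over the coordinates in `S` -/
def sm (S : Finset (Fin n)) (f : (Fin n → Fin r) → ℤ) (c : Fin n → Fin r) : ℤ :=
  ∑ t ∈ univ.filter (fun t : Fin n → Fin r => ∀ x, x ∉ S → t x = c x), f t

/-- summation over the words which differ from `c` exactly in the coordinates of `T` -/
def av (T : Finset (Fin n)) (f : (Fin n → Fin r) → ℤ) (c : Fin n → Fin r) : ℤ :=
  ∑ t ∈ univ.filter (fun t : Fin n → Fin r => (∀ x, x ∈ T → t x ≠ c x) ∧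
    ∀ x, x ∉ T → t x = c x), f t

theorem sm_empty (f : (Fin n → Fin r) → ℤ) (c : Fin n → Fin r) : sm ∅ f c = f c := by
  unfold sm
  have : univ.filter (fun t : Fin n → Fin r => ∀ x, x ∉ (∅ : Finset (Fin n)) → t x = c x) =
      {c} := by
    ext t
    simp only [mem_filter, mem_univ, true_and, notMem_empty, not_false_eq_true, forall_const,
      mem_singleton]
    exact ⟨fun h => funext h, fun h x => by rw [h]⟩
  rw [this, sum_singleton]

theorem av_empty (f : (Fin n → Fin r) → ℤ) (c : Fin n → Fin r) : av ∅ f c = f c := by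
  unfold av
  have : univ.filter (fun t : Fin n → Fin r => (∀ x, x ∈ (∅ : Finset (Fin n)) → t x ≠ c x) ∧
      ∀ x, x ∉ (∅ : Finset (Fin n)) → t x = c x) = {c} := by
    ext t
    simp only [mem_filter, mem_univ, true_and, notMem_empty, not_false_eq_true, forall_const,
      mem_singleton, false_imp_iff, implies_true]
    exact ⟨fun h => funext h, fun h x => by rw [h]⟩
  rw [this, sum_singleton]

theorem sm_univ (f : (Fin n → Fin r) → ℤ) (c : Fin n → Fin r) : sm univ f c = ∑ t, f t := by
  unfold sm
  congr 1
  ext t
  simp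

theorem av_univ (f : (Fin n → Fin r) → ℤ) (c : Fin n → Fin r) :
    av univ f c = ∑ t ∈ univ.filter (fun t : Fin n → Fin r => ∀ x, t x ≠ c x), f t := by
  unfold av
  congr 1
  ext t
  simp

theorem sm_insert {S : Finset (Fin n)} {x : Fin n} (hx : x ∉ S) (f : (Fin n → Fin r) → ℤ)
    (c : Fin n → Fin r) :
    sm (insert x S) f c = ∑ a : Fin r, sm S f (Function.update c x a) := by
  unfold sm
  rw [← sum_fiberwise_of_maps_to (t := (univ : Finset (Fin r))) (g := fun t => t x)
    (fun t _ => mem_univ _)]
  apply sum_congr rfl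
  intro a _
  apply sum_congr _ (fun _ _ => rfl)
  ext t
  simp only [mem_filter, mem_univ, true_and, mem_insert, not_or]
  constructor
  · rintro ⟨h1, h2⟩ z hz
    by_cases hzx : z = x
    · rw [hzx, Function.update_self, h2]
    · rw [Function.update_of_ne hzx]
      exact h1 z ⟨hzx, hz⟩
  · intro h
    refine ⟨?_, ?_⟩
    · rintro z ⟨hzx, hz⟩
      have := h z hz
      rwa [Function.update_of_ne hzx] at this
    · have := h x hx
      rwa [Function.update_self] at this

theorem av_insert {T : Finset (Fin n)} {x : Fin n} (hx : x ∉ T) (f : (Fin n → Fin r) → ℤ)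
    (c : Fin n → Fin r) :
    av (insert x T) f c = ∑ a : Fin r, av T f (Function.update c x a) - av T f c := by
  have h0 : ∑ a : Fin r, av T f (Function.update c x a) - av T f c =
      ∑ a ∈ univ.erase (c x), av T f (Function.update c x a) := by
    rw [← add_sum_erase univ _ (mem_univ (c x)), Function.update_eq_self]
    ring
  rw [h0]
  unfold av
  have hmaps : ∀ t ∈ univ.filter (fun t : Fin n → Fin r => (∀ z, z ∈ insert x T → t z ≠ c z) ∧
    ∀ z, z ∉ insert x T → t z = c z), t x ∈ univ.erase (c x) := by
    intro t ht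
    rw [mem_filter] at ht
    exact mem_erase.2 ⟨ht.2.1 x (mem_insert_self _ _), mem_univ _⟩
  rw [← sum_fiberwise_of_maps_to hmaps]
  apply sum_congr rfl
  intro a ha
  rw [mem_erase] at ha
  apply sum_congr _ (fun _ _ => rfl)
  ext t
  simp only [mem_filter, mem_univ, true_and, mem_insert, not_or]
  constructor
  · rintro ⟨⟨h1, h2⟩, h3⟩
    refine ⟨?_, ?_⟩
    · intro z hz
      have hzx : z ≠ x := fun h => hx (h ▸ hz)
      rw [Function.update_of_ne hzx]
      exact h1 z (Or.inr hz)
    · intro z hz
      by_cases hzx : z = x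
      · rw [hzx, Function.update_self, h3]
      · rw [Function.update_of_ne hzx]
        exact h2 z ⟨hzx, hz⟩
  · rintro ⟨h1, h2⟩
    have h3 : t x = a := by
      have := h2 x hx
      rwa [Function.update_self] at this
    refine ⟨⟨?_, ?_⟩, h3⟩
    · rintro z (hz | hz)
      · rw [hz, h3]; exact ha.1
      · have hzx : z ≠ x := fun h => hx (h ▸ hz)
        have := h1 z hz
        rwa [Function.update_of_ne hzx] at this
    · rintro z ⟨hzx, hz⟩
      have := h2 z hz
      rwa [Function.update_of_ne hzx] at this

theorem sm_add (S : Finset (Fin n)) (f g : (Fin n → Fin r) → ℤ) (c : Fin n → Fin r) :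
    sm S (fun t => f t + g t) c = sm S f c + sm S g c := sum_add_distrib

theorem sm_sub (S : Finset (Fin n)) (f g : (Fin n → Fin r) → ℤ) (c : Fin n → Fin r) :
    sm S (fun t => f t - g t) c = sm S f c - sm S g c := sum_sub_distrib _ _

theorem sm_mul (S : Finset (Fin n)) (a : ℤ) (f : (Fin n → Fin r) → ℤ) (c : Fin n → Fin r) :
    sm S (fun t => a * f t) c = a * sm S f c := (mul_sum _ _ _).symm

theorem sm_sum {ι : Type} (J : Finset ι) (S : Finset (Fin n)) (f : ι → (Fin n → Fin r) → ℤ)
    (c : Fin n → Fin r) :
    sm S (fun t => ∑ j ∈ J, f j t) c = ∑ j ∈ J, sm S (f j) c := sum_comm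

theorem sm_const (S : Finset (Fin n)) (a : ℤ) (c : Fin n → Fin r) :
    sm S (fun _ => a) c = (r : ℤ) ^ S.card * a := by
  induction S using Finset.induction_on generalizing c with
  | empty => rw [sm_empty]; simp
  | insert x S hx ih =>
    rw [sm_insert hx, sum_congr rfl (fun a _ => ih _), card_insert_of_notMem hx]
    simp
    ring

theorem sm_comp {S : Finset (Fin n)} {x : Fin n} (hx : x ∉ S) (f : (Fin n → Fin r) → ℤ)
    (c : Fin n → Fin r) :
    sm S (fun t => ∑ a : Fin r, f (Function.update t x a)) c = sm (insert x S) f c := by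
  induction S using Finset.induction_on generalizing c with
  | empty =>
    rw [sm_empty, sm_insert hx]
    apply sum_congr rfl
    intro a _
    rw [sm_empty]
  | insert y S hy ih =>
    rw [mem_insert, not_or] at hx
    rw [sm_insert hy, sum_congr rfl (fun a _ => ih hx.2 _), Finset.insert_comm, sm_insert]
    rw [mem_insert, not_or]
    exact ⟨fun h => hx.1 h.symm, hy⟩

theorem sum_update (x : Fin n) (f : (Fin n → Fin r) → ℤ) :
    ∑ t, ∑ a : Fin r, f (Function.update t x a) = r * ∑ t, f t := by
  rcases isEmpty_or_nonempty (Fin n → Fin r) with h | ⟨⟨c0⟩⟩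
  · simp
  · have hx : x ∉ univ.erase x := notMem_erase _ _
    have hins : insert x (univ.erase x) = univ := insert_erase (mem_univ x)
    rw [← sm_univ (fun t => ∑ a : Fin r, f (Function.update t x a)) c0, ← hins, sm_insert hx]
    have : ∀ a ∈ (univ : Finset (Fin r)),
        sm (univ.erase x) (fun t => ∑ a : Fin r, f (Function.update t x a))
          (Function.update c0 x a) = ∑ t, f t := by
      intro a _
      rw [sm_comp hx, hins, sm_univ]
    rw [sum_congr rfl this]
    simp

/-- inversion -/
theorem inversion (s : ℕ) (hs : 1 ≤ s) (hr : r = s + 1) (T : Finset (Fin n)) :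
    ∀ B : (Fin n → Fin r) → ℤ, (∀ S, S ⊆ T → ∀ c, ((s : ℤ) ^ S.card) ∣ sm S B c) →
    ∃ w : (Fin n → Fin r) → ℤ, (∀ c, av T w c = B c) ∧
      (s : ℤ) ^ T.card * ∑ t, w t = ∑ t, B t := by
  induction T using Finset.induction_on with
  | empty =>
    intro B _
    exact ⟨B, fun c => av_empty B c, by simp⟩
  | insert x T hx ih =>
    intro B hB
    have hs0 : (s : ℤ) ≠ 0 := by exact_mod_cast (by omega : s ≠ 0)
    have hr' : (r : ℤ) = s + 1 := by exact_mod_cast hr
    let g : (Fin n → Fin r) → ℤ := fun t => ∑ a : Fin r, B (Function.update t x a)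
    have hg : ∀ c, ∃ G : ℤ, g c = s * G := by
      intro c
      have := hB {x} (by simp) c
      rw [card_singleton, pow_one, show ({x} : Finset (Fin n)) = insert x ∅ from rfl,
        ← sm_comp (notMem_empty x), sm_empty] at this
      exact this
    choose G hG using hg
    have hupd : ∀ c a, g (Function.update c x a) = g c := by
      intro c a
      show ∑ b : Fin r, B (Function.update (Function.update c x a) x b) =
        ∑ b : Fin r, B (Function.update c x b)
      simp only [Function.update_idem]
    have hGupd : ∀ c a, G (Function.update c x a) = G c := by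
      intro c a
      have := hupd c a
      rw [hG, hG] at this
      exact mul_left_cancel₀ hs0 this
    obtain ⟨w, hw1, hw2⟩ := ih (fun c => G c - B c) (by
      intro S hS c
      have hxS : x ∉ S := fun h => hx (hS h)
      rw [sm_sub]
      apply dvd_sub
      · have h1 := hB (insert x S) (insert_subset_insert x hS) c
        rw [card_insert_of_notMem hxS, ← sm_comp hxS] at h1
        have h2 : sm S (fun t => ∑ a : Fin r, B (Function.update t x a)) c = s * sm S G c := by
          rw [← sm_mul]
          congr 1
          funext t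
          exact hG t
        rw [h2, pow_succ, mul_comm ((s : ℤ) ^ S.card)] at h1
        exact (mul_dvd_mul_iff_left hs0).1 h1
      · exact hB S (hS.trans (subset_insert _ _)) c)
    refine ⟨w, ?_, ?_⟩
    · intro c
      rw [av_insert hx, hw1, sum_congr rfl (fun a _ => hw1 _), sum_sub_distrib,
        sum_congr rfl (fun a _ => hGupd c a), sum_const, card_univ, Fintype.card_fin]
      have h3 : ∑ a : Fin r, B (Function.update c x a) = s * G c := hG c
      rw [h3, nsmul_eq_mul, hr']
      ring
    · rw [card_insert_of_notMem hx, pow_succ, mul_comm ((s : ℤ) ^ T.card), mul_assoc, hw2,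
        sum_sub_distrib, mul_sub, mul_sum]
      have h4 : ∑ t, (s : ℤ) * G t = r * ∑ t, B t := by
        rw [← sum_update x B]
        exact sum_congr rfl (fun t _ => (hG t).symm)
      rw [h4, hr']
      ring

end

end Pool.Agent.H948R3.TP
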