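import Pool.Agent.H948R3.TPLow
import Pool.Agent.H948R3.TPCodeDefs

set_option autoImplicit false

namespace Pool.Agent.H948R3.TP

open Finset

section

variable {n r : ℕ}

theorem code_sm {k : ℕ} (hk : k ≤ n) (h : HasCode n k (Fin r)) :
    ∃ L : (Fin n → Fin r) → ℤ, (∀ t, 0 ≤ L t) ∧
      ∀ e : ℕ, ∀ S : Finset (Fin n), S.card = n - k + e → ∀ c, sm S L c = (r : ℤ) ^ e := by
  classical
  obtain ⟨C, hC⟩ := h
  refine ⟨fun t => if t ∈ C then 1 else 0, fun t => by positivity, ?_⟩
  intro e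
  induction e with
  | zero =>
    intro S hS c
    obtain ⟨t, ⟨ht1, ht2⟩, ht3⟩ := hC Sᶜ (by rw [card_compl, Fintype.card_fin, hS]; omega) c
    unfold sm
    rw [← sum_filter, filter_filter, sum_const, pow_zero]
    have : univ.filter (fun t : Fin n → Fin r => (∀ x, x ∉ S → t x = c x) ∧ t ∈ C) = {t} := by
      ext z
      simp only [mem_filter, mem_univ, true_and, mem_singleton]
      constructor
      · rintro ⟨h1, h2⟩
        exact ht3 z ⟨h2, fun x hx => h1 x (mem_compl.1 hx)⟩
      · rintro rfl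
        exact ⟨fun x hx => ht2 x (mem_compl.2 hx), ht1⟩
    rw [this]
    simp
  | succ e ih =>
    intro S hS c
    have hne : S.Nonempty := by
      rw [← card_pos]
      omega
    obtain ⟨x, hx⟩ := hne
    have hxe : x ∉ S.erase x := notMem_erase _ _
    have hcard : (S.erase x).card = n - k + e := by
      rw [card_erase_of_mem hx]
      omega
    rw [← insert_erase hx, sm_insert hxe, sum_congr rfl (fun a _ => ih _ hcard _), sum_const,
      card_univ, Fintype.card_fin, pow_succ, nsmul_eq_mul]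
    ring

/-- rounding up `r u / s` -/
def up (s : ℕ) (u : ℤ) : ℤ := u + (u + (-u) % s) / s

theorem up_spec (s : ℕ) (hs : 1 ≤ s) (u : ℤ) : s * up s u = (s + 1) * u + (-u) % s := by
  have h : (s : ℤ) ∣ u + (-u) % s := by
    have h1 := Int.emod_add_mul_ediv (-u) s
    refine ⟨-(-u / s), ?_⟩
    have : (-u) % s = -u - s * (-u / s) := by omega
    rw [this]
    ring
  unfold up
  rw [mul_add, Int.mul_ediv_cancel' h]
  ring

theorem up_closed (s : ℕ) (hs : 1 ≤ s) (κ : ℤ) (i : ℕ) :
    (s : ℤ) ^ i * (up s)^[i] κ = (s + 1) ^ i * κ +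
      ∑ j ∈ range i, ((-((up s)^[j] κ)) % s) * s ^ j * (s + 1) ^ (i - (j + 1)) := by
  induction i with
  | zero => simp
  | succ i ih =>
    rw [Function.iterate_succ_apply', sum_range_succ, Nat.sub_self, pow_zero, pow_succ,
      mul_assoc, up_spec s hs]
    have h : ∑ j ∈ range i, ((-((up s)^[j] κ)) % s) * (s : ℤ) ^ j * (s + 1) ^ (i + 1 - (j + 1)) =
        (s + 1) * ∑ j ∈ range i, ((-((up s)^[j] κ)) % s) * (s : ℤ) ^ j *
          (s + 1) ^ (i - (j + 1)) := by
      rw [mul_sum]
      apply sum_congr rfl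
      intro j hj
      rw [mem_range] at hj
      have : i + 1 - (j + 1) = (i - (j + 1)) + 1 := by omega
      rw [this, pow_succ]
      ring
    rw [h]
    have h2 : (s + 1 : ℤ) ^ (i + 1) * κ + ((s + 1) * ∑ j ∈ range i,
        ((-((up s)^[j] κ)) % s) * (s : ℤ) ^ j * (s + 1) ^ (i - (j + 1)) +
          -(up s)^[i] κ % ↑s * ↑s ^ i * 1) =
        (s + 1) * ((s + 1) ^ i * κ + ∑ j ∈ range i,
        ((-((up s)^[j] κ)) % s) * (s : ℤ) ^ j * (s + 1) ^ (i - (j + 1))) +
          -(up s)^[i] κ % ↑s * ↑s ^ i := by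
      ring
    rw [h2, ← ih]
    ring

theorem exists_w (s : ℕ) (hs : 1 ≤ s) (hr : r = s + 1) (κ : ℤ)
    (hcode : ∀ j, j < n → (-((up s)^[j] κ)) % s ≠ 0 → HasCode n (n - 1 - j) (Fin r)) :
    ∃ w : (Fin n → Fin r) → ℤ, (∀ c, κ ≤ av univ w c) ∧ ∑ t, w t = (up s)^[n] κ := by
  classical
  have hs0 : (s : ℤ) ≠ 0 := by exact_mod_cast (by omega : s ≠ 0)
  have hr' : (r : ℤ) = s + 1 := by exact_mod_cast hr
  set σ : ℕ → ℤ := fun j => (-((up s)^[j] κ)) % s with hσ
  have hσ0 : ∀ j, 0 ≤ σ j := fun j => Int.emod_nonneg _ hs0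
  have hL : ∀ j, ∃ L : (Fin n → Fin r) → ℤ, (∀ t, 0 ≤ L t) ∧ (j < n → σ j ≠ 0 →
      ∀ S : Finset (Fin n), j < S.card → ∀ c, sm S L c = (r : ℤ) ^ (S.card - (j + 1))) := by
    intro j
    by_cases hj : j < n ∧ σ j ≠ 0
    · obtain ⟨L, hL1, hL2⟩ := code_sm (by omega) (hcode j hj.1 hj.2)
      refine ⟨L, hL1, fun _ _ S hS c => hL2 _ S ?_ c⟩
      omega
    · exact ⟨fun _ => 0, fun _ => le_refl _, fun h1 h2 => absurd ⟨h1, h2⟩ hj⟩
  choose L hL1 hL2 using hL
  set B : (Fin n → Fin r) → ℤ := fun t => κ + ∑ j ∈ range n, (σ j * s ^ j) * L j t with hB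
  have hsm : ∀ S : Finset (Fin n), ∀ c, sm S B c = (s : ℤ) ^ S.card * (up s)^[S.card] κ +
      ∑ j ∈ range n, if j < S.card then 0 else σ j * s ^ j * sm S (L j) c := by
    intro S c
    have hSn : S.card ≤ n := by
      have := card_le_univ S
      rwa [Fintype.card_fin] at this
    have h1 : sm S B c = (r : ℤ) ^ S.card * κ + ∑ j ∈ range n, (σ j * s ^ j) * sm S (L j) c := by
      rw [hB, sm_add S (fun _ => κ) (fun t => ∑ j ∈ range n, (σ j * s ^ j) * L j t), sm_const,
        sm_sum]
      congr 1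
      apply sum_congr rfl
      intro j _
      rw [sm_mul]
    have h2 : ∀ j ∈ range n, (σ j * s ^ j) * sm S (L j) c =
        (if j < S.card then σ j * s ^ j * (s + 1) ^ (S.card - (j + 1)) else 0) +
        (if j < S.card then 0 else σ j * s ^ j * sm S (L j) c) := by
      intro j hj
      rw [mem_range] at hj
      by_cases hjS : j < S.card
      · rw [if_pos hjS, if_pos hjS, add_zero]
        by_cases h0 : σ j = 0
        · rw [h0]; ring
        · rw [hL2 j hj h0 S hjS c, hr']
      · rw [if_neg hjS, if_neg hjS, zero_add]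
    have h3 : (range n).filter (fun j => j < S.card) = range S.card := by
      ext j
      simp only [mem_filter, mem_range]
      omega
    rw [h1, sum_congr rfl h2, sum_add_distrib, ← sum_filter, h3, up_closed s hs, hr']
    ring
  obtain ⟨w, hw1, hw2⟩ := inversion s hs hr (univ : Finset (Fin n)) B (by
    intro S _ c
    rw [hsm]
    apply dvd_add (dvd_mul_right _ _)
    apply dvd_sum
    intro j _
    by_cases hjS : j < S.card
    · rw [if_pos hjS]; exact dvd_zero _
    · rw [if_neg hjS]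
      push Not at hjS
      exact Dvd.dvd.mul_right (Dvd.dvd.mul_left (pow_dvd_pow _ hjS) _) _)
  refine ⟨w, ?_, ?_⟩
  · intro c
    rw [hw1]
    have : 0 ≤ ∑ j ∈ range n, (σ j * s ^ j) * L j c := by
      apply sum_nonneg
      intro j _
      exact mul_nonneg (mul_nonneg (hσ0 j) (by positivity)) (hL1 j c)
    show κ ≤ κ + _
    omega
  · have hcard : (univ : Finset (Fin n)).card = n := by simp
    have h1 : ∑ t, B t = (s : ℤ) ^ n * (up s)^[n] κ := by
      rcases isEmpty_or_nonempty (Fin n → Fin r) with h | ⟨⟨c0⟩⟩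
      · exfalso
        have : 0 < r := by omega
        exact h.elim (fun _ => ⟨0, this⟩)
      · have := hsm univ c0
        rw [sm_univ, hcard] at this
        rw [this]
        have h2 : ∑ j ∈ range n, (if j < n then 0 else σ j * s ^ j * sm univ (L j) c0) = 0 := by
          apply sum_eq_zero
          intro j hj
          rw [if_pos (mem_range.1 hj)]
        rw [h2, add_zero]
    rw [hcard, h1] at hw2
    exact mul_left_cancel₀ (pow_ne_zero _ hs0) hw2

theorem card_avoid (c : Fin n → Fin r) :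
    (univ.filter (fun t : Fin n → Fin r => ∀ x, t x ≠ c x)).card = (r - 1) ^ n := by
  have : univ.filter (fun t : Fin n → Fin r => ∀ x, t x ≠ c x) =
      Fintype.piFinset (fun x => univ.erase (c x)) := by
    ext t
    simp [Fintype.mem_piFinset]
  rw [this, Fintype.card_piFinset]
  simp [card_erase_of_mem]

theorem card_miss (c : Fin n → Fin r) :
    (univ.filter (fun i : Fin r => ∀ x, i ≠ c x)).card + (univ.image c).card = r := by
  have : univ.filter (fun i : Fin r => ∀ x, i ≠ c x) = (univ.image c)ᶜ := by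
    ext i
    simp only [mem_filter, mem_univ, true_and, mem_compl, mem_image, not_exists]
    exact ⟨fun h x hx => h x hx.symm, fun h x hx => h x hx.symm⟩
  rw [this, card_compl, Fintype.card_fin]
  have h2 := card_le_univ (univ.image c)
  rw [Fintype.card_fin] at h2
  omega

/-- lower bound in a residue class -/
theorem lower_res (s : ℕ) (hs : 1 ≤ s) (hr : r = s + 1) (κ : ℤ) (m : ℕ)
    (hm : (up s)^[n] κ + r ≤ m)
    (hcode : ∀ j, j < n → (-((up s)^[j] κ)) % s ≠ 0 → HasCode n (n - 1 - j) (Fin r)) :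
    ∃ a0 : ℕ, ∀ a : ℕ, a0 ≤ a → κ + r + s ^ n * a ≤ tp r n (m + r ^ n * a) := by
  classical
  obtain ⟨w, hw1, hw2⟩ := exists_w s hs hr κ hcode
  have hr0 : 0 < r := by omega
  set v : (Fin n → Fin r) → ℤ := fun t => w t + ∑ i : Fin r, if t = (fun _ => i) then 1 else 0
    with hv
  have hvsum : ∑ t, v t = (up s)^[n] κ + r := by
    rw [hv, sum_add_distrib, hw2, sum_comm]
    simp
  have hvav : ∀ c, κ + r - ((univ.image c).card : ℤ) ≤
      ∑ t ∈ univ.filter (fun t : Fin n → Fin r => ∀ x, t x ≠ c x), v t := by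
    intro c
    have h1 := hw1 c
    rw [av_univ] at h1
    rw [hv, sum_add_distrib, sum_comm]
    have h2 : ∑ i : Fin r, ∑ t ∈ univ.filter (fun t : Fin n → Fin r => ∀ x, t x ≠ c x),
        (if t = (fun _ => i) then (1 : ℤ) else 0) =
        ((univ.filter (fun i : Fin r => ∀ x, i ≠ c x)).card : ℤ) := by
      rw [card_filter, Nat.cast_sum]
      apply sum_congr rfl
      intro i _
      rw [sum_ite_eq']
      simp only [mem_filter, mem_univ, true_and]
      split_ifs <;> simp
    rw [h2]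
    have h3 := card_miss c
    have h4 : ((univ.filter (fun i : Fin r => ∀ x, i ≠ c x)).card : ℤ) +
        ((univ.image c).card : ℤ) = r := by exact_mod_cast h3
    omega
  refine ⟨∑ t, (v t).natAbs, ?_⟩
  intro a ha
  have hnn : ∀ t, 0 ≤ v t + a := by
    intro t
    have h1 : (v t).natAbs ≤ ∑ t, (v t).natAbs :=
      single_le_sum (f := fun t => (v t).natAbs) (fun _ _ => Nat.zero_le _) (mem_univ t)
    omega
  have hcastsum : ∀ F : Finset (Fin n → Fin r),
      ((∑ t ∈ F, (v t + a).toNat : ℕ) : ℤ) = ∑ t ∈ F, v t + F.card * a := by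
    intro F
    rw [Nat.cast_sum, sum_congr rfl (fun t _ => Int.toNat_of_nonneg (hnn t)), sum_add_distrib,
      sum_const, nsmul_eq_mul]
  obtain ⟨k, hk⟩ : ∃ k : ℕ, κ + r + s ^ n * a ≤ k ∧
      ∀ c : Fin n → Fin r, k ≤
        ∑ t ∈ univ.filter (fun t : Fin n → Fin r => ∀ x, t x ≠ c x), (v t + a).toNat +
        (univ.image c).card := by
    refine ⟨(κ + r + s ^ n * a).toNat, Int.self_le_toNat _, ?_⟩
    intro c
    rw [Int.toNat_le]
    push_cast [hcastsum]
    rw [card_avoid]
    have h1 := hvav c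
    have h2 : r - 1 = s := by omega
    rw [h2]
    push_cast
    linarith
  refine hk.1.trans ?_
  have := le_tp_w (n := n) (m := m + r ^ n * a) hr0 (fun χ => part_total hr0 χ)
    (fun t => (v t + a).toNat) ?_ hk.2
  · exact_mod_cast this
  · have h1 := hcastsum univ
    rw [hvsum] at h1
    have h2 : (univ : Finset (Fin n → Fin r)).card = r ^ n := by simp
    rw [h2] at h1
    push_cast at h1
    have : ((∑ t, (v t + a).toNat : ℕ) : ℤ) ≤ ((m + r ^ n * a : ℕ) : ℤ) := by
      rw [Nat.cast_sum, Nat.cast_add, Nat.cast_mul, Nat.cast_pow]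
      linarith
    exact_mod_cast this

theorem hstep_shift (hr : 0 < r) (n M a : ℕ) :
    (hstep r)^[n] (M + r ^ n * a) = (hstep r)^[n] M + (r - 1) ^ n * a := by
  induction n generalizing M a with
  | zero => simp
  | succ n ih =>
    rw [Function.iterate_succ_apply, Function.iterate_succ_apply]
    have h1 : hstep r (M + r ^ (n + 1) * a) = hstep r M + r ^ n * ((r - 1) * a) := by
      unfold hstep
      have : (r - 1) * (M + r ^ (n + 1) * a) = (r - 1) * M + (r ^ n * ((r - 1) * a)) * r := by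
        ring
      rw [this, Nat.add_mul_div_right _ _ hr]
      ring
    rw [h1, ih]
    ring

theorem galois (s : ℕ) (hs : 1 ≤ s) (hr : r = s + 1) (ρ : ℕ) (n : ℕ) :
    (up s)^[n] (((hstep r)^[n] ρ : ℕ) - r : ℤ) + r ≤ ρ := by
  have hs0 : (0 : ℤ) < s := by exact_mod_cast hs
  have key : ∀ (u : ℤ) (M : ℕ), u + r ≤ hstep r M → up s u + r ≤ M := by
    intro u M h
    have h1 := up_spec s hs u
    have h2 : (-u) % s < s := Int.emod_lt_of_pos _ hs0
    have h3 : r * hstep r M ≤ r + s * M := by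
      unfold hstep
      rw [Nat.mul_add, Nat.mul_one]
      have := Nat.mul_div_le ((r - 1) * M) r
      have h4 : r - 1 = s := by omega
      rw [h4] at this ⊢
      omega
    have h3' : (r : ℤ) * hstep r M ≤ r + s * M := by exact_mod_cast h3
    have hr' : (r : ℤ) = s + 1 := by exact_mod_cast hr
    have h5 : (r : ℤ) * (u + r) ≤ r + s * M :=
      (mul_le_mul_of_nonneg_left h (by positivity)).trans h3'
    have h6 : (s : ℤ) * (up s u + r) < s * (M + 1) := by
      rw [mul_add, h1]
      rw [hr'] at h5 ⊢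
      nlinarith
    have h7 := lt_of_mul_lt_mul_left h6 hs0.le
    omega
  induction n with
  | zero => simp
  | succ n ih =>
    have hgen : ∀ i M, i ≤ n + 1 → M = (hstep r)^[n + 1 - i] ρ →
        (up s)^[i] (((hstep r)^[n + 1] ρ : ℕ) - r : ℤ) + r ≤ M := by
      intro i
      induction i with
      | zero =>
        intro M _ hM
        rw [hM]
        simp
      | succ i ihi =>
        intro M hi hM
        rw [Function.iterate_succ_apply']
        apply key
        have h1 := ihi _ (by omega) rfl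
        have h2 : (hstep r)^[n + 1 - i] ρ = hstep r M := by
          rw [hM, ← Function.iterate_succ_apply' (hstep r)]
          congr 2
          omega
        rw [h2] at h1
        exact h1
    have := hgen (n + 1) ρ (le_refl _) (by simp)
    exact this

theorem lower_exact (hr : 2 ≤ r) (hcode : ∀ k, k < n → HasCode n k (Fin r)) :
    ∃ m0 : ℕ, ∀ m, m0 ≤ m → (hstep r)^[n] m ≤ tp r n m := by
  classical
  obtain ⟨s, rfl⟩ : ∃ s, r = s + 1 := ⟨r - 1, by omega⟩
  have hs : 1 ≤ s := by omega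
  have hres : ∀ ρ : ℕ, ∃ a0 : ℕ, ∀ a : ℕ, a0 ≤ a →
      (hstep (s + 1))^[n] (ρ + (s + 1) ^ n * a) ≤ tp (s + 1) n (ρ + (s + 1) ^ n * a) := by
    intro ρ
    obtain ⟨a0, ha0⟩ := lower_res (n := n) s hs rfl
      (((hstep (s + 1))^[n] ρ : ℕ) - ((s + 1 : ℕ) : ℤ)) ρ (galois s hs rfl ρ n)
      (fun j hj _ => hcode _ (by omega))
    refine ⟨a0, fun a ha => ?_⟩
    have h1 := ha0 a ha
    rw [hstep_shift (by omega), Nat.add_sub_cancel]
    rw [sub_add_cancel] at h1
    exact_mod_cast h1
  choose a0 ha0 using hres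
  refine ⟨(s + 1) ^ n * (∑ ρ ∈ range ((s + 1) ^ n), a0 ρ), ?_⟩
  intro m hm
  have hpos : 0 < (s + 1) ^ n := by positivity
  have hρ : m % (s + 1) ^ n < (s + 1) ^ n := Nat.mod_lt _ hpos
  have hdiv := Nat.mod_add_div m ((s + 1) ^ n)
  have := ha0 (m % (s + 1) ^ n) (m / (s + 1) ^ n) (by
    have h1 : a0 (m % (s + 1) ^ n) ≤ ∑ ρ ∈ range ((s + 1) ^ n), a0 ρ :=
      single_le_sum (fun _ _ => Nat.zero_le _) (mem_range.2 hρ)
    refine h1.trans ?_
    rw [Nat.le_div_iff_mul_le hpos, Nat.mul_comm]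
    exact hm)
  rwa [hdiv] at this

end

end Pool.Agent.H948R3.TP
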