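import Pool.Agent.H948R3.TPSimple

set_option autoImplicit false

namespace Pool.Agent.H948R3.TP

open Finset

section

variable {n r : ℕ}

/-- weight of the words avoiding `c` on `T` -/
def wt (v : (Fin n → Fin r) → ℤ) (T : Finset (Fin n)) (c : Fin n → Fin r) : ℤ :=
  ∑ t ∈ univ.filter (fun t : Fin n → Fin r => ∀ x, x ∈ T → t x ≠ c x), v t

theorem wt_congr (v : (Fin n → Fin r) → ℤ) {T : Finset (Fin n)} {c d : Fin n → Fin r}
    (h : ∀ x ∈ T, c x = d x) : wt v T c = wt v T d := by
  unfold wt
  apply sum_congr _ (fun _ _ => rfl)
  ext t
  simp only [mem_filter, mem_univ, true_and]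
  constructor
  · intro h1 x hx
    rw [← h x hx]; exact h1 x hx
  · intro h1 x hx
    rw [h x hx]; exact h1 x hx

theorem wt_empty (v : (Fin n → Fin r) → ℤ) (c : Fin n → Fin r) : wt v ∅ c = ∑ t, v t := by
  unfold wt
  congr 1
  ext t
  simp

theorem wt_line (v : (Fin n → Fin r) → ℤ) {T : Finset (Fin n)} {x : Fin n} (hx : x ∉ T)
    (c : Fin n → Fin r) :
    ∑ a : Fin r, wt v (insert x T) (Function.update c x a) = ((r - 1 : ℕ) : ℤ) * wt v T c := by
  classical
  unfold wt
  have h1 : ∀ a : Fin r, univ.filter (fun t : Fin n → Fin r => ∀ z, z ∈ insert x T →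
      t z ≠ Function.update c x a z) =
      (univ.filter (fun t : Fin n → Fin r => ∀ z, z ∈ T → t z ≠ c z)).filter
        (fun t => t x ≠ a) := by
    intro a
    ext t
    simp only [mem_filter, mem_univ, true_and, mem_insert, forall_eq_or_imp,
      Function.update_self]
    constructor
    · rintro ⟨h1, h2⟩
      refine ⟨fun z hz => ?_, h1⟩
      have hzx : z ≠ x := fun h => hx (h ▸ hz)
      have := h2 z hz
      rwa [Function.update_of_ne hzx] at this
    · rintro ⟨h1, h2⟩
      refine ⟨h2, fun z hz => ?_⟩
      have hzx : z ≠ x := fun h => hx (h ▸ hz)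
      rw [Function.update_of_ne hzx]
      exact h1 z hz
  rw [sum_congr rfl (fun a _ => by rw [h1 a, sum_filter]), sum_comm, mul_sum]
  apply sum_congr rfl
  intro t _
  rw [← sum_filter, sum_const, nsmul_eq_mul]
  have h2 : univ.filter (fun a : Fin r => t x ≠ a) = univ.erase (t x) := by
    ext a
    simp only [mem_filter, mem_univ, true_and, mem_erase, and_true, ne_eq]
    exact ⟨fun h h' => h h'.symm, fun h h' => h h'.symm⟩
  rw [h2, card_erase_of_mem (mem_univ _), card_univ, Fintype.card_fin]

/-- extraction of an orthogonal array from a tight system of weights -/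
theorem extract (s k : ℕ) (hs : 2 ≤ s) (hr : r = s + 1) (hk : k < n)
    (v : (Fin n → Fin r) → ℤ) (g : ℕ → ℤ)
    (hg : ∀ τ, τ < n → s * g τ = r * g (τ + 1) + (if τ = k then 1 else 0))
    (h0 : ∑ t, v t = g 0) (hE : ∀ c, g n ≤ wt v univ c) : HasCode n k (Fin r) := by
  classical
  have hcardn : (univ : Finset (Fin n)).card = n := by simp
  have hs' : ((r - 1 : ℕ) : ℤ) = s := by
    have : r - 1 = s := by omega
    rw [this]
  -- the excess
  let D : Finset (Fin n) → (Fin n → Fin r) → ℤ := fun T c => wt v T c - g T.card
  have hDline : ∀ (T : Finset (Fin n)) (x : Fin n), x ∉ T → ∀ c,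
      ∑ a : Fin r, D (insert x T) (Function.update c x a) = s * D T c +
        (if T.card = k then 1 else 0) := by
    intro T x hx c
    have hTn : T.card < n := by
      have h1 : (insert x T).card ≤ n := by
        have := card_le_univ (insert x T)
        rwa [Fintype.card_fin] at this
      rw [card_insert_of_notMem hx] at h1
      omega
    show ∑ a : Fin r, (wt v (insert x T) (Function.update c x a) - g (insert x T).card) =
      s * (wt v T c - g T.card) + _
    rw [sum_sub_distrib, wt_line v hx, hs', sum_const, card_univ, Fintype.card_fin,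
      card_insert_of_notMem hx, nsmul_eq_mul, mul_sub, hg T.card hTn]
    ring
  have hDcongr : ∀ (T : Finset (Fin n)) (c d : Fin n → Fin r), (∀ x ∈ T, c x = d x) →
      D T c = D T d := by
    intro T c d h
    show wt v T c - _ = wt v T d - _
    rw [wt_congr v h]
  have hDuniv : ∀ c, 0 ≤ D univ c := by
    intro c
    have := hE c
    show 0 ≤ wt v univ c - g (univ : Finset (Fin n)).card
    rw [hcardn]
    omega
  -- nonnegativity
  have hDnn : ∀ (e : ℕ) (T : Finset (Fin n)), T.card + e = n → ∀ c, 0 ≤ D T c := by
    intro e
    induction e with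
    | zero =>
      intro T hT c
      have : T = univ := by
        rw [← card_eq_iff_eq_univ, Fintype.card_fin]
        omega
      rw [this]
      exact hDuniv c
    | succ e ih =>
      intro T hT c
      obtain ⟨x, hx⟩ : ∃ x, x ∉ T := by
        by_contra hcon
        push Not at hcon
        have : T = univ := eq_univ_of_forall hcon
        rw [this, hcardn] at hT
        omega
      have h1 := hDline T x hx c
      have h2 : 0 ≤ ∑ a : Fin r, D (insert x T) (Function.update c x a) := by
        apply sum_nonneg
        intro a _
        apply ih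
        rw [card_insert_of_notMem hx]
        omega
      rw [h1] at h2
      by_contra hneg
      push Not at hneg
      have h3 : (s : ℤ) * D T c ≤ s * (-1) := by
        apply mul_le_mul_of_nonneg_left _ (by positivity)
        omega
      have h4 : (2 : ℤ) ≤ s := by exact_mod_cast hs
      split_ifs at h2 <;> omega
  have hnn : ∀ T c, 0 ≤ D T c := by
    intro T c
    have hT : T.card ≤ n := by
      have := card_le_univ T
      rwa [Fintype.card_fin] at this
    exact hDnn (n - T.card) T (by omega) c
  -- vanishing for small sets
  have hzero : ∀ T : Finset (Fin n), T.card ≤ k → ∀ c, D T c = 0 := by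
    intro T
    induction T using Finset.induction_on with
    | empty =>
      intro _ c
      show wt v ∅ c - g (∅ : Finset (Fin n)).card = 0
      rw [wt_empty, card_empty, h0, sub_self]
    | insert x T hx ih =>
      intro hT c
      rw [card_insert_of_notMem hx] at hT
      have h1 := hDline T x hx c
      rw [ih (by omega), mul_zero, if_neg (by omega), add_zero] at h1
      have h2 := (sum_eq_zero_iff_of_nonneg (fun a _ => hnn _ _)).1 h1 (c x) (mem_univ _)
      rwa [Function.update_eq_self] at h2
  -- lines for sets of size k
  have hline1 : ∀ (T : Finset (Fin n)) (x : Fin n), x ∉ T → T.card = k → ∀ c,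
      ∑ a : Fin r, D (insert x T) (Function.update c x a) = 1 := by
    intro T x hx hT c
    rw [hDline T x hx c, hzero T hT.le, if_pos hT]
    ring
  -- going down
  have hdown : ∀ (c : Fin n → Fin r), 0 < D univ c → ∀ (e : ℕ) (T : Finset (Fin n)),
      T.card + e = n → k < T.card → 0 < D T c := by
    intro c hc e
    induction e with
    | zero =>
      intro T hT _
      have : T = univ := by
        rw [← card_eq_iff_eq_univ, Fintype.card_fin]
        omega
      rw [this]
      exact hc
    | succ e ih =>
      intro T hT hkT
      obtain ⟨x, hx⟩ : ∃ x, x ∉ T := by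
        by_contra hcon
        push Not at hcon
        have : T = univ := eq_univ_of_forall hcon
        rw [this, hcardn] at hT
        omega
      have h1 := hDline T x hx c
      rw [if_neg (by omega), add_zero] at h1
      have h2 := ih (insert x T) (by rw [card_insert_of_notMem hx]; omega)
        (by rw [card_insert_of_notMem hx]; omega)
      by_contra hneg
      have h3 : D T c = 0 := le_antisymm (not_lt.1 hneg) (hnn T c)
      rw [h3, mul_zero] at h1
      have h4 := (sum_eq_zero_iff_of_nonneg (fun a _ => hnn _ _)).1 h1 (c x) (mem_univ _)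
      rw [Function.update_eq_self] at h4
      omega
  -- going up
  have hup : ∀ (e : ℕ) (T : Finset (Fin n)), T.card + e = n → k < T.card → ∀ c, 0 < D T c →
      ∃ t, (∀ x ∈ T, t x = c x) ∧ 0 < D univ t := by
    intro e
    induction e with
    | zero =>
      intro T hT _ c hc
      have : T = univ := by
        rw [← card_eq_iff_eq_univ, Fintype.card_fin]
        omega
      rw [this] at hc
      exact ⟨c, fun _ _ => rfl, hc⟩
    | succ e ih =>
      intro T hT hkT c hc
      obtain ⟨x, hx⟩ : ∃ x, x ∉ T := by
        by_contra hcon
        push Not at hcon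
        have : T = univ := eq_univ_of_forall hcon
        rw [this, hcardn] at hT
        omega
      have h1 := hDline T x hx c
      rw [if_neg (by omega), add_zero] at h1
      have h2 : ∃ a, 0 < D (insert x T) (Function.update c x a) := by
        by_contra hcon
        push Not at hcon
        have h3 : ∑ a : Fin r, D (insert x T) (Function.update c x a) ≤ 0 :=
          sum_nonpos (fun a _ => hcon a)
        rw [h1] at h3
        have h4 : 0 < (s : ℤ) * D T c := by positivity
        omega
      obtain ⟨a, ha⟩ := h2
      obtain ⟨t, ht1, ht2⟩ := ih (insert x T) (by rw [card_insert_of_notMem hx]; omega)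
        (by rw [card_insert_of_notMem hx]; omega) _ ha
      refine ⟨t, fun z hz => ?_, ht2⟩
      have hzx : z ≠ x := fun h => hx (h ▸ hz)
      have := ht1 z (mem_insert_of_mem hz)
      rwa [Function.update_of_ne hzx] at this
  refine ⟨{t | 0 < D univ t}, ?_⟩
  intro T hT c
  have hex : ∃ t, 0 < D univ t ∧ ∀ x ∈ T, t x = c x := by
    obtain ⟨x, hx⟩ : ∃ x, x ∉ T := by
      by_contra hcon
      push Not at hcon
      have : T = univ := eq_univ_of_forall hcon
      rw [this, hcardn] at hT
      omega
    have h1 := hline1 T x hx hT c
    have h2 : ∃ a, 0 < D (insert x T) (Function.update c x a) := by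
      by_contra hcon
      push Not at hcon
      have h3 : ∑ a : Fin r, D (insert x T) (Function.update c x a) ≤ 0 :=
        sum_nonpos (fun a _ => hcon a)
      rw [h1] at h3
      omega
    obtain ⟨a, ha⟩ := h2
    obtain ⟨t, ht1, ht2⟩ := hup (n - (k + 1)) (insert x T)
      (by rw [card_insert_of_notMem hx]; omega) (by rw [card_insert_of_notMem hx]; omega) _ ha
    refine ⟨t, ht2, fun z hz => ?_⟩
    have hzx : z ≠ x := fun h => hx (h ▸ hz)
    have := ht1 z (mem_insert_of_mem hz)
    rwa [Function.update_of_ne hzx] at this
  obtain ⟨t, ht1, ht2⟩ := hex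
  refine ⟨t, ⟨ht1, ht2⟩, ?_⟩
  rintro u ⟨hu1, hu2⟩
  funext z
  by_cases hz : z ∈ T
  · rw [hu2 z hz, ht2 z hz]
  · by_contra hne
    have hcard : (insert z T).card = k + 1 := by rw [card_insert_of_notMem hz, hT]
    have h1 := hdown t ht1 (n - (k + 1)) (insert z T) (by omega) (by omega)
    have h2 := hdown u hu1 (n - (k + 1)) (insert z T) (by omega) (by omega)
    have h3 := hline1 T z hz hT t
    have h4 : D (insert z T) u = D (insert z T) (Function.update t z (u z)) := by
      apply hDcongr
      intro x hx
      by_cases hxz : x = z
      · rw [hxz, Function.update_self]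
      · rw [Function.update_of_ne hxz]
        rcases mem_insert.1 hx with h | h
        · exact absurd h hxz
        · rw [hu2 x h, ht2 x h]
    have h5 : D (insert z T) t = D (insert z T) (Function.update t z (t z)) := by
      rw [Function.update_eq_self]
    rw [h4] at h2
    rw [h5] at h1
    have h6 : ∑ a ∈ ({u z, t z} : Finset (Fin r)), D (insert z T) (Function.update t z a) ≤
        ∑ a : Fin r, D (insert z T) (Function.update t z a) :=
      sum_le_sum_of_subset_of_nonneg (subset_univ _) (fun a _ _ => hnn _ _)
    rw [sum_pair hne, h3] at h6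
    omega

end

end Pool.Agent.H948R3.TP
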