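import Pool.Agent.H948R3.TPOA

set_option autoImplicit false

namespace Pool.Agent.H948R3.TP

open Finset

section

variable {n r : ℕ}

/-- the tight sequence -/
def gseq (r n k a b τ : ℕ) : ℕ :=
  if τ ≤ k then r ^ (k - τ) * (r - 1) ^ τ * a else r ^ (n - τ) * (r - 1) ^ (τ - k - 1) * b

theorem gseq_rec {k a b : ℕ} (hab : (r - 1) ^ (k + 1) * a = r ^ (n - k) * b + 1)
    (τ : ℕ) (hτ : τ < n) :
    (r - 1) * gseq r n k a b τ = r * gseq r n k a b (τ + 1) + (if τ = k then 1 else 0) := by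
  unfold gseq
  rcases lt_trichotomy τ k with h | h | h
  · rw [if_pos (by omega), if_pos (by omega), if_neg (by omega)]
    have : k - τ = (k - (τ + 1)) + 1 := by omega
    rw [this, pow_succ, pow_succ]
    ring
  · subst h
    rw [if_pos (le_refl _), if_neg (by omega), if_pos rfl]
    have h1 : n - τ = (n - (τ + 1)) + 1 := by omega
    have h2 : τ + 1 - τ - 1 = 0 := by omega
    rw [h2, pow_zero, Nat.sub_self, pow_zero, mul_one, one_mul]
    rw [h1] at hab
    calc (r - 1) * ((r - 1) ^ τ * a) = (r - 1) ^ (τ + 1) * a := by ring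
      _ = r ^ (n - (τ + 1) + 1) * b + 1 := hab
      _ = _ := by ring
  · rw [if_neg (by omega), if_neg (by omega), if_neg (by omega)]
    have h1 : n - τ = (n - (τ + 1)) + 1 := by omega
    have h2 : τ + 1 - k - 1 = (τ - k - 1) + 1 := by omega
    rw [h1, h2]
    ring

theorem gseq_zero {k a b : ℕ} : gseq r n k a b 0 = r ^ k * a := by
  unfold gseq
  rw [if_pos (Nat.zero_le _)]
  simp

theorem gseq_last {k a b : ℕ} (hk : k < n) :
    gseq r n k a b n = (r - 1) ^ (n - 1 - k) * b := by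
  unfold gseq
  rw [if_neg (by omega), Nat.sub_self, pow_zero, one_mul]
  have : n - k - 1 = n - 1 - k := by omega
  rw [this]

theorem iter_gseq (hr : 2 ≤ r) {k a b : ℕ}
    (hab : (r - 1) ^ (k + 1) * a = r ^ (n - k) * b + 1) (τ : ℕ) (hτ : τ ≤ n) :
    (hstep r)^[τ] (r + r ^ k * a) = r + gseq r n k a b τ := by
  induction τ with
  | zero => rw [gseq_zero]; rfl
  | succ τ ih =>
    rw [Function.iterate_succ_apply', ih (by omega)]
    unfold hstep
    rw [Nat.mul_add, Nat.add_comm ((r - 1) * r), Nat.add_mul_div_right _ _ (by omega),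
      gseq_rec hab τ (by omega), Nat.mul_comm r, Nat.add_comm (gseq r n k a b (τ + 1) * r),
      Nat.add_mul_div_right _ _ (by omega)]
    have : (if τ = k then 1 else 0) / r = 0 := by
      apply Nat.div_eq_of_lt
      split_ifs <;> omega
    rw [this]
    omega

theorem up_eq {s : ℕ} (hs : 1 ≤ s) {u u' σ : ℤ} (h : s * u' = (s + 1) * u + σ)
    (h0 : 0 ≤ σ) (h1 : σ < s) : up s u = u' ∧ (-u) % s = σ := by
  have hs0 : (0 : ℤ) < s := by exact_mod_cast hs
  have h2 := up_spec s hs u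
  have h3 := Int.emod_nonneg (-u) hs0.ne'
  have h4 := Int.emod_lt_of_pos (-u) hs0
  have h5 : (s : ℤ) * (up s u - u') = (-u) % s - σ := by
    rw [mul_sub, h2, h]; ring
  have h6 : up s u - u' = 0 := by
    by_contra hne
    rcases lt_or_gt_of_ne hne with h | h
    · have : (s : ℤ) * (up s u - u') ≤ s * (-1) :=
        mul_le_mul_of_nonneg_left (by omega) hs0.le
      omega
    · have : (s : ℤ) * 1 ≤ s * (up s u - u') :=
        mul_le_mul_of_nonneg_left (by omega) hs0.le
      omega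
  constructor
  · omega
  · rw [h6, mul_zero] at h5
    omega

theorem up_gseq (s : ℕ) (hs : 2 ≤ s) {k a b : ℕ} (hk : k < n)
    (hab : s ^ (k + 1) * a = (s + 1) ^ (n - k) * b + 1) (i : ℕ) (hi : i ≤ n) :
    (up s)^[i] ((gseq (s + 1) n k a b n : ℕ) : ℤ) = gseq (s + 1) n k a b (n - i) := by
  induction i with
  | zero => simp
  | succ i ih =>
    rw [Function.iterate_succ_apply', ih (by omega)]
    have h1 := gseq_rec (r := s + 1) (n := n) (k := k) (a := a) (b := b)
      (by rw [Nat.add_sub_cancel]; exact hab) (n - (i + 1)) (by omega)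
    have h2 : n - (i + 1) + 1 = n - i := by omega
    rw [Nat.add_sub_cancel, h2] at h1
    have h3 : (s : ℤ) * (gseq (s + 1) n k a b (n - (i + 1)) : ℕ) =
        (s + 1) * (gseq (s + 1) n k a b (n - i) : ℕ) +
        ((if n - (i + 1) = k then 1 else 0 : ℕ) : ℤ) := by exact_mod_cast h1
    refine (up_eq (by omega) h3 (by positivity) ?_).1
    have : (2 : ℤ) ≤ s := by exact_mod_cast hs
    split_ifs <;> push_cast <;> omega

theorem up_gseq_carry (s : ℕ) (hs : 2 ≤ s) {k a b : ℕ} (hk : k < n)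
    (hab : s ^ (k + 1) * a = (s + 1) ^ (n - k) * b + 1) (i : ℕ) (hi : i < n)
    (hc : (-((up s)^[i] ((gseq (s + 1) n k a b n : ℕ) : ℤ))) % s ≠ 0) : n - 1 - i = k := by
  rw [up_gseq s hs hk hab i hi.le] at hc
  have h1 := gseq_rec (r := s + 1) (n := n) (k := k) (a := a) (b := b)
    (by rw [Nat.add_sub_cancel]; exact hab) (n - (i + 1)) (by omega)
  have h2 : n - (i + 1) + 1 = n - i := by omega
  rw [Nat.add_sub_cancel, h2] at h1
  have h3 : (s : ℤ) * (gseq (s + 1) n k a b (n - (i + 1)) : ℕ) =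
      (s + 1) * (gseq (s + 1) n k a b (n - i) : ℕ) +
      ((if n - (i + 1) = k then 1 else 0 : ℕ) : ℤ) := by exact_mod_cast h1
  have h4 := (up_eq (by omega) h3 (by positivity) (by
    have : (2 : ℤ) ≤ s := by exact_mod_cast hs
    split_ifs <;> push_cast <;> omega)).2
  rw [h4] at hc
  by_contra hne
  rw [if_neg (by omega)] at hc
  exact hc rfl

theorem oa_lower (s : ℕ) (hs : 2 ≤ s) {k : ℕ} (hk : k < n) (hcode : HasCode n k (Fin (s + 1)))
    (a b : ℕ) (hab : s ^ (k + 1) * a = (s + 1) ^ (n - k) * b + 1) :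
    ∃ l0 : ℕ, ∀ l : ℕ, l0 ≤ l → (s + 1) + s ^ (n - 1 - k) * (b + s ^ (k + 1) * l) ≤
      tp (s + 1) n ((s + 1) + (s + 1) ^ k * (a + (s + 1) ^ (n - k) * l)) := by
  have h1 : (up s)^[n] ((gseq (s + 1) n k a b n : ℕ) : ℤ) + ((s + 1 : ℕ) : ℤ) ≤
      (((s + 1) + (s + 1) ^ k * a : ℕ) : ℤ) := by
    rw [up_gseq s hs hk hab n (le_refl _), Nat.sub_self, gseq_zero]
    push_cast
    linarith
  obtain ⟨l0, hl0⟩ := lower_res (n := n) s (by omega) rfl _ _ h1 (by
    intro j hj hc
    rw [up_gseq_carry s hs hk hab j hj hc]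
    exact hcode)
  refine ⟨l0, fun l hl => ?_⟩
  have h2 := hl0 l hl
  rw [gseq_last hk, Nat.add_sub_cancel] at h2
  have h3 : (s + 1) + (s + 1) ^ k * (a + (s + 1) ^ (n - k) * l) =
      (s + 1) + (s + 1) ^ k * a + (s + 1) ^ n * l := by
    have : (s + 1) ^ n = (s + 1) ^ k * (s + 1) ^ (n - k) := by
      rw [← pow_add]; congr 1; omega
    rw [this]
    ring
  have h4 : (s + 1) + s ^ (n - 1 - k) * (b + s ^ (k + 1) * l) =
      s ^ (n - 1 - k) * b + (s + 1) + s ^ n * l := by
    have : s ^ n = s ^ (n - 1 - k) * s ^ (k + 1) := by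
      rw [← pow_add]; congr 1; omega
    rw [this]
    ring
  rw [h3, h4]
  exact_mod_cast h2

theorem oa_lower' (s : ℕ) (hs : 2 ≤ s) {k : ℕ} (hk : k < n)
    (hcode : HasCode n k (Fin (s + 1))) :
    ∃ a0 : ℕ, ∀ a b : ℕ, a0 ≤ a → s ^ (k + 1) * a = (s + 1) ^ (n - k) * b + 1 →
      (s + 1) + s ^ (n - 1 - k) * b ≤ tp (s + 1) n ((s + 1) + (s + 1) ^ k * a) := by
  classical
  have hres : ∀ ρ : ℕ, ∃ l0 : ℕ, ∀ b', s ^ (k + 1) * ρ = (s + 1) ^ (n - k) * b' + 1 →
      ∀ l : ℕ, l0 ≤ l → (s + 1) + s ^ (n - 1 - k) * (b' + s ^ (k + 1) * l) ≤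
      tp (s + 1) n ((s + 1) + (s + 1) ^ k * (ρ + (s + 1) ^ (n - k) * l)) := by
    intro ρ
    by_cases h : ∃ b', s ^ (k + 1) * ρ = (s + 1) ^ (n - k) * b' + 1
    · obtain ⟨b', hb'⟩ := h
      obtain ⟨l0, hl0⟩ := oa_lower s hs hk hcode ρ b' hb'
      refine ⟨l0, fun b'' hb'' => ?_⟩
      have : b'' = b' := by
        have h1 : (s + 1) ^ (n - k) * b'' = (s + 1) ^ (n - k) * b' := by omega
        exact Nat.eq_of_mul_eq_mul_left (by positivity) h1
      rw [this]
      exact hl0
    · exact ⟨0, fun b' hb' => absurd ⟨b', hb'⟩ h⟩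
  choose l0 hl0 using hres
  refine ⟨(s + 1) ^ (n - k) * (∑ ρ ∈ range ((s + 1) ^ (n - k)), l0 ρ), ?_⟩
  intro a b ha hab
  have hpos : 0 < (s + 1) ^ (n - k) := by positivity
  have hρ : a % (s + 1) ^ (n - k) < (s + 1) ^ (n - k) := Nat.mod_lt _ hpos
  have hdiv := Nat.mod_add_div a ((s + 1) ^ (n - k))
  set ρ := a % (s + 1) ^ (n - k) with hρd
  set l := a / (s + 1) ^ (n - k) with hld
  have hl : l0 ρ ≤ l := by
    have h1 : l0 ρ ≤ ∑ ρ ∈ range ((s + 1) ^ (n - k)), l0 ρ :=
      single_le_sum (fun _ _ => Nat.zero_le _) (mem_range.2 hρ)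
    refine h1.trans ?_
    rw [hld, Nat.le_div_iff_mul_le hpos, Nat.mul_comm]
    exact ha
  -- the base solution
  have h2 : s ^ (k + 1) * ρ + (s + 1) ^ (n - k) * (s ^ (k + 1) * l) =
      (s + 1) ^ (n - k) * b + 1 := by
    rw [← hab, ← hdiv]; ring
  have hnk : 1 < (s + 1) ^ (n - k) := Nat.one_lt_pow (by omega) (by omega)
  have h3 : s ^ (k + 1) * l ≤ b := by
    by_contra hcon
    push Not at hcon
    have h4 : (s + 1) ^ (n - k) * (b + 1) ≤ (s + 1) ^ (n - k) * (s ^ (k + 1) * l) :=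
      Nat.mul_le_mul_left _ hcon
    rw [Nat.mul_add, Nat.mul_one] at h4
    omega
  obtain ⟨b', rfl⟩ : ∃ b', b = b' + s ^ (k + 1) * l := ⟨b - s ^ (k + 1) * l, by omega⟩
  have h5 : s ^ (k + 1) * ρ = (s + 1) ^ (n - k) * b' + 1 := by
    rw [Nat.mul_add] at h2
    omega
  have := hl0 ρ b' h5 l hl
  rwa [hdiv] at this

/-- the weights of a colouring -/
theorem oa_extract {m : ℕ} (s : ℕ) (hs : 2 ≤ s) (hr : r = s + 1) {k : ℕ} (hk : k < n)
    (g : ℕ → ℤ) (hg : ∀ τ, τ < n → s * g τ = r * g (τ + 1) + (if τ = k then 1 else 0))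
    (χ : Fin n → Fin m → Fin r) (hm : (m : ℤ) = r + g 0)
    (h : ∀ c : Fin n → Fin r, (r : ℤ) + g n ≤
      ((univ.filter (fun y => ∀ x, χ x y ≠ c x)).card + (univ.image c).card : ℕ)) :
    HasCode n k (Fin r) := by
  classical
  let ty : Fin m → (Fin n → Fin r) := fun y x => χ x y
  let w : (Fin n → Fin r) → ℕ := fun t => (univ.filter (fun y => ty y = t)).card
  have hw : ∀ F : Finset (Fin n → Fin r), ∑ t ∈ F, w t =
      (univ.filter (fun y => ty y ∈ F)).card := by
    intro F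
    rw [card_eq_sum_card_fiberwise (f := ty) (t := F) (fun y hy => by
      rw [mem_coe, mem_filter] at hy
      exact hy.2)]
    apply sum_congr rfl
    intro t ht
    show (univ.filter (fun y => ty y = t)).card = _
    congr 1
    ext y
    simp only [mem_filter, mem_univ, true_and]
    exact ⟨fun h => ⟨h ▸ ht, h⟩, fun h => h.2⟩
  refine extract s k hs hr hk
    (fun t => (w t : ℤ) - ∑ i : Fin r, if t = (fun _ => i) then 1 else 0) g hg ?_ ?_
  · rw [sum_sub_distrib, sum_comm, ← Nat.cast_sum, hw]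
    simp only [mem_univ, filter_true, card_univ, Fintype.card_fin, sum_ite_eq', if_true,
      sum_const, nsmul_eq_mul, mul_one]
    omega
  · intro c
    unfold wt
    simp only [mem_univ, forall_const]
    rw [sum_sub_distrib, sum_comm, ← Nat.cast_sum, hw]
    have h2 : ∑ i : Fin r, ∑ t ∈ univ.filter (fun t : Fin n → Fin r => ∀ x, t x ≠ c x),
        (if t = (fun _ => i) then (1 : ℤ) else 0) =
        ((univ.filter (fun i : Fin r => ∀ x, i ≠ c x)).card : ℤ) := by
      rw [card_filter, Nat.cast_sum]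
      apply sum_congr rfl
      intro i _
      rw [sum_ite_eq']
      simp only [mem_filter, mem_univ, true_and]
      split_ifs <;> simp
    rw [h2]
    have h3 := card_miss c
    have h4 : ((univ.filter (fun i : Fin r => ∀ x, i ≠ c x)).card : ℤ) +
        ((univ.image c).card : ℤ) = r := by exact_mod_cast h3
    have h5 := h c
    have h6 : univ.filter (fun y => ty y ∈ univ.filter
        (fun t : Fin n → Fin r => ∀ x, t x ≠ c x)) =
        univ.filter (fun y => ∀ x, χ x y ≠ c x) := by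
      ext y
      simp [ty]
    rw [h6]
    push_cast at h5
    omega

theorem oa_iff (hr : 3 ≤ r) {k : ℕ} (hk : k < n) :
    ∃ a0 : ℕ, ∀ a b : ℕ, a0 ≤ a → (r - 1) ^ (k + 1) * a = r ^ (n - k) * b + 1 →
      tp r n (r + r ^ k * a) ≤ r + (r - 1) ^ (n - 1 - k) * b ∧
      (tp r n (r + r ^ k * a) = r + (r - 1) ^ (n - 1 - k) * b ↔ HasCode n k (Fin r)) := by
  classical
  obtain ⟨s, rfl⟩ : ∃ s, r = s + 1 := ⟨r - 1, by omega⟩
  rw [Nat.add_sub_cancel]
  have hs : 2 ≤ s := by omega
  -- the value of the iterate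
  have hval : ∀ a b : ℕ, s ^ (k + 1) * a = (s + 1) ^ (n - k) * b + 1 →
      (hstep (s + 1))^[n] ((s + 1) + (s + 1) ^ k * a) = (s + 1) + s ^ (n - 1 - k) * b := by
    intro a b hab
    have h1 := iter_gseq (r := s + 1) (n := n) (k := k) (a := a) (b := b) (by omega)
      (by rw [Nat.add_sub_cancel]; exact hab) n (le_refl _)
    rw [gseq_last hk, Nat.add_sub_cancel] at h1
    exact h1
  have hup : ∀ a b : ℕ, thr (s + 1) n ≤ a → s ^ (k + 1) * a = (s + 1) ^ (n - k) * b + 1 →
      tp (s + 1) n ((s + 1) + (s + 1) ^ k * a) ≤ (s + 1) + s ^ (n - 1 - k) * b := by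
    intro a b ha hab
    rw [← hval a b hab]
    apply tp_le_iter (by omega)
    have h2 : 1 * a ≤ (s + 1) ^ k * a := Nat.mul_le_mul_right _ (Nat.one_le_pow _ _ (by omega))
    omega
  by_cases H : HasCode n k (Fin (s + 1))
  · obtain ⟨a0, ha0⟩ := oa_lower' s hs hk H
    refine ⟨max a0 (thr (s + 1) n), fun a b ha hab => ?_⟩
    have h1 := hup a b ((le_max_right _ _).trans ha) hab
    have h2 := ha0 a b ((le_max_left _ _).trans ha) hab
    exact ⟨h1, fun _ => H, fun _ => le_antisymm h1 h2⟩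
  · refine ⟨thr (s + 1) n, fun a b ha hab => ?_⟩
    have h1 := hup a b ha hab
    refine ⟨h1, fun heq => ?_, fun h => absurd h H⟩
    exfalso
    have h2 : tp (s + 1) n ((s + 1) + (s + 1) ^ k * a) ≤ (s + 1) + s ^ (n - 1 - k) * b - 1 := by
      refine upper_large (by omega) ?_ _ ?_ ?_
      · have h2 : 1 * a ≤ (s + 1) ^ k * a :=
          Nat.mul_le_mul_right _ (Nat.one_le_pow _ _ (by omega))
        omega
      · have h3 := hstep_iter_ge (r := s + 1) (by omega) n ((s + 1) + (s + 1) ^ k * a)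
        rw [hval a b hab] at h3
        refine h3.trans (Nat.mul_le_mul_left _ ?_)
        omega
      · intro χ
        by_contra hcon
        push Not at hcon
        apply H
        refine oa_extract s hs rfl hk (fun τ => (gseq (s + 1) n k a b τ : ℤ)) ?_ χ ?_ ?_
        · intro τ hτ
          have h3 := gseq_rec (r := s + 1) (n := n) (k := k) (a := a) (b := b)
            (by rw [Nat.add_sub_cancel]; exact hab) τ hτ
          rw [Nat.add_sub_cancel] at h3
          have h4 : ((s * gseq (s + 1) n k a b τ : ℕ) : ℤ) =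
            (((s + 1) * gseq (s + 1) n k a b (τ + 1) + if τ = k then 1 else 0 : ℕ) : ℤ) := by
            rw [h3]
          push_cast at h4 ⊢
          exact h4
        · rw [gseq_zero]
          push_cast
          ring
        · intro c
          have h3 := hcon c
          rw [gseq_last hk, Nat.add_sub_cancel]
          have h4 : (s + 1) + s ^ (n - 1 - k) * b ≤
              (univ.filter (fun y => ∀ x, χ x y ≠ c x)).card + (univ.image c).card := by
            omega
          exact_mod_cast h4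
    omega

end

end Pool.Agent.H948R3.TP
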