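import Pool.Agent.H948R3.TPGen

set_option autoImplicit false

namespace Pool.Agent.H948R3.TP

open Sum

section

variable {X Y : Type} {r : ℕ}

theorem conn_center (χ : X → Y → Fin r) (i : Fin r) (S : Set (X ⊕ Y)) (x0 : X) (h0 : inl x0 ∈ S)
    (hx : ∀ x, (inl x : X ⊕ Y) ∈ S → x = x0 ∨ ∃ y, (inr y : X ⊕ Y) ∈ S ∧ χ x y = i ∧ χ x0 y = i)
    (hy : ∀ y, (inr y : X ⊕ Y) ∈ S → ∃ x, (inl x : X ⊕ Y) ∈ S ∧ χ x y = i) :
    ((colG χ i).induce S).Connected := by
  rw [SimpleGraph.connected_iff_exists_forall_reachable]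
  refine ⟨⟨inl x0, h0⟩, ?_⟩
  have hX : ∀ x (hxS : (inl x : X ⊕ Y) ∈ S),
      ((colG χ i).induce S).Reachable ⟨inl x0, h0⟩ ⟨inl x, hxS⟩ := by
    intro x hxS
    rcases hx x hxS with rfl | ⟨y, hyS, h1, h2⟩
    · exact SimpleGraph.Reachable.refl _
    · have a1 : ((colG χ i).induce S).Adj ⟨inl x0, h0⟩ ⟨inr y, hyS⟩ := adj_lr.2 h2
      have a2 : ((colG χ i).induce S).Adj ⟨inr y, hyS⟩ ⟨inl x, hxS⟩ := adj_rl.2 h1
      exact a1.reachable.trans a2.reachable
  rintro ⟨v | v, hv⟩
  · exact hX v hv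
  · obtain ⟨x, hxS, hc⟩ := hy v hv
    refine (hX x hxS).trans ?_
    apply SimpleGraph.Adj.reachable
    show (colG χ i).Adj (inl x) (inr v)
    exact adj_lr.2 hc

end

section

variable {n m r : ℕ}

theorem part_connect (hr : 0 < r) (χ : Fin n → Fin m → Fin r)
    (hcon : ∀ x x' : Fin n, ∀ i : Fin r, x ≠ x' →
      n ≤ (Finset.univ.filter (fun y => χ x y = i ∧ χ x' y = i)).card)
    (c : Fin n → Fin r) :
    Part χ ((Finset.univ.filter (fun y => ∀ x, χ x y ≠ c x)).card +
      (Finset.univ.image c).card) := by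
  classical
  -- representatives
  have hrep : ∀ x : Fin n, ∃ ρ : Fin n → Fin n, (∀ x, c (ρ x) = c x) ∧
      ∀ x x', c x = c x' → ρ x = ρ x' := by
    intro x0
    let g : Fin r → Fin n := fun i => if h : ∃ x, c x = i then Classical.choose h else x0
    refine ⟨fun x => g (c x), ?_, ?_⟩
    · intro x
      have h : ∃ x', c x' = c x := ⟨x, rfl⟩
      show c (if h : ∃ x', c x' = c x then Classical.choose h else x0) = c x
      rw [dif_pos h]
      exact Classical.choose_spec h
    · intro x x' h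
      show g (c x) = g (c x')
      rw [h]
  have hrep' : ∃ ρ : Fin n → Fin n, (∀ x, c (ρ x) = c x) ∧ ∀ x x', c x = c x' → ρ x = ρ x' := by
    rcases isEmpty_or_nonempty (Fin n) with h | ⟨⟨x0⟩⟩
    · exact ⟨id, fun _ => rfl, fun x => h.elim x⟩
    · exact hrep x0
  obtain ⟨ρ, hρ1, hρ2⟩ := hrep'
  -- connectors
  let I := {x : Fin n // x ≠ ρ x}
  let t : I → Finset (Fin m) := fun x =>
    Finset.univ.filter (fun y => χ x.1 y = c x.1 ∧ χ (ρ x.1) y = c x.1)
  have hHall : ∃ f : I → Fin m, Function.Injective f ∧ ∀ x, f x ∈ t x := by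
    rw [← Finset.all_card_le_biUnion_card_iff_exists_injective]
    intro s
    rcases s.eq_empty_or_nonempty with rfl | ⟨x, hx⟩
    · simp
    · have h1 : s.card ≤ n := by
        refine (Finset.card_le_univ s).trans ?_
        refine (Fintype.card_subtype_le _).trans ?_
        simp
      have h2 : n ≤ (t x).card := hcon x.1 (ρ x.1) (c x.1) x.2
      have h3 : t x ⊆ s.biUnion t := Finset.subset_biUnion_of_mem t hx
      exact h1.trans (h2.trans (Finset.card_le_card h3))
  obtain ⟨con, hinj, hmem⟩ := hHall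
  have hmem' : ∀ x : I, χ x.1 (con x) = c x.1 ∧ χ (ρ x.1) (con x) = c x.1 := by
    intro x
    have := hmem x
    simpa [t] using this
  have himg : ∀ x, c x ∈ Finset.univ.image c := fun x =>
    Finset.mem_image_of_mem _ (Finset.mem_univ _)
  have hg : ∀ y : Fin m, (¬ ∀ x, χ x y ≠ c x) →
      ∃ x, χ x y = c x ∧ ∀ z : I, con z = y → x = z.1 := by
    intro y hy
    by_cases h2 : ∃ z : I, con z = y
    · obtain ⟨z, hz⟩ := h2
      refine ⟨z.1, ?_, ?_⟩
      · rw [← hz]; exact (hmem' z).1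
      · intro z' hz'
        rw [hinj (hz.trans hz'.symm)]
    · obtain ⟨x, hx⟩ := not_forall.1 hy
      exact ⟨x, not_not.1 hx, fun z hz => absurd ⟨z, hz⟩ h2⟩
  choose g hg1 hg2 using hg
  let F : Fin n ⊕ Fin m → {i : Fin r // i ∈ Finset.univ.image c} ⊕
      {y : Fin m // ∀ x, χ x y ≠ c x} := fun v => match v with
    | inl x => inl ⟨c x, himg x⟩
    | inr y => if h : ∀ x, χ x y ≠ c x then inr ⟨y, h⟩ else inl ⟨c (g y h), himg _⟩
  have hFr : ∀ y (h : ∀ x, χ x y ≠ c x), F (inr y) = inr ⟨y, h⟩ := fun y h => dif_pos h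
  have hFl : ∀ y (h : ¬ ∀ x, χ x y ≠ c x), F (inr y) = inl ⟨c (g y h), himg _⟩ :=
    fun y h => dif_neg h
  have hFx : ∀ x, F (inl x) = inl ⟨c x, himg x⟩ := fun x => rfl
  refine ⟨_, inferInstance, F, ?_, ?_⟩
  · rw [Fintype.card_sum, Fintype.card_subtype, Fintype.card_subtype, Nat.add_comm]
    simp
  · rintro (⟨i, hi⟩ | ⟨y, hy⟩) _
    · refine ⟨i, ?_⟩
      obtain ⟨x1, _, hx1⟩ := Finset.mem_image.1 hi
      have hin : ∀ x, (inl x : Fin n ⊕ Fin m) ∈ {v | F v = inl ⟨i, hi⟩} ↔ c x = i := by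
        intro x
        rw [Set.mem_ofPred_eq, hFx, Sum.inl.injEq, Subtype.mk.injEq]
      refine conn_center χ i _ (ρ x1) ((hin _).2 (by rw [hρ1, hx1])) ?_ ?_
      · intro x hx
        rw [hin] at hx
        by_cases hxρ : x = ρ x
        · left
          rw [hxρ]
          exact hρ2 _ _ (by rw [hx, hx1])
        · right
          have hz := hmem' ⟨x, hxρ⟩
          refine ⟨con ⟨x, hxρ⟩, ?_, ?_, ?_⟩
          · have hb : ¬ ∀ x', χ x' (con ⟨x, hxρ⟩) ≠ c x' := by
              intro h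
              exact h x hz.1
            rw [Set.mem_ofPred_eq, hFl _ hb, Sum.inl.injEq, Subtype.mk.injEq,
              hg2 _ hb ⟨x, hxρ⟩ rfl]
            exact hx
          · rw [hz.1, hx]
          · have : ρ x = ρ x1 := hρ2 _ _ (by rw [hx, hx1])
            rw [← this, hz.2, hx]
      · intro y hy
        rw [Set.mem_ofPred_eq] at hy
        by_cases h1 : ∀ x, χ x y ≠ c x
        · rw [hFr y h1] at hy
          cases hy
        · rw [hFl y h1, Sum.inl.injEq, Subtype.mk.injEq] at hy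
          refine ⟨g y h1, (hin _).2 hy, ?_⟩
          rw [hg1, hy]
    · refine ⟨⟨0, hr⟩, conn_y χ _ _ y ?_ ?_ ?_⟩
      · rw [Set.mem_ofPred_eq, hFr y hy]
      · intro x hx
        rw [Set.mem_ofPred_eq, hFx] at hx
        cases hx
      · intro y' hy'
        left
        rw [Set.mem_ofPred_eq] at hy'
        by_cases h1 : ∀ x, χ x y' ≠ c x
        · rw [hFr y' h1, Sum.inr.injEq, Subtype.mk.injEq] at hy'
          exact hy'
        · rw [hFl y' h1] at hy'
          cases hy'

/-- averaging over the colours of one vertex -/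
theorem avg_step (hr : 0 < r) (χ : Fin n → Fin m → Fin r) (x : Fin n) (Z : Finset (Fin m)) :
    ∃ i : Fin r, r * (Z.filter (fun y => χ x y ≠ i)).card ≤ (r - 1) * Z.card := by
  classical
  by_contra hcon
  push Not at hcon
  have hne : (Finset.univ : Finset (Fin r)).Nonempty := ⟨⟨0, hr⟩, Finset.mem_univ _⟩
  have h1 := Finset.sum_lt_sum_of_nonempty hne (fun i _ => hcon i)
  rw [← Finset.mul_sum] at h1
  have h2 : ∑ i : Fin r, ((Z.filter (fun y => χ x y = i)).card +
      (Z.filter (fun y => χ x y ≠ i)).card) = r * Z.card := by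
    rw [Finset.sum_congr rfl (fun i _ =>
      Finset.card_filter_add_card_filter_not (s := Z) (fun y => χ x y = i))]
    simp
  rw [Finset.sum_add_distrib, ← Finset.card_eq_sum_card_fiberwise (fun y _ => Finset.mem_univ _)]
    at h2
  simp only [Finset.sum_const, Finset.card_univ, Fintype.card_fin, smul_eq_mul] at h1
  obtain ⟨s, rfl⟩ : ∃ s, r = s + 1 := ⟨r - 1, by omega⟩
  rw [Nat.add_sub_cancel] at h1
  have h3 : ∑ i : Fin (s + 1), (Z.filter (fun y => χ x y ≠ i)).card = s * Z.card := by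
    have : (s + 1) * Z.card = s * Z.card + Z.card := by ring
    omega
  rw [← Finset.mul_sum, h3] at h1
  have h4 : s * ((s + 1) * Z.card) = (s + 1) * (s * Z.card) := by ring
  omega

theorem avg_ext (hr : 0 < r) (χ : Fin n → Fin m → Fin r) (S : Finset (Fin n)) :
    ∀ Z : Finset (Fin m), ∃ c : Fin n → Fin r,
      r ^ S.card * (Z.filter (fun y => ∀ x ∈ S, χ x y ≠ c x)).card ≤
        (r - 1) ^ S.card * Z.card := by
  classical
  induction S using Finset.induction_on with
  | empty =>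
    intro Z
    refine ⟨fun _ => ⟨0, hr⟩, ?_⟩
    simp
  | insert x S hx ih =>
    intro Z
    obtain ⟨i, hi⟩ := avg_step hr χ x Z
    obtain ⟨c, hc⟩ := ih (Z.filter (fun y => χ x y ≠ i))
    refine ⟨Function.update c x i, ?_⟩
    have hset : Z.filter (fun y => ∀ z ∈ insert x S, χ z y ≠ Function.update c x i z) =
        (Z.filter (fun y => χ x y ≠ i)).filter (fun y => ∀ z ∈ S, χ z y ≠ c z) := by
      ext y
      simp only [Finset.mem_filter, Finset.mem_insert, forall_eq_or_imp, Function.update_self]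
      constructor
      · rintro ⟨h1, h2, h3⟩
        refine ⟨⟨h1, h2⟩, fun z hz => ?_⟩
        have := h3 z hz
        rwa [Function.update_of_ne (fun h : z = x => hx (h ▸ hz))] at this
      · rintro ⟨⟨h1, h2⟩, h3⟩
        refine ⟨h1, h2, fun z hz => ?_⟩
        rw [Function.update_of_ne (fun h : z = x => hx (h ▸ hz))]
        exact h3 z hz
    rw [hset, Finset.card_insert_of_notMem hx, pow_succ, pow_succ]
    calc _ = r * (r ^ S.card * ((Z.filter (fun y => χ x y ≠ i)).filter
            (fun y => ∀ z ∈ S, χ z y ≠ c z)).card) := by ring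
      _ ≤ r * ((r - 1) ^ S.card * (Z.filter (fun y => χ x y ≠ i)).card) :=
          Nat.mul_le_mul_left _ hc
      _ = (r - 1) ^ S.card * (r * (Z.filter (fun y => χ x y ≠ i)).card) := by ring
      _ ≤ (r - 1) ^ S.card * ((r - 1) * Z.card) := Nat.mul_le_mul_left _ hi
      _ = _ := by ring

/-- counting pairs of colours avoiding a vertex -/
theorem pair_count (hr : 2 ≤ r) (χ : Fin n → Fin m → Fin r) (x0 x1 : Fin n) (i : Fin r)
    (β : ℕ) (hβ : ∀ a b : Fin r,
      β ≤ (Finset.univ.filter (fun y => χ x0 y ≠ a ∧ χ x1 y ≠ b)).card) :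
    r * β ≤ (Finset.univ.filter (fun y => χ x0 y = i)).card + (r - 2) * m := by
  classical
  obtain ⟨s, rfl⟩ : ∃ s, r = s + 2 := ⟨r - 2, by omega⟩
  rw [Nat.add_sub_cancel]
  have h1 : ∑ p ∈ (Finset.univ.erase i) ×ˢ (Finset.univ : Finset (Fin (s + 2))),
      (Finset.univ.filter (fun y => χ x0 y ≠ p.1 ∧ χ x1 y ≠ p.2)).card =
      ∑ y : Fin m, (((Finset.univ.erase i) ×ˢ (Finset.univ : Finset (Fin (s + 2)))).filter
        (fun p => χ x0 y ≠ p.1 ∧ χ x1 y ≠ p.2)).card := by
    simp only [Finset.card_filter]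
    exact Finset.sum_comm
  have h2 : ∀ y : Fin m, (((Finset.univ.erase i) ×ˢ (Finset.univ : Finset (Fin (s + 2)))).filter
        (fun p => χ x0 y ≠ p.1 ∧ χ x1 y ≠ p.2)).card =
        (s + 1) * (s + (if χ x0 y = i then 1 else 0)) := by
    intro y
    have h3 : ((Finset.univ.erase i) ×ˢ (Finset.univ : Finset (Fin (s + 2)))).filter
        (fun p => χ x0 y ≠ p.1 ∧ χ x1 y ≠ p.2) =
        ((Finset.univ.erase i).erase (χ x0 y)) ×ˢ (Finset.univ.erase (χ x1 y)) := by
      ext ⟨a, b⟩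
      simp only [Finset.mem_filter, Finset.mem_product, Finset.mem_erase, Finset.mem_univ,
        and_true, ne_eq]
      constructor
      · rintro ⟨h1, h2, h3⟩
        exact ⟨⟨fun h => h2 h.symm, h1⟩, fun h => h3 h.symm⟩
      · rintro ⟨⟨h2, h1⟩, h3⟩
        exact ⟨h1, fun h => h2 h.symm, fun h => h3 h.symm⟩
    rw [h3, Finset.card_product, Finset.card_erase_of_mem (Finset.mem_univ (χ x1 y)),
      Finset.card_univ, Fintype.card_fin]
    have h4 : s + 2 - 1 = s + 1 := by omega
    by_cases h : χ x0 y = i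
    · rw [if_pos h, h, Finset.erase_eq_of_notMem (Finset.notMem_erase i _),
        Finset.card_erase_of_mem (Finset.mem_univ i),
        Finset.card_univ, Fintype.card_fin, h4]
    · rw [if_neg h, Finset.card_erase_of_mem (Finset.mem_erase.2 ⟨h, Finset.mem_univ _⟩),
        Finset.card_erase_of_mem (Finset.mem_univ i), Finset.card_univ, Fintype.card_fin, h4,
        Nat.add_sub_cancel, Nat.add_zero]
      exact Nat.mul_comm _ _
  have h5 : ((s + 1) * (s + 2)) * β ≤ ∑ p ∈ (Finset.univ.erase i) ×ˢ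
      (Finset.univ : Finset (Fin (s + 2))),
      (Finset.univ.filter (fun y => χ x0 y ≠ p.1 ∧ χ x1 y ≠ p.2)).card := by
    have h6 : ((Finset.univ.erase i) ×ˢ (Finset.univ : Finset (Fin (s + 2)))).card =
        (s + 1) * (s + 2) := by
      rw [Finset.card_product, Finset.card_erase_of_mem (Finset.mem_univ i), Finset.card_univ,
        Fintype.card_fin]
      rfl
    rw [← h6, ← smul_eq_mul]
    exact Finset.card_nsmul_le_sum _ _ _ (fun p _ => hβ p.1 p.2)
  rw [h1, Finset.sum_congr rfl (fun y _ => h2 y), ← Finset.mul_sum, Finset.sum_add_distrib,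
    Finset.sum_const, Finset.card_univ, Fintype.card_fin, smul_eq_mul, ← Finset.card_filter] at h5
  have h7 : (s + 1) * ((s + 2) * β) ≤ (s + 1) *
      (m * s + (Finset.univ.filter (fun y => χ x0 y = i)).card) := by
    rw [← Nat.mul_assoc]
    exact h5
  have h8 := Nat.le_of_mul_le_mul_left h7 (Nat.succ_pos s)
  have h9 : m * s = s * m := Nat.mul_comm _ _
  omega

/-- the threshold -/
def thr (r n : ℕ) : ℕ := r ^ 2 * n + (2 * r + 1) * r ^ n * (n + 1 + r ^ n)

theorem arith_up (u k m K bad β N : ℕ)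
    (ha : (u + 2) ^ k * bad ≤ (u + 1) ^ k * β)
    (hb : (2 * u + 5) * β ≤ N + (2 * u + 1) * m)
    (hN : N < k + 2)
    (hc : (u + 1) ^ (k + 2) * m ≤ (u + 2) ^ (k + 2) * (K + 1 + (u + 2) ^ (k + 2)))
    (hm : thr (u + 2) (k + 2) ≤ m) : k + 2 + bad ≤ K := by
  by_contra hcon
  push Not at hcon
  have hd : K + 1 ≤ k + 2 + bad := hcon
  unfold thr at hm
  set P := (u + 2) ^ k with hP
  set Q := (u + 1) ^ k with hQ
  set W := (u + 2) ^ (k + 2) with hW
  have hWP : W = (u + 2) ^ 2 * P := by rw [hW, hP]; ring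
  have hQQ : (u + 1) ^ (k + 2) = (u + 1) ^ 2 * Q := by rw [hQ]; ring
  rw [hQQ] at hc
  have hQ1 : 1 ≤ Q := Nat.one_le_pow _ _ (by omega)
  have hW1 : 1 ≤ W := Nat.one_le_pow _ _ (by omega)
  have e1 : (2 * u + 5) * ((u + 1) ^ 2 * Q * m) ≤
      (2 * u + 5) * (W * (k + 2 + bad + W)) := by
    apply Nat.mul_le_mul_left
    refine hc.trans ?_
    apply Nat.mul_le_mul_left
    omega
  have e2 : (2 * u + 5) * (W * bad) ≤ (u + 2) ^ 2 * Q * (N + (2 * u + 1) * m) := by
    calc (2 * u + 5) * (W * bad) = (2 * u + 5) * (u + 2) ^ 2 * (P * bad) := by rw [hWP]; ring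
      _ ≤ (2 * u + 5) * (u + 2) ^ 2 * (Q * β) := Nat.mul_le_mul_left _ ha
      _ = (u + 2) ^ 2 * Q * ((2 * u + 5) * β) := by ring
      _ ≤ _ := Nat.mul_le_mul_left _ hb
  have e3 : (2 * u + 5) * ((u + 1) ^ 2 * Q * m) = (u + 2) ^ 2 * Q * ((2 * u + 1) * m) + Q * m := by
    ring
  have e4 : (2 * u + 5) * (W * (k + 2 + bad + W)) =
      (2 * u + 5) * (W * (k + 2 + W)) + (2 * u + 5) * (W * bad) := by ring
  have e5 : (u + 2) ^ 2 * Q * (N + (2 * u + 1) * m) =
      (u + 2) ^ 2 * Q * N + (u + 2) ^ 2 * Q * ((2 * u + 1) * m) := by ring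
  have e6 : Q * m ≤ (2 * u + 5) * (W * (k + 2 + W)) + (u + 2) ^ 2 * Q * N := by omega
  have e7 : Q * ((u + 2) ^ 2 * (k + 2) + (2 * (u + 2) + 1) * W * (k + 2 + 1 + W)) ≤ Q * m :=
    Nat.mul_le_mul_left _ hm
  have e8 : Q * ((u + 2) ^ 2 * (k + 2) + (2 * (u + 2) + 1) * W * (k + 2 + 1 + W)) =
      (u + 2) ^ 2 * Q * (k + 2) + Q * ((2 * (u + 2) + 1) * W * (k + 2 + 1 + W)) := by ring
  have e9 : (u + 2) ^ 2 * Q * N ≤ (u + 2) ^ 2 * Q * (k + 2) := Nat.mul_le_mul_left _ hN.le
  have e10 : 1 * ((2 * (u + 2) + 1) * W * (k + 2 + 1 + W)) ≤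
      Q * ((2 * (u + 2) + 1) * W * (k + 2 + 1 + W)) := Nat.mul_le_mul_right _ hQ1
  have e11 : (2 * (u + 2) + 1) * W * (k + 2 + 1 + W) =
      (2 * u + 5) * (W * (k + 2 + W)) + (2 * u + 5) * W := by ring
  have e12 : 1 ≤ (2 * u + 5) * W := Nat.mul_pos (by omega) hW1
  omega

theorem upper_large (hr : 2 ≤ r) (hm : thr r n ≤ m) (K : ℕ)
    (hK : (r - 1) ^ n * m ≤ r ^ n * (K + 1 + r ^ n))
    (h : ∀ χ : Fin n → Fin m → Fin r, ∃ c : Fin n → Fin r,
      (Finset.univ.filter (fun y => ∀ x, χ x y ≠ c x)).card + (Finset.univ.image c).card ≤ K) :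
    tp r n m ≤ K := by
  classical
  apply tp_le
  intro χ
  by_cases hcon : ∀ x x' : Fin n, ∀ i : Fin r, x ≠ x' →
      n ≤ (Finset.univ.filter (fun y => χ x y = i ∧ χ x' y = i)).card
  · obtain ⟨c, hc⟩ := h χ
    exact (part_connect (by omega) χ hcon c).mono hc
  · push Not at hcon
    obtain ⟨x0, x1, i, hne, hN⟩ := hcon
    have hr0 : 0 < r := by omega
    obtain ⟨⟨a, b⟩, _, hab⟩ := Finset.exists_min_image (Finset.univ : Finset (Fin r × Fin r))
      (fun p => (Finset.univ.filter (fun y => χ x0 y ≠ p.1 ∧ χ x1 y ≠ p.2)).card)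
      ⟨(⟨0, hr0⟩, ⟨0, hr0⟩), Finset.mem_univ _⟩
    set Z := Finset.univ.filter (fun y => χ x0 y ≠ a ∧ χ x1 y ≠ b) with hZ
    have hβ : ∀ a' b' : Fin r,
        Z.card ≤ (Finset.univ.filter (fun y => χ x0 y ≠ a' ∧ χ x1 y ≠ b')).card :=
      fun a' b' => hab (a', b') (Finset.mem_univ _)
    have hβ' : ∀ a' b' : Fin r,
        Z.card ≤ (Finset.univ.filter (fun y => χ x1 y ≠ a' ∧ χ x0 y ≠ b')).card := by
      intro a' b'
      have := hβ b' a'
      have h2 : Finset.univ.filter (fun y => χ x1 y ≠ a' ∧ χ x0 y ≠ b') =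
          Finset.univ.filter (fun y => χ x0 y ≠ b' ∧ χ x1 y ≠ a') := by
        ext y
        simp only [Finset.mem_filter, and_comm]
      rw [h2]
      exact this
    have h1 := pair_count hr χ x0 x1 i Z.card hβ
    have h2 := pair_count hr χ x1 x0 i Z.card hβ'
    have h3 := hβ i i
    -- inclusion and exclusion
    have h4 := Finset.card_filter_add_card_filter_not
      (s := Finset.univ.filter (fun y => χ x0 y ≠ i)) (fun y => χ x1 y = i)
    have h5 := Finset.card_filter_add_card_filter_not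
      (s := (Finset.univ : Finset (Fin m))) (fun y => χ x0 y = i)
    have h6 := Finset.card_filter_add_card_filter_not
      (s := Finset.univ.filter (fun y => χ x1 y = i)) (fun y => χ x0 y = i)
    rw [Finset.filter_filter, Finset.filter_filter] at h4 h6
    rw [Finset.card_univ, Fintype.card_fin] at h5
    have h7 : (Finset.univ.filter (fun y => χ x1 y = i ∧ ¬ χ x0 y = i)) =
        (Finset.univ.filter (fun y => χ x0 y ≠ i ∧ χ x1 y = i)) := by
      ext y
      simp only [Finset.mem_filter, and_comm, ne_eq]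
    have h8 : (Finset.univ.filter (fun y => χ x1 y = i ∧ χ x0 y = i)) =
        (Finset.univ.filter (fun y => χ x0 y = i ∧ χ x1 y = i)) := by
      ext y
      simp only [Finset.mem_filter, and_comm]
    rw [h7, h8] at h6
    obtain ⟨c, hc⟩ := avg_ext hr0 χ ((Finset.univ.erase x0).erase x1) Z
    have hn2 : 2 ≤ n := by
      by_contra hlt
      apply hne
      apply Fin.ext
      have := x0.2
      have := x1.2
      omega
    have hScard : ((Finset.univ.erase x0).erase x1).card = n - 2 := by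
      rw [Finset.card_erase_of_mem (Finset.mem_erase.2 ⟨hne.symm, Finset.mem_univ _⟩),
        Finset.card_erase_of_mem (Finset.mem_univ _), Finset.card_univ, Fintype.card_fin]
      omega
    rw [hScard] at hc
    let c' : Fin n → Fin r := Function.update (Function.update c x0 a) x1 b
    have hbad : Finset.univ.filter (fun y => ∀ x, χ x y ≠ c' x) =
        Z.filter (fun y => ∀ x ∈ ((Finset.univ.erase x0).erase x1), χ x y ≠ c x) := by
      have c1 : c' x1 = b := Function.update_self _ _ _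
      have c0 : c' x0 = a := by
        show Function.update (Function.update c x0 a) x1 b x0 = a
        rw [Function.update_of_ne hne, Function.update_self]
      have cx : ∀ x, x ≠ x0 → x ≠ x1 → c' x = c x := by
        intro x h h'
        show Function.update (Function.update c x0 a) x1 b x = c x
        rw [Function.update_of_ne h', Function.update_of_ne h]
      ext y
      simp only [Finset.mem_filter, Finset.mem_univ, true_and, Finset.mem_erase, and_true, hZ]
      constructor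
      · intro h
        refine ⟨⟨?_, ?_⟩, ?_⟩
        · have := h x0; rwa [c0] at this
        · have := h x1; rwa [c1] at this
        · rintro x ⟨hx1, hx0⟩
          have := h x; rwa [cx x hx0 hx1] at this
      · rintro ⟨⟨h1, h2⟩, h3⟩ x
        by_cases hx0 : x = x0
        · rw [hx0, c0]; exact h1
        · by_cases hx1 : x = x1
          · rw [hx1, c1]; exact h2
          · rw [cx x hx0 hx1]; exact h3 x ⟨hx1, hx0⟩
    have hps := part_stars χ hr0 c'
    refine hps.mono ?_
    rw [Fintype.card_fin, hbad]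
    obtain ⟨u, rfl⟩ : ∃ u, r = u + 2 := ⟨r - 2, by omega⟩
    obtain ⟨k, rfl⟩ : ∃ k, n = k + 2 := ⟨n - 2, by omega⟩
    have hr1 : u + 2 - 1 = u + 1 := by omega
    rw [Nat.add_sub_cancel] at h1 h2
    rw [Nat.add_sub_cancel, hr1] at hc
    rw [hr1] at hK
    refine arith_up u k m K _ Z.card _ hc ?_ hN hK hm
    have e1 : (2 * u + 5) * Z.card = (u + 2) * Z.card + (u + 2) * Z.card + Z.card := by ring
    have e2 : (2 * u + 1) * m = u * m + u * m + m := by ring
    rw [e1, e2]
    simp only [ne_eq] at h3 h4 h5 h6 ⊢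
    omega

theorem hstep_iter_ge (hr : 0 < r) (n M : ℕ) :
    (r - 1) ^ n * M ≤ r ^ n * (hstep r)^[n] M := by
  induction n with
  | zero => simp
  | succ n ih =>
    rw [Function.iterate_succ_apply', pow_succ, pow_succ]
    have h1 : (r - 1) * (hstep r)^[n] M ≤ r * hstep r ((hstep r)^[n] M) := by
      show (r - 1) * (hstep r)^[n] M ≤ r * (1 + (r - 1) * ((hstep r)^[n] M) / r)
      have := Nat.div_add_mod ((r - 1) * ((hstep r)^[n] M)) r
      have h2 := Nat.mod_lt ((r - 1) * ((hstep r)^[n] M)) hr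
      rw [Nat.mul_add, Nat.mul_one]
      omega
    calc (r - 1) ^ n * (r - 1) * M = (r - 1) * ((r - 1) ^ n * M) := by ring
      _ ≤ (r - 1) * (r ^ n * (hstep r)^[n] M) := Nat.mul_le_mul_left _ ih
      _ = r ^ n * ((r - 1) * (hstep r)^[n] M) := by ring
      _ ≤ r ^ n * (r * hstep r ((hstep r)^[n] M)) := Nat.mul_le_mul_left _ h1
      _ = _ := by ring

/-- the upper bound for large `m` -/
theorem tp_le_iter (hr : 2 ≤ r) (hm : thr r n ≤ m) : tp r n m ≤ (hstep r)^[n] m := by
  refine upper_large hr hm _ ?_ ?_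
  · refine (hstep_iter_ge (by omega) n m).trans (Nat.mul_le_mul_left _ ?_)
    omega
  · intro χ
    obtain ⟨c, hc⟩ := greedy (by omega : 0 < r) n χ
    rw [Fintype.card_fin] at hc
    exact ⟨c, hc⟩

end

end Pool.Agent.H948R3.TP
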