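import Pool.Agent.H948R3.TPLow2
import Pool.Agent.H948R3.TPUp

set_option autoImplicit false

namespace Pool.Agent.H948R3.TP

open Finset Sum

section

variable {n m r : ℕ}

/-- the simple lower bound -/
theorem lower_simple (hr : 1 ≤ r) (hm : r ≤ m) :
    r + (r - 1) ^ n * ((m - r) / r ^ n) ≤ tp r n m := by
  classical
  set q := (m - r) / r ^ n with hq
  refine le_tp_w (n := n) (m := m) hr (fun χ => part_total hr χ)
    (fun t => q + ∑ i : Fin r, if t = (fun _ => i) then 1 else 0) ?_ ?_
  · rw [sum_add_distrib, sum_comm]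
    simp only [sum_const, card_univ, Fintype.card_pi, Fintype.card_fin, prod_const, smul_eq_mul,
      sum_ite_eq', mem_univ, if_true, mul_one]
    have := Nat.mul_div_le (m - r) (r ^ n)
    rw [← hq] at this
    omega
  · intro c
    rw [sum_add_distrib, sum_comm, sum_const, card_avoid, smul_eq_mul]
    have h2 : ∑ i : Fin r, ∑ t ∈ univ.filter (fun t : Fin n → Fin r => ∀ x, t x ≠ c x),
        (if t = (fun _ => i) then 1 else 0) =
        (univ.filter (fun i : Fin r => ∀ x, i ≠ c x)).card := by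
      rw [card_filter]
      apply sum_congr rfl
      intro i _
      rw [sum_ite_eq']
      simp only [mem_filter, mem_univ, true_and]
    rw [h2]
    have h3 := card_miss c
    omega

theorem iter_le (hr : 1 ≤ r) (n t : ℕ) :
    r ^ n * (hstep r)^[n] (r + t) ≤ r ^ n * r + (r - 1) ^ n * t := by
  induction n generalizing t with
  | zero => simp
  | succ n ih =>
    rw [Function.iterate_succ_apply]
    have h1 : hstep r (r + t) = r + (r - 1) * t / r := by
      unfold hstep
      rw [Nat.mul_add, Nat.add_comm ((r - 1) * r), Nat.add_mul_div_right _ _ hr]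
      omega
    rw [h1]
    have h2 := ih ((r - 1) * t / r)
    have h3 : r * ((r - 1) * t / r) ≤ (r - 1) * t := Nat.mul_div_le _ _
    calc r ^ (n + 1) * (hstep r)^[n] (r + (r - 1) * t / r)
        = r * (r ^ n * (hstep r)^[n] (r + (r - 1) * t / r)) := by ring
      _ ≤ r * (r ^ n * r + (r - 1) ^ n * ((r - 1) * t / r)) := Nat.mul_le_mul_left _ h2
      _ = r ^ (n + 1) * r + (r - 1) ^ n * (r * ((r - 1) * t / r)) := by ring
      _ ≤ r ^ (n + 1) * r + (r - 1) ^ n * ((r - 1) * t) :=
          Nat.add_le_add_left (Nat.mul_le_mul_left _ h3) _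
      _ = _ := by ring

theorem iter_lt (hr : 2 ≤ r) (hm : r ≤ m) :
    (hstep r)^[n] m < r + (r - 1) ^ n * ((m - r) / r ^ n) + (r - 1) ^ n := by
  have hpos : 0 < r ^ n := by positivity
  have hs : 0 < (r - 1) ^ n := Nat.pow_pos (by omega)
  have h0 := Nat.div_add_mod (m - r) (r ^ n)
  have h1 := Nat.mod_lt (m - r) hpos
  set q := (m - r) / r ^ n
  set ρ := (m - r) % r ^ n
  have hmq : m = (r + ρ) + r ^ n * q := by omega
  rw [hmq, hstep_shift (by omega)]
  have h2 := iter_le (r := r) (by omega) n ρ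
  have h3 : r ^ n * (hstep r)^[n] (r + ρ) < r ^ n * (r + (r - 1) ^ n) := by
    calc _ ≤ r ^ n * r + (r - 1) ^ n * ρ := h2
      _ < r ^ n * r + (r - 1) ^ n * r ^ n := Nat.add_lt_add_left (Nat.mul_lt_mul_of_pos_left h1 hs) _
      _ = _ := by ring
  have h4 := Nat.lt_of_mul_lt_mul_left h3
  omega

/-- the cover number is bounded -/
theorem tc_le (hr : 1 ≤ r) (hn : 1 ≤ n) : tc r n m ≤ r + (n - 1) := by
  classical
  apply Nat.sInf_le
  intro c
  let x0 : Fin n := ⟨0, hn⟩
  let I := Fin r ⊕ {x : Fin n // x ≠ x0}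
  have hI : Fintype.card I = r + (n - 1) := by
    rw [Fintype.card_sum, Fintype.card_fin, Fintype.card_subtype_compl, Fintype.card_fin]
    simp
  let S : I → Set (Fin n ⊕ Fin m) := fun a => match a with
    | inl i => {v | v = inl x0 ∨ ∃ y, v = inr y ∧ chi c x0 y = i}
    | inr x => {v | v = inl x.1}
  have hT : ∀ a : I, ∃ T : (completeBipartiteGraph (Fin n) (Fin m)).Subgraph,
      T.verts = S a ∧ IsMonoTree _ c T := by
    rintro (i | x)
    · refine tree_of_conn _ c (colG (chi c) i) i (colG_sub c i) _ ?_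
      refine conn_x _ _ _ x0 (Or.inl rfl) ?_ ?_
      · rintro y (h | ⟨y', h1, h2⟩)
        · cases h
        · cases h1; exact h2
      · rintro x (h | ⟨y', h1, h2⟩)
        · left; exact Sum.inl.inj h
        · cases h1
    · refine tree_of_conn _ c (colG (chi c) ⟨0, hr⟩) ⟨0, hr⟩ (colG_sub c _) _ ?_
      refine conn_x _ _ _ x.1 rfl ?_ ?_
      · intro y h
        cases h
      · intro z h
        left; exact Sum.inl.inj h
  choose T hT1 hT2 using hT
  let e : I ≃ Fin (Fintype.card I) := Fintype.equivFin I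
  refine ⟨Fintype.card I, hI.le, fun a => T (e.symm a), fun a => hT2 _, ?_⟩
  have hmain : ∀ v, ∃ a : I, v ∈ (T a).verts := by
    rintro (x | y)
    · by_cases hx : x = x0
      · refine ⟨inl ⟨0, hr⟩, ?_⟩
        rw [hT1, hx]
        exact Or.inl rfl
      · refine ⟨inr ⟨x, hx⟩, ?_⟩
        rw [hT1]
        exact rfl
    · refine ⟨inl (chi c x0 y), ?_⟩
      rw [hT1]
      exact Or.inr ⟨y, rfl, rfl⟩
  intro v
  obtain ⟨a, ha⟩ := hmain v
  refine ⟨e a, ?_⟩
  show v ∈ (T (e.symm (e a))).verts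
  rwa [Equiv.symm_apply_apply]

end

end Pool.Agent.H948R3.TP
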