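import Pool.Agent.H948R3.TPBridge

set_option autoImplicit false

namespace Pool.Agent.H948R3.TP

open Sum

/-- the other colour -/
def oth (i : Fin 2) : Fin 2 := 1 - i

theorem ne_iff_oth (i j : Fin 2) : i ≠ j ↔ j = oth i := by
  revert i j; decide

theorem oth_oth (i : Fin 2) : oth (oth i) = i := by revert i; decide

theorem bad_iff {X Y : Type} (χ : X → Y → Fin 2) (c : X → Fin 2) (y : Y) :
    (∀ x, χ x y ≠ c x) ↔ c = fun x => oth (χ x y) := by
  constructor
  · intro h
    funext x
    exact (ne_iff_oth _ _).1 (h x)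
  · rintro rfl x
    exact (ne_iff_oth _ _).2 rfl

section

variable {n m : ℕ}

theorem sum_bad (χ : Fin n → Fin m → Fin 2) :
    ∑ c : Fin n → Fin 2, (Finset.univ.filter (fun y => ∀ x, χ x y ≠ c x)).card = m := by
  classical
  simp_rw [Finset.card_filter]
  rw [Finset.sum_comm]
  simp_rw [bad_iff]
  simp

/-- the upper bound for two colours -/
theorem part_upper (hn : 2 ≤ n) (hnm : n ≤ m) (χ : Fin n → Fin m → Fin 2) :
    Part χ ((m - 2) / 2 ^ n + 2) := by
  classical
  have : Nonempty (Fin n) := ⟨⟨0, by omega⟩⟩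
  have : Nonempty (Fin m) := ⟨⟨0, by omega⟩⟩
  set q := (m - 2) / 2 ^ n with hq
  by_cases hA0 : (∀ y, ∃ x, χ x y = 0) ∧ (∀ x, ∃ y, χ x y = 0)
  · exact (part_noiso χ 0 1 (by decide) hA0.1 hA0.2).mono (Nat.le_add_left 2 _)
  by_cases hA1 : (∀ y, ∃ x, χ x y = 1) ∧ (∀ x, ∃ y, χ x y = 1)
  · exact (part_noiso χ 1 0 (by decide) hA1.1 hA1.2).mono (Nat.le_add_left 2 _)
  have key : ((∃ y, ∀ x, χ x y = 0) ∧ (∃ y, ∀ x, χ x y = 1)) ∨
      ((∃ x, ∀ y, χ x y = 0) ∧ (∃ x, ∀ y, χ x y = 1)) := by
    have f0 : ∀ i : Fin 2, i ≠ 0 → i = 1 := by decide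
    have f1 : ∀ i : Fin 2, i ≠ 1 → i = 0 := by decide
    rw [not_and_or] at hA0 hA1
    push Not at hA0 hA1
    rcases hA0 with ⟨y, hy⟩ | ⟨x, hx⟩ <;> rcases hA1 with ⟨y', hy'⟩ | ⟨x', hx'⟩
    · left
      exact ⟨⟨y', fun x => f1 _ (hy' x)⟩, ⟨y, fun x => f0 _ (hy x)⟩⟩
    · exact absurd (f0 _ (hy x')) (by rw [f1 _ (hx' y)]; decide)
    · exact absurd (f1 _ (hy' x)) (by rw [f0 _ (hx y')]; decide)
    · right
      exact ⟨⟨x', fun y => f1 _ (hx' y)⟩, ⟨x, fun y => f0 _ (hx y)⟩⟩
  rcases key with ⟨⟨y0, h0⟩, ⟨y1, h1⟩⟩ | ⟨⟨x0, h0⟩, ⟨x1, h1⟩⟩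
  · by_contra hcon
    have b0 : ∀ i : Fin 2, q + 2 ≤
        (Finset.univ.filter (fun y => ∀ x, χ x y ≠ (fun _ => i : Fin n → Fin 2) x)).card := by
      intro i
      by_contra hlt
      push Not at hlt
      apply hcon
      rcases fin2_cases i with rfl | rfl
      · have hlt' : (Finset.univ.filter (fun y => ∀ x, χ x y ≠ 0)).card < q + 2 := hlt
        exact (part_one χ 0 y0 h0).mono (by omega)
      · have hlt' : (Finset.univ.filter (fun y => ∀ x, χ x y ≠ 1)).card < q + 2 := hlt
        exact (part_one χ 1 y1 h1).mono (by omega)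
    have b1 : ∀ c : Fin n → Fin 2, q + 1 ≤
        (Finset.univ.filter (fun y => ∀ x, χ x y ≠ c x)).card := by
      intro c
      by_cases hc0 : ∃ x, c x = 0
      · by_cases hc1 : ∃ x, c x = 1
        · by_contra hlt
          push Not at hlt
          exact hcon ((part_two χ y0 y1 h0 h1 c hc0 hc1).mono (by omega))
        · have : c = fun _ => 0 := by
            funext x
            rcases fin2_cases (c x) with h | h
            · exact h
            · exact absurd ⟨x, h⟩ hc1
          subst this
          have := b0 0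
          omega
      · have : c = fun _ => 1 := by
          funext x
          rcases fin2_cases (c x) with h | h
          · exact absurd ⟨x, h⟩ hc0
          · exact h
        subst this
        have := b0 1
        omega
    have hsum := sum_bad χ
    have hne : (fun _ => 0 : Fin n → Fin 2) ≠ (fun _ => 1) := by
      intro h
      have := congrFun h ⟨0, by omega⟩
      exact absurd this (by decide)
    have hlow : ∑ c : Fin n → Fin 2, ((q + 1) + (if c = (fun _ => 0) then 1 else 0) +
        (if c = (fun _ => 1) then 1 else 0)) ≤ m := by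
      rw [← hsum]
      apply Finset.sum_le_sum
      intro c _
      by_cases hc : c = fun _ => 0
      · subst hc
        rw [if_pos rfl, if_neg hne]
        have := b0 0
        omega
      · by_cases hc' : c = fun _ => 1
        · subst hc'
          rw [if_neg hc, if_pos rfl]
          have := b0 1
          omega
        · rw [if_neg hc, if_neg hc']
          exact b1 c
    rw [Finset.sum_add_distrib, Finset.sum_add_distrib] at hlow
    simp only [Finset.sum_const, Finset.card_univ, Fintype.card_pi, Fintype.card_fin,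
      Finset.prod_const, smul_eq_mul, Finset.sum_ite_eq', Finset.mem_univ, if_true] at hlow
    have hpos : 0 < 2 ^ n := by positivity
    have h3 : (m - 2) < (q + 1) * 2 ^ n := by
      rw [hq]
      exact (Nat.div_lt_iff_lt_mul hpos).1 (Nat.lt_succ_self _)
    have h4 : 2 ^ n * (q + 1) = (q + 1) * 2 ^ n := Nat.mul_comm _ _
    omega
  · -- both a row of colour zero and a row of colour one: two trees suffice
    apply part_flip
    have hex : ∃ c : Fin m → Fin 2, (∃ y, c y = 0) ∧ (∃ y, c y = 1) ∧
        ∀ x, ¬ ∀ y, χ x y ≠ c y := by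
      by_contra hcon
      push Not at hcon
      have hsurj : Function.Surjective (fun (x : Fin n) (y : Fin m) => oth (χ x y)) := by
        intro c
        by_cases hc0 : ∃ y, c y = 0
        · by_cases hc1 : ∃ y, c y = 1
          · obtain ⟨x, hx⟩ := hcon c hc0 hc1
            exact ⟨x, ((bad_iff (fun y x => χ x y) c x).1 hx).symm⟩
          · refine ⟨x1, ?_⟩
            funext y
            rcases fin2_cases (c y) with h | h
            · simp only [h1, h]; decide
            · exact absurd ⟨y, h⟩ hc1
        · refine ⟨x0, ?_⟩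
          funext y
          rcases fin2_cases (c y) with h | h
          · exact absurd ⟨y, h⟩ hc0
          · simp only [h0, h]; decide
      have hcard := Fintype.card_le_of_surjective _ hsurj
      rw [Fintype.card_pi, Finset.prod_const, Fintype.card_fin, Finset.card_univ,
        Fintype.card_fin, Fintype.card_fin] at hcard
      have : m < 2 ^ m := Nat.lt_two_pow_self
      omega
    obtain ⟨c, hc0, hc1, hc⟩ := hex
    have := part_two (fun y x => χ x y) x0 x1 h0 h1 c hc0 hc1
    refine this.mono ?_
    rw [Finset.filter_eq_empty_iff.2 (fun x _ => hc x)]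
    simp

/-- the extremal colouring for two colours -/
theorem lower_two (hn : 2 ≤ n) (hm : 2 ≤ m) :
    ∃ χ : Fin n → Fin m → Fin 2, ∀ c : Fin n → Fin 2,
      (m - 2) / 2 ^ n + 2 ≤ (Finset.univ.filter (fun y => ∀ x, χ x y ≠ c x)).card +
        (Finset.univ.image c).card := by
  classical
  set q := (m - 2) / 2 ^ n with hq
  have hpos : 0 < 2 ^ n := by positivity
  have hqm : q * 2 ^ n + 2 ≤ m := by
    have := Nat.div_mul_le_self (m - 2) (2 ^ n)
    rw [← hq] at this
    omega
  have hcard : Fintype.card (Fin n → Fin 2) = 2 ^ n := by simp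
  let e : (Fin n → Fin 2) ≃ Fin (2 ^ n) := Fintype.equivFinOfCardEq hcard
  let ty : Fin m → (Fin n → Fin 2) := fun y =>
    if y.1 < q * 2 ^ n then e.symm ⟨y.1 % 2 ^ n, Nat.mod_lt _ hpos⟩
    else if y.1 = q * 2 ^ n then (fun _ => 0) else (fun _ => 1)
  refine ⟨fun x y => ty y x, ?_⟩
  intro c
  -- the bad vertices are those of type `oth ∘ c`
  set t : Fin n → Fin 2 := fun x => oth (c x) with ht
  have hbad : ∀ y : Fin m, (∀ x, ty y x ≠ c x) ↔ ty y = t := by
    intro y
    rw [bad_iff (fun x y => ty y x) c y]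
    constructor
    · intro h
      rw [ht, h]
      funext x
      simp [oth_oth]
    · intro h
      funext x
      rw [h, ht]
      simp [oth_oth]
  have hfilter : (Finset.univ.filter (fun y => ∀ x, ty y x ≠ c x)) =
      Finset.univ.filter (fun y => ty y = t) := by
    ext y
    simp only [Finset.mem_filter, Finset.mem_univ, true_and]
    exact hbad y
  rw [hfilter]
  -- at least q vertices of type t among the first ones
  let g : Fin q → Fin m := fun k => ⟨k.1 * 2 ^ n + (e t).1, by
    have h1 := k.2
    have h2 := (e t).2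
    have h3 : (k.1 + 1) * 2 ^ n ≤ q * 2 ^ n := Nat.mul_le_mul_right _ h1
    rw [Nat.add_mul, Nat.one_mul] at h3
    omega⟩
  have hglt : ∀ k : Fin q, (g k).1 < q * 2 ^ n := by
    intro k
    have h1 := k.2
    have h2 := (e t).2
    have h3 : (k.1 + 1) * 2 ^ n ≤ q * 2 ^ n := Nat.mul_le_mul_right _ h1
    rw [Nat.add_mul, Nat.one_mul] at h3
    show k.1 * 2 ^ n + (e t).1 < _
    omega
  have hginj : Function.Injective g := by
    intro k k' h
    have h1 : k.1 * 2 ^ n + (e t).1 = k'.1 * 2 ^ n + (e t).1 := congrArg Fin.val h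
    have h2 : k.1 * 2 ^ n = k'.1 * 2 ^ n := by omega
    exact Fin.ext (Nat.eq_of_mul_eq_mul_right hpos h2)
  have hgty : ∀ k, ty (g k) = t := by
    intro k
    have h1 : (g k).1 % 2 ^ n = (e t).1 := by
      show (k.1 * 2 ^ n + (e t).1) % 2 ^ n = _
      rw [Nat.add_comm, Nat.add_mul_mod_self_right, Nat.mod_eq_of_lt (e t).2]
    show (if (g k).1 < q * 2 ^ n then e.symm ⟨(g k).1 % 2 ^ n, Nat.mod_lt _ hpos⟩
      else if (g k).1 = q * 2 ^ n then (fun _ => 0) else (fun _ => 1)) = t
    rw [if_pos (hglt k)]
    have : (⟨(g k).1 % 2 ^ n, Nat.mod_lt _ hpos⟩ : Fin (2 ^ n)) = e t := Fin.ext h1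
    rw [this, Equiv.symm_apply_apply]
  have hbase : Finset.univ.image g ⊆ Finset.univ.filter (fun y => ty y = t) := by
    intro y hy
    rw [Finset.mem_image] at hy
    obtain ⟨k, _, rfl⟩ := hy
    rw [Finset.mem_filter]
    exact ⟨Finset.mem_univ _, hgty k⟩
  have hbasecard : (Finset.univ.image g).card = q := by
    rw [Finset.card_image_of_injective _ hginj, Finset.card_univ, Fintype.card_fin]
  have hc2 : ∀ a b : Fin n, c a ≠ c b → 2 ≤ (Finset.univ.image c).card := by
    intro a b hab
    have : ({c a, c b} : Finset (Fin 2)) ⊆ Finset.univ.image c := by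
      intro z hz
      rw [Finset.mem_insert, Finset.mem_singleton] at hz
      rcases hz with rfl | rfl <;> exact Finset.mem_image_of_mem _ (Finset.mem_univ _)
    calc 2 = ({c a, c b} : Finset (Fin 2)).card := (Finset.card_pair hab).symm
      _ ≤ _ := Finset.card_le_card this
  by_cases hconst : ∃ i, t = fun _ => i
  · obtain ⟨i, hi⟩ := hconst
    -- one more vertex of type t
    have hextra : ∃ y : Fin m, q * 2 ^ n ≤ y.1 ∧ ty y = t := by
      rcases fin2_cases i with h | h
      · refine ⟨⟨q * 2 ^ n, by omega⟩, le_refl _, ?_⟩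
        show (if q * 2 ^ n < q * 2 ^ n then _ else if q * 2 ^ n = q * 2 ^ n then (fun _ => 0)
          else (fun _ => 1)) = t
        rw [if_neg (lt_irrefl _), if_pos rfl, hi, h]
      · refine ⟨⟨q * 2 ^ n + 1, by omega⟩, Nat.le_succ _, ?_⟩
        show (if q * 2 ^ n + 1 < q * 2 ^ n then _ else if q * 2 ^ n + 1 = q * 2 ^ n then
          (fun _ => 0) else (fun _ => 1)) = t
        rw [if_neg (by omega), if_neg (by omega), hi, h]
    obtain ⟨y, hy1, hy2⟩ := hextra
    have hynot : y ∉ Finset.univ.image g := by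
      intro h
      rw [Finset.mem_image] at h
      obtain ⟨k, _, hk⟩ := h
      have := hglt k
      rw [hk] at this
      omega
    have hsub : insert y (Finset.univ.image g) ⊆ Finset.univ.filter (fun y => ty y = t) := by
      intro z hz
      rw [Finset.mem_insert] at hz
      rcases hz with rfl | hz
      · rw [Finset.mem_filter]
        exact ⟨Finset.mem_univ _, hy2⟩
      · exact hbase hz
    have h1 := Finset.card_le_card hsub
    rw [Finset.card_insert_of_notMem hynot, hbasecard] at h1
    have h2 : 1 ≤ (Finset.univ.image c).card := by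
      apply Finset.card_pos.2
      exact ⟨c ⟨0, by omega⟩, Finset.mem_image_of_mem _ (Finset.mem_univ _)⟩
    omega
  · have h1 := Finset.card_le_card hbase
    rw [hbasecard] at h1
    have : ∃ a b : Fin n, c a ≠ c b := by
      by_contra hcon
      push Not at hcon
      apply hconst
      refine ⟨oth (c ⟨0, by omega⟩), ?_⟩
      funext x
      show oth (c x) = _
      rw [hcon x ⟨0, by omega⟩]
    obtain ⟨a, b, hab⟩ := this
    have := hc2 a b hab
    omega

theorem tp_two (hn : 2 ≤ n) (hnm : n ≤ m) : tp 2 n m = (m - 2) / 2 ^ n + 2 := by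
  apply le_antisymm
  · exact tp_le (fun χ => part_upper hn hnm χ)
  · obtain ⟨χ, hχ⟩ := lower_two (n := n) (m := m) hn (by omega)
    exact le_tp (by norm_num) (fun χ => part_upper hn hnm χ) χ hχ

end

end Pool.Agent.H948R3.TP
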